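import Pool.Agent.Stk.Defs

/-!
# Triangles in the plane and the reference triangle
-/

set_option autoImplicit false

noncomputable section

namespace Pool.Agent.Stk

open MeasureTheory

/-- the affine parametrisation in real coordinates -/
private def tri_b (P Q R : ℂ) (p : ℝ × ℝ) : ℝ × ℝ :=
  (P.re + ((Q - P).re * p.1 + (R - P).re * p.2), P.im + ((Q - P).im * p.1 + (R - P).im * p.2))

private def tri_b' (P Q R : ℂ) : ℝ × ℝ →L[ℝ] ℝ × ℝ :=
  LinearMap.toContinuousLinearMap (Matrix.toLin (Module.Basis.finTwoProd ℝ)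
    (Module.Basis.finTwoProd ℝ) !![(Q - P).re, (R - P).re; (Q - P).im, (R - P).im])

private theorem tri_b'_det (P Q R : ℂ) : (tri_b' P Q R).det = det2 P Q R := by
  have : (tri_b' P Q R).det = LinearMap.det (Matrix.toLin (Module.Basis.finTwoProd ℝ)
    (Module.Basis.finTwoProd ℝ) !![(Q - P).re, (R - P).re; (Q - P).im, (R - P).im]) := by
    rfl
  rw [this, LinearMap.det_toLin, Matrix.det_fin_two_of]
  unfold det2
  ring

private theorem tri_b_hasFDerivAt (P Q R : ℂ) (p : ℝ × ℝ) :
    HasFDerivAt (tri_b P Q R) (tri_b' P Q R) p := by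
  unfold tri_b tri_b'
  rw [Matrix.toLin_finTwoProd_toContinuousLinearMap]
  have h1 : HasFDerivAt (fun p : ℝ × ℝ => p.1) (ContinuousLinearMap.fst ℝ ℝ ℝ) p :=
    hasFDerivAt_fst
  have h2 : HasFDerivAt (fun p : ℝ × ℝ => p.2) (ContinuousLinearMap.snd ℝ ℝ ℝ) p :=
    hasFDerivAt_snd
  refine HasFDerivAt.prodMk ?_ ?_
  · exact ((h1.const_mul ((Q - P).re)).add (h2.const_mul ((R - P).re))).const_add _
  · exact ((h1.const_mul ((Q - P).im)).add (h2.const_mul ((R - P).im))).const_add _

private theorem tri_b_inj {P Q R : ℂ} (h : det2 P Q R ≠ 0) :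
    Function.Injective (tri_b P Q R) := by
  rintro ⟨x, y⟩ ⟨x', y'⟩ hh
  simp only [tri_b, Prod.mk.injEq] at hh
  obtain ⟨h1, h2⟩ := hh
  unfold det2 at h
  have e1 : (Q - P).re * (x - x') + (R - P).re * (y - y') = 0 := by linarith
  have e2 : (Q - P).im * (x - x') + (R - P).im * (y - y') = 0 := by linarith
  have e3 : ((Q - P).re * (R - P).im - (Q - P).im * (R - P).re) * (x - x') = 0 := by
    linear_combination (R - P).im * e1 - (R - P).re * e2
  have e4 : ((Q - P).re * (R - P).im - (Q - P).im * (R - P).re) * (y - y') = 0 := by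
    linear_combination (Q - P).re * e2 - (Q - P).im * e1
  have e5 := (mul_eq_zero.mp e3).resolve_left h
  have e6 := (mul_eq_zero.mp e4).resolve_left h
  ext
  · simp only; linarith
  · simp only; linarith

private theorem tri_hull (P Q R : ℂ) : convexHull ℝ {P, Q, R} =
    (fun p : ℝ × ℝ => P + (p.1 : ℂ) * (Q - P) + (p.2 : ℂ) * (R - P)) '' Dl := by
  rw [convexHull_insert (by simp), convexHull_pair]
  ext z
  simp only [mem_convexJoin, Set.mem_singleton_iff, exists_eq_left, Set.mem_image]
  constructor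
  · rintro ⟨y, hy, hz⟩
    obtain ⟨a, b, ha, hb, hab, rfl⟩ := hy
    obtain ⟨c, d, hc, hd, hcd, rfl⟩ := hz
    refine ⟨(d * a, d * b), ⟨by positivity, by positivity, ?_⟩, ?_⟩
    · simp only
      nlinarith
    · have hc' : c = 1 - d := by linarith
      have ha' : a = 1 - b := by linarith
      subst hc' ha'
      simp only [Complex.real_smul]
      push_cast
      ring
  · rintro ⟨⟨s, t⟩, ⟨hs, ht, hst⟩, rfl⟩
    simp only at hs ht hst ⊢
    rcases eq_or_lt_of_le (add_nonneg hs ht) with h0 | h0
    · have hs0 : s = 0 := by linarith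
      have ht0 : t = 0 := by linarith
      subst hs0 ht0
      exact ⟨Q, left_mem_segment _ _ _, by simpa using left_mem_segment ℝ P Q⟩
    · refine ⟨((s / (s + t) : ℝ) : ℂ) * Q + ((t / (s + t) : ℝ) : ℂ) * R, ?_, ?_⟩
      · refine ⟨s / (s + t), t / (s + t), by positivity, by positivity, ?_, ?_⟩
        · field_simp
        · simp only [Complex.real_smul]
      · refine ⟨1 - (s + t), s + t, by linarith, h0.le, by ring, ?_⟩
        simp only [Complex.real_smul]
        have h1 : (s : ℂ) = ((s + t : ℝ) : ℂ) * ((s / (s + t) : ℝ) : ℂ) := by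
          rw [← Complex.ofReal_mul]
          congr 1
          field_simp
        have h2 : (t : ℂ) = ((s + t : ℝ) : ℂ) * ((t / (s + t) : ℝ) : ℂ) := by
          rw [← Complex.ofReal_mul]
          congr 1
          field_simp
        have h3 : P + (s : ℂ) * (Q - P) + (t : ℂ) * (R - P) =
            (1 - ((s : ℂ) + t)) * P + ((s : ℂ) * Q + (t : ℂ) * R) := by ring
        have h4 : ((s + t : ℝ) : ℂ) * (((s / (s + t) : ℝ) : ℂ) * Q + ((t / (s + t) : ℝ) : ℂ) * R)
            = (s : ℂ) * Q + (t : ℂ) * R := by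
          rw [mul_add, ← mul_assoc, ← mul_assoc, ← h1, ← h2]
        rw [h3, h4]
        push_cast
        ring

private theorem tri_Dl_closed : IsClosed Dl := by
  unfold Dl
  simp only [Set.ofPred_and]
  refine (isClosed_le continuous_const continuous_fst).inter
    ((isClosed_le continuous_const continuous_snd).inter
      (isClosed_le (continuous_fst.add continuous_snd) continuous_const))

private theorem tri_Dl_meas : MeasurableSet Dl := tri_Dl_closed.measurableSet

private theorem tri_b_eq (P Q R : ℂ) (p : ℝ × ℝ) :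
    Complex.measurableEquivRealProd.symm (tri_b P Q R p) =
      P + (p.1 : ℂ) * (Q - P) + (p.2 : ℂ) * (R - P) := by
  rw [Complex.measurableEquivRealProd_symm_apply]
  apply Complex.ext
  · simp [tri_b]
    ring
  · simp [tri_b]
    ring

/-- change of variables (the boundary of the convex hull is a null set) -/
theorem int_tri {P Q R : ℂ} (h : det2 P Q R ≠ 0) (F : ℂ → ℝ) :
    ∫ z in tri P Q R, F z = |det2 P Q R| *
      ∫ p in Dl, F (P + (p.1 : ℂ) * (Q - P) + (p.2 : ℂ) * (R - P)) := by
  have h1 : (tri P Q R : Set ℂ) =ᵐ[volume] (convexHull ℝ {P, Q, R} : Set ℂ) :=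
    interior_ae_eq_of_null_frontier ((convex_convexHull ℝ _).addHaar_frontier volume)
  rw [setIntegral_congr_set h1]
  have h2 : (convexHull ℝ {P, Q, R} : Set ℂ) =
      Complex.measurableEquivRealProd ⁻¹' (tri_b P Q R '' Dl) := by
    rw [tri_hull]
    ext z
    simp only [Set.mem_image, Set.mem_preimage]
    constructor
    · rintro ⟨p, hp, rfl⟩
      refine ⟨p, hp, ?_⟩
      rw [← tri_b_eq, MeasurableEquiv.apply_symm_apply]
    · rintro ⟨p, hp, hz⟩
      refine ⟨p, hp, ?_⟩
      rw [← tri_b_eq, hz, MeasurableEquiv.symm_apply_apply]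
  have h3 : ∫ z in Complex.measurableEquivRealProd ⁻¹' (tri_b P Q R '' Dl), F z =
      ∫ q in tri_b P Q R '' Dl, F (Complex.measurableEquivRealProd.symm q) := by
    have := Complex.volume_preserving_equiv_real_prod.setIntegral_preimage_emb
      Complex.measurableEquivRealProd.measurableEmbedding
      (fun q => F (Complex.measurableEquivRealProd.symm q)) (tri_b P Q R '' Dl)
    simpa only [MeasurableEquiv.symm_apply_apply] using this
  rw [h2, h3, integral_image_eq_integral_abs_det_fderiv_smul volume tri_Dl_meas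
    (fun p _ => (tri_b_hasFDerivAt P Q R p).hasFDerivWithinAt) (tri_b_inj h).injOn]
  simp only [tri_b'_det, tri_b_eq, smul_eq_mul]
  rw [integral_const_mul]

private theorem tri_Dl_int : ∫ _p in Dl, (1 : ℝ) = 1 / 2 := by
  rw [← integral_indicator tri_Dl_meas]
  have hint : Integrable (Dl.indicator fun _ : ℝ × ℝ => (1 : ℝ)) (volume : Measure (ℝ × ℝ)) := by
    rw [integrable_indicator_iff tri_Dl_meas]
    refine (continuousOn_const.integrableOn_compact ?_)
    refine Metric.isCompact_of_isClosed_isBounded tri_Dl_closed ?_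
    refine (Metric.isBounded_Icc (0 : ℝ × ℝ) (1 : ℝ × ℝ)).subset ?_
    rintro ⟨s, t⟩ ⟨hs, ht, hst⟩
    simp only at hs ht hst
    exact ⟨⟨hs, ht⟩, ⟨by simp; linarith, by simp; linarith⟩⟩
  rw [show (volume : Measure (ℝ × ℝ)) = (volume : Measure ℝ).prod volume from rfl] at hint ⊢
  rw [integral_prod _ hint]
  have h1 : ∀ x : ℝ, ∫ y : ℝ, Dl.indicator (fun _ : ℝ × ℝ => (1 : ℝ)) (x, y) =
      (Set.Icc (0 : ℝ) 1).indicator (fun x => 1 - x) x := by
    intro x
    by_cases hx : x ∈ Set.Icc (0 : ℝ) 1
    · rw [Set.indicator_of_mem hx]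
      have h2 : (fun y : ℝ => Dl.indicator (fun _ : ℝ × ℝ => (1 : ℝ)) (x, y)) =
          (Set.Icc (0 : ℝ) (1 - x)).indicator (fun _ => (1 : ℝ)) := by
        ext y
        by_cases hy : y ∈ Set.Icc (0 : ℝ) (1 - x)
        · rw [Set.indicator_of_mem hy, Set.indicator_of_mem]
          exact ⟨hx.1, hy.1, by simp only; linarith [hy.2]⟩
        · rw [Set.indicator_of_notMem hy, Set.indicator_of_notMem]
          rintro ⟨_, h3, h4⟩
          exact hy ⟨h3, by simp only at h4; linarith⟩
      rw [h2, integral_indicator measurableSet_Icc, setIntegral_const]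
      simp [hx.2]
    · rw [Set.indicator_of_notMem hx]
      have h2 : (fun y : ℝ => Dl.indicator (fun _ : ℝ × ℝ => (1 : ℝ)) (x, y)) =
          fun _ => 0 := by
        ext y
        rw [Set.indicator_of_notMem]
        rintro ⟨h3, h4, h5⟩
        simp only at h3 h4 h5
        exact hx ⟨h3, by linarith⟩
      rw [h2, integral_zero]
  simp only [h1]
  rw [integral_indicator measurableSet_Icc, integral_Icc_eq_integral_Ioc,
    ← intervalIntegral.integral_of_le zero_le_one]
  rw [intervalIntegral.integral_sub intervalIntegrable_const intervalIntegral.intervalIntegrable_id,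
    intervalIntegral.integral_const, integral_id]
  norm_num

theorem area_eq {P Q R : ℂ} (h : det2 P Q R ≠ 0) : area P Q R = |det2 P Q R| / 2 := by
  have h1 := int_tri h (fun _ => 1)
  rw [tri_Dl_int, setIntegral_const, smul_eq_mul, mul_one] at h1
  unfold area
  rw [h1]
  ring

end Pool.Agent.Stk
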