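import Mathlib

/-!
# The first Steklov eigenvalue of triangles: definitions

MP_b1ddb4_an, the case `n = 3`.  The plane is `ℂ`.
-/

set_option autoImplicit false

noncomputable section

namespace Pool.Agent.Stk

open MeasureTheory

/-! ### the problem -/

/-- Integral of `f` over the segment `[P, Q]` with respect to arc length. -/
def segInt (P Q : ℂ) (f : ℂ → ℝ) : ℝ :=
  dist P Q * ∫ t in (0 : ℝ)..1, f (P + (t : ℂ) * (Q - P))

/-- Integral of `f` over the boundary of the triangle `P Q R` with respect to arc length. -/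
def bdInt (P Q R : ℂ) (f : ℂ → ℝ) : ℝ := segInt P Q f + segInt Q R f + segInt R P f

/-- The open triangle with vertices `P, Q, R`. -/
def tri (P Q R : ℂ) : Set ℂ := interior (convexHull ℝ {P, Q, R})

/-- Dirichlet integral of `u` over the open triangle: `∫ |∇u|²`. -/
def dirichlet (P Q R : ℂ) (u : ℂ → ℝ) : ℝ :=
  ∫ z in tri P Q R, ((fderiv ℝ u z 1) ^ 2 + (fderiv ℝ u z Complex.I) ^ 2)

/-- First Steklov eigenvalue of the triangle `P Q R`: the infimum of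
`∫_Ω |∇u|² / ∫_{∂Ω} u²` over the functions `u` of class `C^k` on the plane with
`∫_{∂Ω} u = 0` which do not vanish identically on the boundary. -/
def sigma1 (k : WithTop ℕ∞) (P Q R : ℂ) : ℝ :=
  sInf {x : ℝ | ∃ u : ℂ → ℝ, ContDiff ℝ k u ∧ bdInt P Q R u = 0 ∧
    bdInt P Q R (fun z => u z ^ 2) ≠ 0 ∧
      x = dirichlet P Q R u / bdInt P Q R (fun z => u z ^ 2)}

/-- Perimeter of the triangle. -/
def perim (P Q R : ℂ) : ℝ := dist P Q + dist Q R + dist R P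

/-- Area of the triangle. -/
def area (P Q R : ℂ) : ℝ := volume.real (tri P Q R)

/-! ### the reference triangle -/

/-- The reference triangle. -/
def Dl : Set (ℝ × ℝ) := {p | 0 ≤ p.1 ∧ 0 ≤ p.2 ∧ p.1 + p.2 ≤ 1}

/-- First partial derivative. -/
def dS (w : ℝ × ℝ → ℝ) (p : ℝ × ℝ) : ℝ := fderiv ℝ w p (1, 0)

/-- Second partial derivative. -/
def dT (w : ℝ × ℝ → ℝ) (p : ℝ × ℝ) : ℝ := fderiv ℝ w p (0, 1)

/-- Energy form belonging to the side `[(0,0), (1,0)]`. -/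
def Z0 (w : ℝ × ℝ → ℝ) : ℝ := ∫ p in Dl, dT w p * (dT w p - dS w p)

/-- Energy form belonging to the side `[(1,0), (0,1)]`. -/
def Z1 (w : ℝ × ℝ → ℝ) : ℝ := ∫ p in Dl, dS w p * dT w p

/-- Energy form belonging to the side `[(0,1), (0,0)]`. -/
def Z2 (w : ℝ × ℝ → ℝ) : ℝ := ∫ p in Dl, dS w p * (dS w p - dT w p)

/-- Square integral over the side `[(0,0), (1,0)]`. -/
def X0 (w : ℝ × ℝ → ℝ) : ℝ := ∫ t in (0 : ℝ)..1, w (t, 0) ^ 2

/-- Square integral over the side `[(1,0), (0,1)]`. -/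
def X1 (w : ℝ × ℝ → ℝ) : ℝ := ∫ t in (0 : ℝ)..1, w (1 - t, t) ^ 2

/-- Square integral over the side `[(0,1), (0,0)]`. -/
def X2 (w : ℝ × ℝ → ℝ) : ℝ := ∫ t in (0 : ℝ)..1, w (0, t) ^ 2

/-- Integral over the side `[(0,0), (1,0)]`. -/
def Y0 (w : ℝ × ℝ → ℝ) : ℝ := ∫ t in (0 : ℝ)..1, w (t, 0)

/-- Integral over the side `[(1,0), (0,1)]`. -/
def Y1 (w : ℝ × ℝ → ℝ) : ℝ := ∫ t in (0 : ℝ)..1, w (1 - t, t)

/-- Integral over the side `[(0,1), (0,0)]`. -/
def Y2 (w : ℝ × ℝ → ℝ) : ℝ := ∫ t in (0 : ℝ)..1, w (0, t)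

/-- Energy of the equilateral triangle (up to the factor `2 / √3`). -/
def QQ (w : ℝ × ℝ → ℝ) : ℝ := Z0 w + Z1 w + Z2 w

/-- Boundary square integral of the equilateral triangle of side `1`. -/
def NN (w : ℝ × ℝ → ℝ) : ℝ := X0 w + X1 w + X2 w

/-- Boundary integral of the equilateral triangle of side `1`. -/
def YY (w : ℝ × ℝ → ℝ) : ℝ := Y0 w + Y1 w + Y2 w

/-- `√3 / 2` times the first Steklov eigenvalue of the equilateral triangle of side `1`. -/
def tau (k : WithTop ℕ∞) : ℝ :=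
  sInf {x : ℝ | ∃ w : ℝ × ℝ → ℝ, ContDiff ℝ k w ∧ YY w = 0 ∧ NN w ≠ 0 ∧ x = QQ w / NN w}

/-- The reflection which exchanges the vertices `(0,0)` and `(1,0)`. -/
def ph0 (p : ℝ × ℝ) : ℝ × ℝ := (1 - p.1 - p.2, p.2)

/-- The reflection which exchanges the vertices `(1,0)` and `(0,1)`. -/
def ph1 (p : ℝ × ℝ) : ℝ × ℝ := (p.2, p.1)

/-- `w` is odd with respect to `ph0`. -/
def Odd0 (w : ℝ × ℝ → ℝ) : Prop := ∀ p, w (ph0 p) = - w p

/-- `w` in coordinates of the half triangle `{ph0-fixed line, (1,0), (0,1)}`. -/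
def half (w : ℝ × ℝ → ℝ) (p : ℝ × ℝ) : ℝ := w ((1 + p.1 - p.2) / 2, p.2)

/-- Pull back of a function on the plane to the reference triangle. -/
def pull (P Q R : ℂ) (u : ℂ → ℝ) (p : ℝ × ℝ) : ℝ :=
  u (P + (p.1 : ℂ) * (Q - P) + (p.2 : ℂ) * (R - P))

/-- Twice the signed area. -/
def det2 (P Q R : ℂ) : ℝ := (Q - P).re * (R - P).im - (Q - P).im * (R - P).re

end Pool.Agent.Stk
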