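import Mathlib

/-!
# A real inequality, near the equilateral triangle
-/

set_option autoImplicit false

namespace Pool.Agent.Stk

/-- end point `x1 = 0` -/
private theorem regA_f1 {r Z : ℝ} (hr : 0 < r) (hZ0 : 0 ≤ Z) (hz : Z ≤ 9 / 4 * r ^ 2)
    (hd : r ^ 2 + 4 / 3 * Z ≤ 0.0441) :
    0 < (1.121 - r / 10) * (1 - 0.5252 * (3 * r ^ 2 + 2 * r ^ 3 + 4 * Z * (1 - 2 * r))) * (1 + r)
      - 1.121 * (1 + r ^ 2 / 2 + 2 / 3 * Z) + 7 * (1.137 - 1.121) * (2 * r + r ^ 2 / 2 - 2 / 3 * Z) := by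
  have hr2 : r ^ 2 ≤ 0.0441 := by linarith
  have hr1 : r ≤ 0.21 := by
    by_contra h
    push Not at h
    have := mul_pos (show 0 < r - 0.21 by linarith) (show 0 < r + 0.21 by linarith)
    linarith
  have hB : 0 ≤ 3.1769968 - 2.5650768 * r - 4.4999136 * r ^ 2 + 0.42016 * r ^ 3 := by
    have := pow_pos hr 3
    linarith
  have hr3 : 0 < r ^ 3 := pow_pos hr 3
  have hr4 : 0 < r ^ 4 := pow_pos hr 4
  have hr5 : 0 < r ^ 5 := pow_pos hr 5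
  have hd3 : 0 ≤ r * (0.0441 - r ^ 2) := mul_nonneg hr.le (by linarith)
  have hd4 : 0 ≤ r ^ 2 * (0.0441 - r ^ 2) := mul_nonneg (sq_nonneg r) (by linarith)
  have hd2 : 0 ≤ r * (0.21 - r) := mul_nonneg hr.le (by linarith)
  have hd5 : 0 ≤ r ^ 4 * (0.21 - r) := mul_nonneg hr4.le (by linarith)
  rcases le_total r 0.105 with h | h
  · have h1 := mul_nonneg hB (show 0 ≤ 9 / 4 * r ^ 2 - Z by linarith)
    have h2 : 0 < r * (1.245 - 9.5189904 * r) := mul_pos hr (by linarith)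
    linarith
  · have h1 := mul_nonneg hB (show 0 ≤ 3 / 4 * (0.0441 - r ^ 2) - Z by linarith)
    linarith

/-- end point `x1 = 1 / 2` -/
private theorem regA_f2 {r Z : ℝ} (hr : 0 < r) (hZ0 : 0 ≤ Z) (hz : Z ≤ 9 / 4 * r ^ 2)
    (hd : r ^ 2 + 4 / 3 * Z ≤ 0.0441) :
    0 < (1.121 - r / 10) * (1 - 0.5252 * (3 * r ^ 2 + 2 * r ^ 3 + 4 * Z * (1 - 2 * r))) *
        (1 + r - 3 / 2 * r - 2 / 3 * Z)
      - 1.121 * (1 + r ^ 2 / 2 + 2 / 3 * Z) + 7 * (1.257 - 1.121) * (2 * r + r ^ 2 / 2 - 2 / 3 * Z) := by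
  have hr2 : r ^ 2 ≤ 0.0441 := by linarith
  have hr1 : r ≤ 0.21 := by
    by_contra h
    push Not at h
    have := mul_pos (show 0 < r - 0.21 by linarith) (show 0 < r + 0.21 by linarith)
    linarith
  have hr3 : 0 < r ^ 3 := pow_pos hr 3
  have hr4 : 0 < r ^ 4 := pow_pos hr 4
  have hr5 : 0 < r ^ 5 := pow_pos hr 5
  have hr6 : 0 < r ^ 6 := pow_pos hr 6
  have hr02 : 0 < r ^ 2 := pow_pos hr 2
  have hd3 : 0 ≤ r * (0.0441 - r ^ 2) := mul_nonneg hr.le (by linarith)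
  have hd4 : 0 ≤ r ^ 2 * (0.0441 - r ^ 2) := mul_nonneg (sq_nonneg r) (by linarith)
  have hd44 : 0 ≤ r ^ 3 * (0.21 - r) := mul_nonneg hr3.le (by linarith)
  have hd5 : 0 ≤ r ^ 4 * (0.21 - r) := mul_nonneg hr4.le (by linarith)
  have hd6 : 0 ≤ r ^ 5 * (0.21 - r) := mul_nonneg hr5.le (by linarith)
  have hBB : 0 ≤ ((1.121 - r / 10) * (0.5252 * 4 * (1 - 2 * r)) * (1 - r / 2)
      + (1.121 - r / 10) * (2 / 3) * (1 - 0.5252 * (3 * r ^ 2 + 2 * r ^ 3))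
      + 1.121 * (2 / 3) + 7 * (1.257 - 1.121) * (2 / 3) : ℝ) := by
    have e1 : 0 ≤ (1.121 - r / 10) * (0.5252 * 4 * (1 - 2 * r)) * (1 - r / 2) :=
      mul_nonneg (mul_nonneg (by linarith) (by linarith)) (by linarith)
    have e2 : 0 ≤ (1.121 - r / 10) * (2 / 3) * (1 - 0.5252 * (3 * r ^ 2 + 2 * r ^ 3)) := by
      refine mul_nonneg (mul_nonneg (by linarith) (by norm_num)) ?_
      linarith
    linarith
  have hC : 0 ≤ (1.121 - r / 10) * (0.5252 * 4 * (1 - 2 * r)) * (2 / 3) * Z ^ 2 :=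
    mul_nonneg (mul_nonneg (mul_nonneg (by linarith) (by linarith)) (by norm_num)) (sq_nonneg Z)
  rcases le_total r 0.105 with h | h
  · have h1 := mul_nonneg hBB (show 0 ≤ 9 / 4 * r ^ 2 - Z by linarith)
    have h3 : 0 ≤ (0.105 - r) ^ 2 := sq_nonneg _
    have h4 : 0 ≤ r * (0.105 - r) ^ 2 := mul_nonneg hr.le h3
    have h5 : 0 ≤ r * (0.105 - r) := mul_nonneg hr.le (by linarith)
    have h6 : 0 ≤ r ^ 3 * (0.105 - r) := mul_nonneg hr3.le (by linarith)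
    have h7 : 0 ≤ r ^ 2 * (0.105 - r) := mul_nonneg hr02.le (by linarith)
    linarith
  · have h1 := mul_nonneg hBB (show 0 ≤ 3 / 4 * (0.0441 - r ^ 2) - Z by linarith)
    have h5 : 0 ≤ r * (r - 0.105) := mul_nonneg hr.le (by linarith)
    rcases le_total r 0.15 with h' | h'
    · have h6 : 0 ≤ r * (0.15 - r) := mul_nonneg hr.le (by linarith)
      have h7 : 0 ≤ r ^ 2 * (0.15 - r) := mul_nonneg hr02.le (by linarith)
      linarith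
    · linarith

/-- near the equilateral triangle -/
theorem regA {r z τ x0 x1 z0 z1 y q : ℝ} (hr : 0 < r) (hz : z ^ 2 ≤ 9 / 4 * r ^ 2)
    (hd : r ^ 2 + 4 / 3 * z ^ 2 ≤ 0.0441) (hN : x0 + 2 * x1 = 1) (hx0 : 0 ≤ x0) (hx1 : 0 ≤ x1)
    (hy : y ^ 2 ≤ x1) (h1 : z0 + 2 * z1 ≤ τ + r / 10) (hτ : 1.1 ≤ τ) (hτ' : τ ≤ z0 + 2 * z1)
    (h2 : z0 + 2 * z1 ≤ 1.121)
    (hS : 1.137 * x0 + 2.514 * x1 ≤ z0 + 2 * z1 + 1 / 7 * (z1 - z0))
    (hq : 0 < q) (hq2 : q ^ 2 = (1 - 2 * r) * ((1 + r) ^ 2 - 4 * z ^ 2)) :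
    (1 + r) ^ 2 * z0 + (2 * (1 - r / 2) ^ 2 + 2 * z ^ 2) * z1 <
      τ * q * ((1 + r) * x0 + (2 - r) * x1 - 4 / 3 * z ^ 2 * y ^ 2) := by
  obtain ⟨Z, hZ⟩ : ∃ Z, Z = z ^ 2 := ⟨_, rfl⟩
  have hZ0 : 0 ≤ Z := hZ ▸ sq_nonneg z
  rw [← hZ] at hz hd hq2 ⊢
  clear hZ
  have hr2 : r ^ 2 ≤ 0.0441 := by linarith
  have hr1 : r ≤ 0.21 := by
    by_contra h
    push Not at h
    have := mul_pos (show 0 < r - 0.21 by linarith) (show 0 < r + 0.21 by linarith)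
    linarith
  have hZ1 : Z ≤ 0.0331 := by linarith [sq_nonneg r]
  have hrZ : 0 ≤ Z * r := mul_nonneg hZ0 hr.le
  have hrZ' : 0 ≤ Z * (0.21 - r) := mul_nonneg hZ0 (by linarith)
  have hr02 : 0 < r ^ 2 := pow_pos hr 2
  have hr3 : 0 < r ^ 3 := pow_pos hr 3
  obtain ⟨w, hw⟩ : ∃ w, w = 3 * r ^ 2 + 2 * r ^ 3 + 4 * Z * (1 - 2 * r) := ⟨_, rfl⟩
  have hqw : q ^ 2 = 1 - w := by rw [hq2, hw]; ring
  have hw0 : 0 ≤ w := by
    rw [hw]; linarith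
  have hw1 : w ≤ 0.151 := by
    have h := mul_nonneg hr.le (show 0 ≤ 0.0441 - r ^ 2 by linarith)
    rw [hw]; linarith
  obtain ⟨Q, hQ⟩ : ∃ Q, Q = 1 - 0.5252 * w := ⟨_, rfl⟩
  have hQ0 : 0.9 ≤ Q := by rw [hQ]; linarith
  have hQ1 : Q ≤ 1 := by rw [hQ]; linarith
  have hQq : Q ≤ q := by
    by_contra hc
    push Not at hc
    have h3 : q ^ 2 < Q ^ 2 := pow_lt_pow_left₀ hc hq.le (by norm_num)
    rw [hqw, hQ] at h3
    have h4 := mul_nonneg hw0 (show 0 ≤ 0.151 - w by linarith)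
    linarith
  have hx0' : x0 = 1 - 2 * x1 := by linarith
  have hx12 : x1 ≤ 1 / 2 := by linarith
  have hZx : 0 ≤ Z * x1 := mul_nonneg hZ0 hx1
  have hrx : 0 ≤ r * x1 := mul_nonneg hr.le hx1
  have hZx' : 0 ≤ Z * (1 / 2 - x1) := mul_nonneg hZ0 (by linarith)
  have hrx' : 0 ≤ r * (1 / 2 - x1) := mul_nonneg hr.le (by linarith)
  obtain ⟨e, he⟩ : ∃ e, e = z0 + 2 * z1 := ⟨_, rfl⟩
  rw [← he] at h1 hτ' h2 hS
  have hz0 : z0 = e - 2 * z1 := by linarith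
  obtain ⟨M, hM⟩ : ∃ M, M = 2 * r + r ^ 2 / 2 - 2 / 3 * Z := ⟨_, rfl⟩
  have hM0 : 1.7 * r ≤ M := by
    have h := mul_nonneg hr.le (show 0 ≤ 0.21 - r by linarith)
    rw [hM]; linarith
  obtain ⟨L, hL⟩ : ∃ L, L = 1 + r - 3 * r * x1 - 4 / 3 * Z * x1 := ⟨_, rfl⟩
  have hL0 : 0 < L := by rw [hL]; linarith
  have hL1 : L ≤ 1 + r := by rw [hL]; linarith
  have hLR : L ≤ (1 + r) * x0 + (2 - r) * x1 - 4 / 3 * Z * y ^ 2 := by
    have h := mul_nonneg hZ0 (show 0 ≤ x1 - y ^ 2 by linarith)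
    rw [hL, hx0']; linarith
  -- left side
  have hleft : (1 + r) ^ 2 * z0 + (2 * (1 - r / 2) ^ 2 + 2 * Z) * z1 ≤
      e * (1 + r ^ 2 / 2 + 2 / 3 * Z) - 7 * (1.137 + 0.24 * x1 - e) * M := by
    have h3 : 7 * (1.137 + 0.24 * x1 - e) ≤ 3 * z1 - e := by
      rw [hx0', hz0] at hS; linarith
    have h4 := mul_le_mul_of_nonneg_right h3 (show 0 ≤ M by linarith)
    have h5 : (1 + r) ^ 2 * z0 + (2 * (1 - r / 2) ^ 2 + 2 * Z) * z1 =
      e * (1 + r ^ 2 / 2 + 2 / 3 * Z) - (3 * z1 - e) * M := by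
      rw [hz0, hM]; ring
    linarith
  -- right side
  have hright : (e - r / 10) * Q * L ≤ τ * q * ((1 + r) * x0 + (2 - r) * x1 - 4 / 3 * Z * y ^ 2) := by
    have h3 : (e - r / 10) * Q ≤ τ * q := mul_le_mul (by linarith) hQq (by linarith) (by linarith)
    exact mul_le_mul h3 hLR hL0.le (by positivity)
  refine lt_of_le_of_lt hleft (lt_of_lt_of_le ?_ hright)
  clear hleft hright hS hLR
  -- reduction to e = 1.121
  have h3 : 0 ≤ (1.121 - e) * (1 + r ^ 2 / 2 + 2 / 3 * Z + 7 * M - Q * L) := by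
    apply mul_nonneg (by linarith)
    have : Q * L ≤ 1 * (1 + r) := mul_le_mul hQ1 hL1 hL0.le (by norm_num)
    linarith
  have h4 : 0 < (1.121 - r / 10) * Q * L - 1.121 * (1 + r ^ 2 / 2 + 2 / 3 * Z)
      + 7 * (1.137 + 0.24 * x1 - 1.121) * M := by
    have f1 := regA_f1 hr hZ0 hz hd
    have f2 := regA_f2 hr hZ0 hz hd
    rw [← hw, ← hQ, ← hM] at f1 f2
    have h5 : (1.121 - r / 10) * Q * L - 1.121 * (1 + r ^ 2 / 2 + 2 / 3 * Z)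
        + 7 * (1.137 + 0.24 * x1 - 1.121) * M =
        (1 - 2 * x1) * ((1.121 - r / 10) * Q * (1 + r)
          - 1.121 * (1 + r ^ 2 / 2 + 2 / 3 * Z) + 7 * (1.137 - 1.121) * M) +
        2 * x1 * ((1.121 - r / 10) * Q * (1 + r - 3 / 2 * r - 2 / 3 * Z)
          - 1.121 * (1 + r ^ 2 / 2 + 2 / 3 * Z) + 7 * (1.257 - 1.121) * M) := by
      rw [hL]; ring
    rw [h5]
    rcases hx1.eq_or_lt with h6 | h6
    · rw [← h6]; simpa using f1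
    · have h7 := mul_pos (show 0 < 2 * x1 by linarith) f2
      have h8 := mul_nonneg (show 0 ≤ 1 - 2 * x1 by linarith) f1.le
      exact add_pos_of_nonneg_of_pos h8 h7
  have h9 : (e - r / 10) * Q * L - (e * (1 + r ^ 2 / 2 + 2 / 3 * Z) - 7 * (1.137 + 0.24 * x1 - e) * M) =
      ((1.121 - r / 10) * Q * L - 1.121 * (1 + r ^ 2 / 2 + 2 / 3 * Z)
        + 7 * (1.137 + 0.24 * x1 - 1.121) * M) +
      (1.121 - e) * (1 + r ^ 2 / 2 + 2 / 3 * Z + 7 * M - Q * L) := by ring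
  have h10 := add_pos_of_pos_of_nonneg h4 h3
  rw [← h9] at h10
  exact sub_pos.mp h10

end Pool.Agent.Stk
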