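import Mathlib

/-!
# A real inequality, far from the equilateral triangle
-/

set_option autoImplicit false

namespace Pool.Agent.Stk

theorem regL_poly {r : ℝ} (h1 : 0.105 ≤ r) (h2 : r ≤ 0.21) :
    225 / 121 * (1 - 2 * r) * ((1 + r) ^ 2 - 3 * (0.0441 - r ^ 2)) <
      ((1 + r) ^ 2) ^ 2 + 2 * (1 - 2 * r) * (5 + 2 * r) * (3 / 4 * (0.0441 - r ^ 2)) := by
  obtain ⟨x, rfl⟩ : ∃ x, r = 0.105 + x := ⟨r - 0.105, by ring⟩
  have hx : 0 ≤ x := by linarith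
  have hx' : x ≤ 0.105 := by linarith
  nlinarith [mul_nonneg hx (sub_nonneg.2 hx'), mul_nonneg (mul_nonneg hx hx) (sub_nonneg.2 hx'),
    mul_nonneg (mul_nonneg hx hx) (mul_nonneg hx hx), mul_nonneg hx hx, mul_nonneg hx (mul_nonneg hx hx)]

theorem regL_main {r u : ℝ} (hr : 0 < r) (hr' : r < 1 / 2) (hu0 : 0 ≤ u) (hz : u ≤ 9 / 4 * r ^ 2)
    (hd : 0.0441 ≤ r ^ 2 + 4 / 3 * u) :
    225 / 121 * (1 - 2 * r) * ((1 + r) ^ 2 - 4 * u) <
      ((1 + r) ^ 2) ^ 2 + 2 * (1 - 2 * r) * (5 + 2 * r) * u := by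
  have h12 : 0 < 1 - 2 * r := by linarith
  have hr105 : 0.105 ≤ r := by nlinarith
  rcases le_total r 0.21 with h | h
  · have hp := regL_poly hr105 h
    have hu : 3 / 4 * (0.0441 - r ^ 2) ≤ u := by linarith
    have h3 : 0 ≤ (1 - 2 * r) * (5 + 2 * r) * (u - 3 / 4 * (0.0441 - r ^ 2)) :=
      mul_nonneg (mul_nonneg h12.le (by linarith)) (by linarith)
    have h4 : 0 ≤ (1 - 2 * r) * (u - 3 / 4 * (0.0441 - r ^ 2)) :=
      mul_nonneg h12.le (by linarith)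
    nlinarith
  · have h3 : 0 ≤ (1 - 2 * r) * (5 + 2 * r) * u :=
      mul_nonneg (mul_nonneg h12.le (by linarith)) hu0
    have h4 : 0 ≤ (1 - 2 * r) * u := mul_nonneg h12.le hu0
    have h5 : 225 / 121 * (1 - 2 * r) < (1 + r) ^ 2 := by nlinarith
    have h6 : 0 < (1 + r) ^ 2 := by positivity
    have h7 := mul_lt_mul_of_pos_right h5 h6
    nlinarith

/-- far from the equilateral triangle -/
theorem regL {r z q : ℝ} (hr : 0 < r) (hr' : r < 1 / 2) (hz : z ^ 2 ≤ 9 / 4 * r ^ 2)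
    (hd : 0.0441 ≤ r ^ 2 + 4 / 3 * z ^ 2) (hz' : 4 * z ^ 2 < (1 + r) ^ 2)
    (hq : 0 < q) (hq2 : q ^ 2 = (1 - 2 * r) * ((1 + r) ^ 2 - 4 * z ^ 2)) :
    3 / 8 * q < 1.1 * ((1 + r) ^ 2 / 4 + z ^ 2 * (1 - 2 * r) * (5 + 2 * r) / (4 * (1 + r) ^ 2)) := by
  have h := regL_main hr hr' (sq_nonneg z) hz hd
  have hD : 0 < (1 + r) ^ 2 := by positivity
  have h12 : 0 < 1 - 2 * r := by linarith
  generalize (1 + r) ^ 2 = D at *
  obtain ⟨B, hB⟩ : ∃ B, B = z ^ 2 * (1 - 2 * r) * (5 + 2 * r) / D := ⟨_, rfl⟩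
  have hB0 : 0 ≤ B := by
    rw [hB]
    have : 0 ≤ z ^ 2 * (1 - 2 * r) * (5 + 2 * r) :=
      mul_nonneg (mul_nonneg (sq_nonneg z) h12.le) (by linarith)
    positivity
  have hDB : D * B = z ^ 2 * (1 - 2 * r) * (5 + 2 * r) := by
    rw [hB]
    field_simp
  have e1 : z ^ 2 * (1 - 2 * r) * (5 + 2 * r) / (4 * D) = B / 4 := by
    rw [hB]
    field_simp
  rw [e1]
  have hsq : (15 / 11 * q) ^ 2 < (D + B) ^ 2 := by
    have : (15 / 11 * q) ^ 2 = 225 / 121 * (1 - 2 * r) * (D - 4 * z ^ 2) := by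
      rw [mul_pow, hq2]; ring
    rw [this]
    nlinarith [sq_nonneg B]
  have hlt : 15 / 11 * q < D + B := lt_of_pow_lt_pow_left₀ 2 (by positivity) hsq
  linarith

end Pool.Agent.Stk
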