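import Pool.Agent.Stk.Defs

/-!
# Nondegenerate triangles, Heron
-/

set_option autoImplicit false

noncomputable section

namespace Pool.Agent.Stk

open MeasureTheory

theorem det2_ne_iff {P Q R : ℂ} : AffineIndependent ℝ ![P, Q, R] ↔ det2 P Q R ≠ 0 := by
  rw [affineIndependent_iff_not_collinear_set, collinear_iff_of_mem (p₀ := P) (by simp), not_iff_comm]
  constructor
  · intro h
    rw [not_not] at h
    simp only [det2] at h
    by_cases hQ : Q = P
    · refine ⟨R - P, ?_⟩
      intro p hp
      rcases hp with rfl | rfl | rfl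
      · exact ⟨0, by simp⟩
      · exact ⟨0, by simp [hQ]⟩
      · exact ⟨1, by simp⟩
    · have hne : (Q - P).re ^ 2 + (Q - P).im ^ 2 ≠ 0 := by
        intro h0
        apply hQ
        have h1 : (Q - P).re = 0 := by nlinarith [sq_nonneg (Q - P).re, sq_nonneg (Q - P).im]
        have h2 : (Q - P).im = 0 := by nlinarith [sq_nonneg (Q - P).re, sq_nonneg (Q - P).im]
        exact sub_eq_zero.mp (Complex.ext h1 h2)
      refine ⟨Q - P, ?_⟩
      intro p hp
      rcases hp with rfl | rfl | rfl
      · exact ⟨0, by simp⟩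
      · exact ⟨1, by simp⟩
      · refine ⟨((Q - P).re * (p - P).re + (Q - P).im * (p - P).im) /
          ((Q - P).re ^ 2 + (Q - P).im ^ 2), ?_⟩
        have hv : p - P = (((Q - P).re * (p - P).re + (Q - P).im * (p - P).im) /
          ((Q - P).re ^ 2 + (Q - P).im ^ 2)) • (Q - P) := by
          apply Complex.ext
          · rw [Complex.real_smul, Complex.re_ofReal_mul]
            field_simp
            linear_combination (-(Q - P).im) * h
          · rw [Complex.real_smul, Complex.im_ofReal_mul]
            field_simp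
            linear_combination ((Q - P).re) * h
        rw [← hv, vadd_eq_add, sub_add_cancel]
  · rintro ⟨v, hv⟩
    obtain ⟨a, ha⟩ := hv Q (by simp)
    obtain ⟨b, hb⟩ := hv R (by simp)
    rw [not_not]
    simp only [vadd_eq_add] at ha hb
    rw [ha, hb]
    simp only [det2]
    simp
    ring

/-- Heron's formula -/
theorem heron (P Q R : ℂ) : 4 * det2 P Q R ^ 2 =
    (dist P Q + dist Q R + dist R P) * (dist Q R + dist R P - dist P Q) *
      (dist P Q + dist R P - dist Q R) * (dist P Q + dist Q R - dist R P) := by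
  have h1 : dist P Q ^ 2 = (P.re - Q.re) ^ 2 + (P.im - Q.im) ^ 2 := by
    rw [Complex.dist_eq, Complex.sq_norm, Complex.normSq_apply]
    simp
    ring
  have h2 : dist Q R ^ 2 = (Q.re - R.re) ^ 2 + (Q.im - R.im) ^ 2 := by
    rw [Complex.dist_eq, Complex.sq_norm, Complex.normSq_apply]
    simp
    ring
  have h3 : dist R P ^ 2 = (R.re - P.re) ^ 2 + (R.im - P.im) ^ 2 := by
    rw [Complex.dist_eq, Complex.sq_norm, Complex.normSq_apply]
    simp
    ring
  have h : (dist P Q + dist Q R + dist R P) * (dist Q R + dist R P - dist P Q) *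
      (dist P Q + dist R P - dist Q R) * (dist P Q + dist Q R - dist R P) =
      2 * (dist P Q ^ 2 * dist Q R ^ 2 + dist Q R ^ 2 * dist R P ^ 2 + dist R P ^ 2 * dist P Q ^ 2)
        - (dist P Q ^ 2 * dist P Q ^ 2 + dist Q R ^ 2 * dist Q R ^ 2 + dist R P ^ 2 * dist R P ^ 2) := by
    ring
  rw [h, h1, h2, h3]
  simp only [det2, Complex.sub_re, Complex.sub_im]
  ring

end Pool.Agent.Stk
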