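import Pool.Agent.Stk.Inv

/-!
# Elementary properties of the quadratic forms, second part
-/

set_option autoImplicit false

noncomputable section

namespace Pool.Agent.Stk

open MeasureTheory

/-! helper lemmas -/

theorem inv2_dS_add {f g : ℝ × ℝ → ℝ} (hf : ContDiff ℝ 1 f) (hg : ContDiff ℝ 1 g) (p : ℝ × ℝ) :
    dS (fun p => f p + g p) p = dS f p + dS g p := by
  unfold dS
  rw [fderiv_fun_add (hf.differentiable one_ne_zero p) (hg.differentiable one_ne_zero p)]
  rfl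

theorem inv2_dT_add {f g : ℝ × ℝ → ℝ} (hf : ContDiff ℝ 1 f) (hg : ContDiff ℝ 1 g) (p : ℝ × ℝ) :
    dT (fun p => f p + g p) p = dT f p + dT g p := by
  unfold dT
  rw [fderiv_fun_add (hf.differentiable one_ne_zero p) (hg.differentiable one_ne_zero p)]
  rfl

theorem inv2_dS_sub {f g : ℝ × ℝ → ℝ} (hf : ContDiff ℝ 1 f) (hg : ContDiff ℝ 1 g) (p : ℝ × ℝ) :
    dS (fun p => f p - g p) p = dS f p - dS g p := by
  unfold dS
  rw [fderiv_fun_sub (hf.differentiable one_ne_zero p) (hg.differentiable one_ne_zero p)]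
  rfl

theorem inv2_dT_sub {f g : ℝ × ℝ → ℝ} (hf : ContDiff ℝ 1 f) (hg : ContDiff ℝ 1 g) (p : ℝ × ℝ) :
    dT (fun p => f p - g p) p = dT f p - dT g p := by
  unfold dT
  rw [fderiv_fun_sub (hf.differentiable one_ne_zero p) (hg.differentiable one_ne_zero p)]
  rfl

theorem inv2_dS_smul (c : ℝ) {f : ℝ × ℝ → ℝ} (hf : ContDiff ℝ 1 f) (p : ℝ × ℝ) :
    dS (fun p => c * f p) p = c * dS f p := by
  unfold dS
  rw [fderiv_const_mul (hf.differentiable one_ne_zero p)]
  rfl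

theorem inv2_dT_smul (c : ℝ) {f : ℝ × ℝ → ℝ} (hf : ContDiff ℝ 1 f) (p : ℝ × ℝ) :
    dT (fun p => c * f p) p = c * dT f p := by
  unfold dT
  rw [fderiv_const_mul (hf.differentiable one_ne_zero p)]
  rfl

theorem inv2_QQ_eq {w : ℝ × ℝ → ℝ} (hw : ContDiff ℝ 1 w) :
    QQ w = ∫ p in Dl, (dS w p ^ 2 - dS w p * dT w p + dT w p ^ 2) := by
  have hS := continuous_dS hw
  have hT := continuous_dT hw
  unfold QQ Z0 Z1 Z2
  rw [← integral_add, ← integral_add]
  · refine integral_congr_ae (Filter.Eventually.of_forall fun p => ?_)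
    simp only
    ring
  · exact (integrableOn_Dl (hT.mul (hT.sub hS))).add (integrableOn_Dl (hS.mul hT))
  · exact integrableOn_Dl (hS.mul (hS.sub hT))
  · exact integrableOn_Dl (hT.mul (hT.sub hS))
  · exact integrableOn_Dl (hS.mul hT)

theorem inv2_int {w : ℝ × ℝ → ℝ} (hw : ContDiff ℝ 1 w) :
    IntegrableOn (fun p => dS w p ^ 2 - dS w p * dT w p + dT w p ^ 2) Dl := by
  have hS := continuous_dS hw
  have hT := continuous_dT hw
  exact integrableOn_Dl (((hS.pow 2).sub (hS.mul hT)).add (hT.pow 2))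

theorem inv2_cs {g : ℝ → ℝ} (hg : Continuous g) :
    (∫ t in (0 : ℝ)..1, g t) ^ 2 ≤ ∫ t in (0 : ℝ)..1, g t ^ 2 := by
  set Y := ∫ t in (0 : ℝ)..1, g t with hY
  have h0 : 0 ≤ ∫ t in (0 : ℝ)..1, (g t - Y) ^ 2 :=
    intervalIntegral.integral_nonneg zero_le_one (fun t _ => sq_nonneg _)
  have h1 : (∫ t in (0 : ℝ)..1, (g t - Y) ^ 2) =
      (∫ t in (0 : ℝ)..1, g t ^ 2) - 2 * Y * (∫ t in (0 : ℝ)..1, g t) + Y ^ 2 := by
    have e : (fun t => (g t - Y) ^ 2) = fun t => (g t ^ 2 - 2 * Y * g t) + Y ^ 2 := by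
      funext t; ring
    rw [e, intervalIntegral.integral_add, intervalIntegral.integral_sub,
      intervalIntegral.integral_const_mul, intervalIntegral.integral_const]
    · simp
    · exact (hg.pow 2).intervalIntegrable _ _
    · exact (continuous_const.mul hg).intervalIntegrable _ _
    · exact ((hg.pow 2).sub (continuous_const.mul hg)).intervalIntegrable _ _
    · exact continuous_const.intervalIntegrable _ _
  rw [h1, ← hY] at h0
  nlinarith [h0]

/-! quadratic forms -/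

theorem QQ_nonneg {w : ℝ × ℝ → ℝ} (hw : ContDiff ℝ 1 w) : 0 ≤ QQ w := by
  rw [inv2_QQ_eq hw]
  refine integral_nonneg fun p => ?_
  simp only [Pi.zero_apply]
  nlinarith [sq_nonneg (dS w p - dT w p), sq_nonneg (dS w p), sq_nonneg (dT w p)]

theorem X1_nonneg (w : ℝ × ℝ → ℝ) : 0 ≤ X1 w :=
  intervalIntegral.integral_nonneg zero_le_one (fun _ _ => sq_nonneg _)

theorem X0_nonneg (w : ℝ × ℝ → ℝ) : 0 ≤ X0 w :=
  intervalIntegral.integral_nonneg zero_le_one (fun _ _ => sq_nonneg _)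

theorem inv2_X2_nonneg (w : ℝ × ℝ → ℝ) : 0 ≤ X2 w :=
  intervalIntegral.integral_nonneg zero_le_one (fun _ _ => sq_nonneg _)

theorem NN_nonneg {w : ℝ × ℝ → ℝ} (hw : Continuous w) : 0 ≤ NN w := by
  have _ := hw
  exact add_nonneg (add_nonneg (X0_nonneg w) (X1_nonneg w)) (inv2_X2_nonneg w)

theorem inv2_c0 {w : ℝ × ℝ → ℝ} (hw : Continuous w) : Continuous fun t : ℝ => w (t, 0) :=
  hw.comp (by fun_prop)

theorem inv2_c1 {w : ℝ × ℝ → ℝ} (hw : Continuous w) : Continuous fun t : ℝ => w (1 - t, t) :=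
  hw.comp (by fun_prop)

theorem inv2_c2 {w : ℝ × ℝ → ℝ} (hw : Continuous w) : Continuous fun t : ℝ => w (0, t) :=
  hw.comp (by fun_prop)

/-- Cauchy-Schwarz -/
theorem Y1_sq_le {w : ℝ × ℝ → ℝ} (hw : Continuous w) : Y1 w ^ 2 ≤ X1 w :=
  inv2_cs (inv2_c1 hw)

theorem Y0_sq_le {w : ℝ × ℝ → ℝ} (hw : Continuous w) : Y0 w ^ 2 ≤ X0 w :=
  inv2_cs (inv2_c0 hw)

theorem Y2_sq_le {w : ℝ × ℝ → ℝ} (hw : Continuous w) : Y2 w ^ 2 ≤ X2 w :=
  inv2_cs (inv2_c2 hw)

theorem QQ_smul (c : ℝ) {w : ℝ × ℝ → ℝ} (hw : ContDiff ℝ 1 w) :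
    QQ (fun p => c * w p) = c ^ 2 * QQ w := by
  rw [inv2_QQ_eq hw, inv2_QQ_eq (contDiff_const.mul hw), ← integral_const_mul]
  refine integral_congr_ae (Filter.Eventually.of_forall fun p => ?_)
  simp only [inv2_dS_smul c hw, inv2_dT_smul c hw]
  ring

theorem NN_smul (c : ℝ) (w : ℝ × ℝ → ℝ) : NN (fun p => c * w p) = c ^ 2 * NN w := by
  unfold NN X0 X1 X2
  simp only [mul_pow, intervalIntegral.integral_const_mul]
  ring

theorem Y0_add {f g : ℝ × ℝ → ℝ} (hf : Continuous f) (hg : Continuous g) :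
    Y0 (fun p => f p + g p) = Y0 f + Y0 g :=
  intervalIntegral.integral_add ((inv2_c0 hf).intervalIntegrable _ _)
    ((inv2_c0 hg).intervalIntegrable _ _)

theorem Y1_add {f g : ℝ × ℝ → ℝ} (hf : Continuous f) (hg : Continuous g) :
    Y1 (fun p => f p + g p) = Y1 f + Y1 g :=
  intervalIntegral.integral_add ((inv2_c1 hf).intervalIntegrable _ _)
    ((inv2_c1 hg).intervalIntegrable _ _)

theorem Y2_add {f g : ℝ × ℝ → ℝ} (hf : Continuous f) (hg : Continuous g) :
    Y2 (fun p => f p + g p) = Y2 f + Y2 g :=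
  intervalIntegral.integral_add ((inv2_c2 hf).intervalIntegrable _ _)
    ((inv2_c2 hg).intervalIntegrable _ _)

/-- parallelogram identity -/
theorem QQ_par {f g : ℝ × ℝ → ℝ} (hf : ContDiff ℝ 1 f) (hg : ContDiff ℝ 1 g) :
    QQ (fun p => f p + g p) + QQ (fun p => f p - g p) = 2 * QQ f + 2 * QQ g := by
  have h1 := inv2_int (hf.add hg)
  have h2 := inv2_int (hf.sub hg)
  have h3 := inv2_int hf
  have h4 := inv2_int hg
  rw [inv2_QQ_eq hf, inv2_QQ_eq hg, inv2_QQ_eq (hf.add hg), inv2_QQ_eq (hf.sub hg),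
    ← integral_const_mul, ← integral_const_mul]
  rw [← integral_add h1 h2, ← integral_add (h3.const_mul 2) (h4.const_mul 2)]
  refine integral_congr_ae (Filter.Eventually.of_forall fun p => ?_)
  have e1 := inv2_dS_add hf hg p
  have e2 := inv2_dT_add hf hg p
  have e3 := inv2_dS_sub hf hg p
  have e4 := inv2_dT_sub hf hg p
  simp only [e1, e2, e3, e4]
  ring

theorem inv2_X_par {f g : ℝ → ℝ} (hf : Continuous f) (hg : Continuous g) :
    (∫ t in (0 : ℝ)..1, (f t + g t) ^ 2) + (∫ t in (0 : ℝ)..1, (f t - g t) ^ 2) =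
      2 * (∫ t in (0 : ℝ)..1, f t ^ 2) + 2 * (∫ t in (0 : ℝ)..1, g t ^ 2) := by
  rw [← intervalIntegral.integral_const_mul, ← intervalIntegral.integral_const_mul,
    ← intervalIntegral.integral_add, ← intervalIntegral.integral_add]
  · refine intervalIntegral.integral_congr fun t _ => ?_
    ring
  all_goals exact Continuous.intervalIntegrable (by fun_prop) _ _

theorem NN_par {f g : ℝ × ℝ → ℝ} (hf : Continuous f) (hg : Continuous g) :
    NN (fun p => f p + g p) + NN (fun p => f p - g p) = 2 * NN f + 2 * NN g := by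
  have h0 := inv2_X_par (inv2_c0 hf) (inv2_c0 hg)
  have h1 := inv2_X_par (inv2_c1 hf) (inv2_c1 hg)
  have h2 := inv2_X_par (inv2_c2 hf) (inv2_c2 hg)
  unfold NN X0 X1 X2
  linarith

theorem inv2_comb {A B C D E F G : ℝ × ℝ → ℝ} (hA : IntegrableOn A Dl) (hB : IntegrableOn B Dl)
    (hC : IntegrableOn C Dl) (hD : IntegrableOn D Dl) (hE : IntegrableOn E Dl)
    (hF : IntegrableOn F Dl) (hG : IntegrableOn G Dl)
    (h : ∀ p, A p + B p + C p + D p = 3 * (E p + F p + G p)) :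
    (∫ p in Dl, A p) + (∫ p in Dl, B p) + (∫ p in Dl, C p) + (∫ p in Dl, D p) =
      3 * ((∫ p in Dl, E p) + (∫ p in Dl, F p) + (∫ p in Dl, G p)) := by
  have l1 : ∫ p in Dl, (A p + B p + C p + D p) =
      (∫ p in Dl, A p) + (∫ p in Dl, B p) + (∫ p in Dl, C p) + (∫ p in Dl, D p) := by
    have h1 := integral_add hA hB
    have h2 := integral_add (hA.add hB) hC
    have h3 := integral_add ((hA.add hB).add hC) hD
    simp only [Pi.add_apply] at h1 h2 h3
    rw [h3, h2, h1]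
  have l2 : ∫ p in Dl, 3 * (E p + F p + G p) =
      3 * ((∫ p in Dl, E p) + (∫ p in Dl, F p) + (∫ p in Dl, G p)) := by
    have h1 := integral_add hE hF
    have h2 := integral_add (hE.add hF) hG
    simp only [Pi.add_apply] at h1 h2
    rw [integral_const_mul, h2, h1]
  rw [← l1, ← l2]
  exact integral_congr_ae (Filter.Eventually.of_forall h)

/-- `|a+b+c|² + |a-b|² + |a-c|² + |b-c|² = 3 (|a|² + |b|² + |c|²)` -/
theorem QQ_three {f g h : ℝ × ℝ → ℝ} (hf : ContDiff ℝ 1 f) (hg : ContDiff ℝ 1 g)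
    (hh : ContDiff ℝ 1 h) :
    QQ (fun p => f p + g p + h p) + QQ (fun p => f p - g p) + QQ (fun p => f p - h p) +
      QQ (fun p => g p - h p) = 3 * (QQ f + QQ g + QQ h) := by
  have a1 := inv2_int ((hf.add hg).add hh)
  have a2 := inv2_int (hf.sub hg)
  have a3 := inv2_int (hf.sub hh)
  have a4 := inv2_int (hg.sub hh)
  have b1 := inv2_int hf
  have b2 := inv2_int hg
  have b3 := inv2_int hh
  rw [inv2_QQ_eq hf, inv2_QQ_eq hg, inv2_QQ_eq hh, inv2_QQ_eq ((hf.add hg).add hh),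
    inv2_QQ_eq (hf.sub hg), inv2_QQ_eq (hf.sub hh), inv2_QQ_eq (hg.sub hh)]
  refine inv2_comb a1 a2 a3 a4 b1 b2 b3 fun p => ?_
  have e1 := inv2_dS_add (hf.add hg) hh p
  have e2 := inv2_dT_add (hf.add hg) hh p
  have e1' := inv2_dS_add hf hg p
  have e2' := inv2_dT_add hf hg p
  have e3 := inv2_dS_sub hf hg p
  have e4 := inv2_dT_sub hf hg p
  have e5 := inv2_dS_sub hf hh p
  have e6 := inv2_dT_sub hf hh p
  have e7 := inv2_dS_sub hg hh p
  have e8 := inv2_dT_sub hg hh p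
  rw [e1'] at e1
  rw [e2'] at e2
  rw [e1, e2, e3, e4, e5, e6, e7, e8]
  ring

theorem inv2_X_three {f g h : ℝ → ℝ} (hf : Continuous f) (hg : Continuous g)
    (hh : Continuous h) :
    (∫ t in (0 : ℝ)..1, (f t + g t + h t) ^ 2) + (∫ t in (0 : ℝ)..1, (f t - g t) ^ 2) +
      (∫ t in (0 : ℝ)..1, (f t - h t) ^ 2) + (∫ t in (0 : ℝ)..1, (g t - h t) ^ 2) =
      3 * ((∫ t in (0 : ℝ)..1, f t ^ 2) + (∫ t in (0 : ℝ)..1, g t ^ 2) +
        (∫ t in (0 : ℝ)..1, h t ^ 2)) := by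
  rw [← intervalIntegral.integral_add, ← intervalIntegral.integral_add,
    ← intervalIntegral.integral_add, ← intervalIntegral.integral_add,
    ← intervalIntegral.integral_add, ← intervalIntegral.integral_const_mul]
  · refine intervalIntegral.integral_congr fun t _ => ?_
    ring
  all_goals exact Continuous.intervalIntegrable (by fun_prop) _ _

theorem NN_three {f g h : ℝ × ℝ → ℝ} (hf : Continuous f) (hg : Continuous g)
    (hh : Continuous h) :
    NN (fun p => f p + g p + h p) + NN (fun p => f p - g p) + NN (fun p => f p - h p) +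
      NN (fun p => g p - h p) = 3 * (NN f + NN g + NN h) := by
  have h0 := inv2_X_three (inv2_c0 hf) (inv2_c0 hg) (inv2_c0 hh)
  have h1 := inv2_X_three (inv2_c1 hf) (inv2_c1 hg) (inv2_c1 hh)
  have h2 := inv2_X_three (inv2_c2 hf) (inv2_c2 hg) (inv2_c2 hh)
  unfold NN X0 X1 X2
  linarith

end Pool.Agent.Stk
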