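import Pool.Agent.Stk.Pull
import Pool.Agent.Stk.Heron
import Pool.Agent.Stk.Inv2

/-!
# Upper bounds by trial functions; the equilateral triangle
-/

set_option autoImplicit false

noncomputable section

namespace Pool.Agent.Stk

open MeasureTheory Pointwise

variable {k : WithTop ℕ∞}

/-! ### auxiliary statements -/

private lemma up_segInt_nonneg (P Q : ℂ) (f : ℂ → ℝ) (hf : ∀ z, 0 ≤ f z) : 0 ≤ segInt P Q f := by
  unfold segInt
  refine mul_nonneg dist_nonneg ?_
  exact intervalIntegral.integral_nonneg zero_le_one (fun t _ => hf _)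

private lemma up_bdInt_nonneg (P Q R : ℂ) (f : ℂ → ℝ) (hf : ∀ z, 0 ≤ f z) : 0 ≤ bdInt P Q R f := by
  unfold bdInt
  have h1 := up_segInt_nonneg P Q f hf
  have h2 := up_segInt_nonneg Q R f hf
  have h3 := up_segInt_nonneg R P f hf
  linarith

private lemma up_dirichlet_nonneg (P Q R : ℂ) (u : ℂ → ℝ) : 0 ≤ dirichlet P Q R u := by
  unfold dirichlet
  exact integral_nonneg (fun z => by positivity)

private lemma up_bddBelow (k : WithTop ℕ∞) (P Q R : ℂ) :
    BddBelow {x : ℝ | ∃ u : ℂ → ℝ, ContDiff ℝ k u ∧ bdInt P Q R u = 0 ∧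
      bdInt P Q R (fun z => u z ^ 2) ≠ 0 ∧
        x = dirichlet P Q R u / bdInt P Q R (fun z => u z ^ 2)} := by
  refine ⟨0, ?_⟩
  rintro x ⟨u, -, -, -, rfl⟩
  exact div_nonneg (up_dirichlet_nonneg P Q R u)
    (up_bdInt_nonneg P Q R _ (fun z => sq_nonneg _))

private lemma up_ne {P Q R : ℂ} (h : det2 P Q R ≠ 0) : P ≠ Q := by
  rintro rfl
  apply h
  simp [det2]

private lemma up_perim_pos {P Q R : ℂ} (h : det2 P Q R ≠ 0) : 0 < perim P Q R := by
  unfold perim
  have h1 : 0 < dist P Q := dist_pos.2 (up_ne h)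
  have h2 : 0 ≤ dist Q R := dist_nonneg
  have h3 : 0 ≤ dist R P := dist_nonneg
  linarith

private lemma up_line (w : ℝ → ℝ) (hw : Continuous w) (c : ℝ) :
    ∫ t in (0 : ℝ)..1, (w t - c) = (∫ t in (0 : ℝ)..1, w t) - c := by
  rw [intervalIntegral.integral_sub (hw.intervalIntegrable _ _) (by simp)]
  simp

private lemma up_line_sq (w : ℝ → ℝ) (hw : Continuous w) (c : ℝ) :
    ∫ t in (0 : ℝ)..1, (w t - c) ^ 2 =
      (∫ t in (0 : ℝ)..1, w t ^ 2) - 2 * c * (∫ t in (0 : ℝ)..1, w t) + c ^ 2 := by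
  have h1 : ∀ t, (w t - c) ^ 2 = w t ^ 2 - 2 * c * w t + c ^ 2 := fun t => by ring
  simp only [h1]
  have h2 : IntervalIntegrable (fun t => w t ^ 2) volume 0 1 :=
    (hw.pow 2).intervalIntegrable _ _
  have h3 : IntervalIntegrable (fun t => 2 * c * w t) volume 0 1 :=
    (continuous_const.mul hw).intervalIntegrable _ _
  have h4 : IntervalIntegrable (fun _ : ℝ => c ^ 2) volume 0 1 :=
    continuous_const.intervalIntegrable _ _
  rw [intervalIntegral.integral_add (h2.sub h3) h4, intervalIntegral.integral_sub h2 h3,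
    intervalIntegral.integral_const_mul]
  simp

private lemma up_dS (w : ℝ × ℝ → ℝ) (c : ℝ) : dS (fun p => w p - c) = dS w := by
  funext p
  unfold dS
  rw [fderiv_sub_const]

private lemma up_dT (w : ℝ × ℝ → ℝ) (c : ℝ) : dT (fun p => w p - c) = dT w := by
  funext p
  unfold dT
  rw [fderiv_sub_const]

/-- trial function `w - c`, `c` = mean value -/
theorem sigma1_le (hk : 1 ≤ k) {P Q R : ℂ} (h : det2 P Q R ≠ 0) {w : ℝ × ℝ → ℝ}
    (hw : ContDiff ℝ k w) :
    sigma1 k P Q R * |det2 P Q R| *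
      (dist P Q * X0 w + dist Q R * X1 w + dist R P * X2 w -
        (dist P Q * Y0 w + dist Q R * Y1 w + dist R P * Y2 w) ^ 2 / perim P Q R) ≤
      dist P Q ^ 2 * Z0 w + dist Q R ^ 2 * Z1 w + dist R P ^ 2 * Z2 w := by
  have hL := up_perim_pos h
  have hwc : Continuous w := hw.continuous
  obtain ⟨u0, hu0, hpu⟩ := exists_push h hw
  obtain ⟨c, hc⟩ : ∃ c : ℝ,
    c = (dist P Q * Y0 w + dist Q R * Y1 w + dist R P * Y2 w) / perim P Q R := ⟨_, rfl⟩
  obtain ⟨u, hu⟩ : ∃ u : ℂ → ℝ, u = fun z => u0 z - c := ⟨_, rfl⟩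
  have huk : ContDiff ℝ k u := by
    rw [hu]
    exact hu0.sub contDiff_const
  have hpull : pull P Q R u = fun p => w p - c := by
    funext p
    have := congrFun hpu p
    rw [hu]
    change u0 _ - c = w p - c
    rw [← this]
    rfl
  have hY0 : Y0 (fun p => w p - c) = Y0 w - c :=
    up_line (fun t => w (t, 0)) (hwc.comp (by fun_prop)) c
  have hY1 : Y1 (fun p => w p - c) = Y1 w - c :=
    up_line (fun t => w (1 - t, t)) (hwc.comp (by fun_prop)) c
  have hY2 : Y2 (fun p => w p - c) = Y2 w - c :=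
    up_line (fun t => w (0, t)) (hwc.comp (by fun_prop)) c
  have hX0 : X0 (fun p => w p - c) = X0 w - 2 * c * Y0 w + c ^ 2 :=
    up_line_sq (fun t => w (t, 0)) (hwc.comp (by fun_prop)) c
  have hX1 : X1 (fun p => w p - c) = X1 w - 2 * c * Y1 w + c ^ 2 :=
    up_line_sq (fun t => w (1 - t, t)) (hwc.comp (by fun_prop)) c
  have hX2 : X2 (fun p => w p - c) = X2 w - 2 * c * Y2 w + c ^ 2 :=
    up_line_sq (fun t => w (0, t)) (hwc.comp (by fun_prop)) c
  have hcL : c * perim P Q R = dist P Q * Y0 w + dist Q R * Y1 w + dist R P * Y2 w := by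
    rw [hc, div_mul_cancel₀ _ hL.ne']
  have hb0 : bdInt P Q R u = 0 := by
    rw [bdInt_pull, hpull, hY0, hY1, hY2]
    have : perim P Q R = dist P Q + dist Q R + dist R P := rfl
    rw [this] at hcL
    linarith
  have hb2 : bdInt P Q R (fun z => u z ^ 2) =
      dist P Q * X0 w + dist Q R * X1 w + dist R P * X2 w -
        (dist P Q * Y0 w + dist Q R * Y1 w + dist R P * Y2 w) ^ 2 / perim P Q R := by
    rw [bdInt_sq_pull, hpull, hX0, hX1, hX2, ← hcL]
    have h1 : (c * perim P Q R) ^ 2 / perim P Q R = c ^ 2 * perim P Q R := by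
      field_simp
    have h2 : c * (c * perim P Q R) =
      c * (dist P Q * Y0 w + dist Q R * Y1 w + dist R P * Y2 w) := by rw [hcL]
    rw [h1]
    have : perim P Q R = dist P Q + dist Q R + dist R P := rfl
    rw [this] at h2 ⊢
    linear_combination 2 * h2
  have hd : |det2 P Q R| * dirichlet P Q R u =
      dist P Q ^ 2 * Z0 w + dist Q R ^ 2 * Z1 w + dist R P ^ 2 * Z2 w := by
    rw [dirichlet_pull h (huk.of_le hk), hpull]
    unfold Z0 Z1 Z2
    rw [up_dS, up_dT]
  rw [← hb2, ← hd]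
  have hnn : 0 ≤ bdInt P Q R (fun z => u z ^ 2) :=
    up_bdInt_nonneg P Q R _ (fun z => sq_nonneg _)
  rcases hnn.eq_or_lt with h0 | h0
  · rw [← h0, mul_zero]
    exact mul_nonneg (abs_nonneg _) (up_dirichlet_nonneg P Q R u)
  · have h1 : sigma1 k P Q R ≤ dirichlet P Q R u / bdInt P Q R (fun z => u z ^ 2) :=
      csInf_le (up_bddBelow k P Q R) ⟨u, huk, hb0, h0.ne', rfl⟩
    rw [le_div_iff₀ h0] at h1
    have h2 := mul_le_mul_of_nonneg_left h1 (abs_nonneg (det2 P Q R))
    linarith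

/-- scaling and affine coordinates -/
theorem sigma1_equilateral (hk : 1 ≤ k) {P Q R : ℂ} (h : P ≠ Q) (h1 : dist P Q = dist Q R)
    (h2 : dist Q R = dist R P) :
    sigma1 k P Q R * perim P Q R = 2 * Real.sqrt 3 * tau k := by
  have hl : 0 < dist P Q := dist_pos.2 h
  have h3 : dist R P = dist P Q := by rw [← h2, ← h1]
  have h4 : dist Q R = dist P Q := h1.symm
  set l := dist P Q with hldef
  have hs : 0 < Real.sqrt 3 := Real.sqrt_pos.2 (by norm_num)
  have hss : Real.sqrt 3 ^ 2 = 3 := Real.sq_sqrt (by norm_num)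
  have hdet2 : det2 P Q R ^ 2 = (Real.sqrt 3 / 2 * l ^ 2) ^ 2 := by
    have := heron P Q R
    rw [h3, h4, ← hldef] at this
    rw [mul_pow, div_pow, hss]
    linear_combination this / 4
  have habs : |det2 P Q R| = Real.sqrt 3 / 2 * l ^ 2 := by
    rw [← sq_eq_sq₀ (abs_nonneg _) (by positivity), sq_abs, hdet2]
  have hne : det2 P Q R ≠ 0 := by
    intro h0
    rw [h0, abs_zero] at habs
    have : 0 < Real.sqrt 3 / 2 * l ^ 2 := by positivity
    linarith
  have hdir : ∀ u : ℂ → ℝ, ContDiff ℝ k u →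
      dirichlet P Q R u = 2 / Real.sqrt 3 * QQ (pull P Q R u) := by
    intro u hu
    have := dirichlet_pull hne (hu.of_le hk)
    rw [habs, h3, h4, ← hldef] at this
    unfold QQ
    have hl2 : l ^ 2 ≠ 0 := by positivity
    have h5 : l ^ 2 * (Real.sqrt 3 / 2 * dirichlet P Q R u) =
        l ^ 2 * (Z0 (pull P Q R u) + Z1 (pull P Q R u) + Z2 (pull P Q R u)) := by
      linear_combination this
    have h6 := mul_left_cancel₀ hl2 h5
    rw [← h6]
    field_simp
  have hbd : ∀ u : ℂ → ℝ, bdInt P Q R u = l * YY (pull P Q R u) := by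
    intro u
    rw [bdInt_pull, h3, h4, ← hldef]
    unfold YY
    ring
  have hbd2 : ∀ u : ℂ → ℝ, bdInt P Q R (fun z => u z ^ 2) = l * NN (pull P Q R u) := by
    intro u
    rw [bdInt_sq_pull, h3, h4, ← hldef]
    unfold NN
    ring
  have hset : {x : ℝ | ∃ u : ℂ → ℝ, ContDiff ℝ k u ∧ bdInt P Q R u = 0 ∧
      bdInt P Q R (fun z => u z ^ 2) ≠ 0 ∧
        x = dirichlet P Q R u / bdInt P Q R (fun z => u z ^ 2)} =
      (2 / (Real.sqrt 3 * l)) • {x : ℝ | ∃ w : ℝ × ℝ → ℝ, ContDiff ℝ k w ∧ YY w = 0 ∧ NN w ≠ 0 ∧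
        x = QQ w / NN w} := by
    ext x
    rw [Set.mem_smul_set]
    constructor
    · rintro ⟨u, hu, hu1, hu2, rfl⟩
      rw [hbd] at hu1
      rw [hbd2] at hu2
      refine ⟨QQ (pull P Q R u) / NN (pull P Q R u), ⟨pull P Q R u, contDiff_pull hu,
        (mul_eq_zero.1 hu1).resolve_left hl.ne', right_ne_zero_of_mul hu2, rfl⟩, ?_⟩
      rw [hdir u hu, hbd2, smul_eq_mul]
      have hN := right_ne_zero_of_mul hu2
      field_simp
    · rintro ⟨y, ⟨w, hw, hw1, hw2, rfl⟩, rfl⟩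
      obtain ⟨u, hu, hpu⟩ := exists_push hne hw
      refine ⟨u, hu, ?_, ?_, ?_⟩
      · rw [hbd, hpu, hw1, mul_zero]
      · rw [hbd2, hpu]
        exact mul_ne_zero hl.ne' hw2
      · rw [hdir u hu, hbd2, hpu, smul_eq_mul]
        field_simp
  have hsig : sigma1 k P Q R = 2 / (Real.sqrt 3 * l) * tau k := by
    unfold sigma1 tau
    rw [hset, Real.sInf_smul_of_nonneg (by positivity), smul_eq_mul]
  have hper : perim P Q R = 3 * l := by
    unfold perim
    rw [h3, h4, ← hldef]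
    ring
  rw [hsig, hper]
  have h33 : (3 : ℝ) = Real.sqrt 3 * Real.sqrt 3 := by rw [← sq, hss]
  have h7 : 2 / (Real.sqrt 3 * l) * tau k * (3 * l) = 2 * (3 / Real.sqrt 3) * tau k := by
    field_simp
  rw [h7]
  have h8 : 3 / Real.sqrt 3 = Real.sqrt 3 := by
    rw [div_eq_iff hs.ne']
    exact h33
  rw [h8]

private lemma up_tri_rot (P Q R : ℂ) : tri Q R P = tri P Q R := by
  unfold tri
  have : ({Q, R, P} : Set ℂ) = {P, Q, R} := by
    ext z
    simp only [Set.mem_insert_iff, Set.mem_singleton_iff]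
    tauto
  rw [this]

private lemma up_bdInt_rot (P Q R : ℂ) (f : ℂ → ℝ) : bdInt Q R P f = bdInt P Q R f := by
  unfold bdInt
  ring

theorem sigma1_rot (P Q R : ℂ) : sigma1 k Q R P = sigma1 k P Q R := by
  unfold sigma1
  have h1 : ∀ u, dirichlet Q R P u = dirichlet P Q R u := by
    intro u
    unfold dirichlet
    rw [up_tri_rot]
  simp only [h1, up_bdInt_rot P Q R]

theorem area_rot (P Q R : ℂ) : area Q R P = area P Q R := by
  unfold area
  rw [up_tri_rot]

end Pool.Agent.Stk
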