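import Pool.Agent.Stk.Near
import Pool.Agent.Stk.Upper
import Pool.Agent.Stk.RegA
import Pool.Agent.Stk.RegL

/-!
# Assembly
-/

set_option autoImplicit false

noncomputable section

namespace Pool.Agent.Stk

open MeasureTheory

variable {k : WithTop ℕ∞}

/-- normalised side lengths and area -/
theorem fin_params {l0 l1 l2 D : ℝ} (hD : 0 < D)
    (heron : 4 * D ^ 2 = (l0 + l1 + l2) * (l1 + l2 - l0) * (l0 + l2 - l1) * (l0 + l1 - l2))
    (h0 : 0 ≤ l0) (h1 : 0 ≤ l1) (h2 : 0 ≤ l2)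
    (t0 : l0 ≤ l1 + l2) (t1 : l1 ≤ l0 + l2) (t2 : l2 ≤ l0 + l1)
    (m1 : l1 ≤ l0) (m2 : l2 ≤ l0) :
    ∃ c r z q : ℝ, 0 < c ∧ 0 ≤ r ∧ r < 1 / 2 ∧ z ^ 2 ≤ 9 / 4 * r ^ 2 ∧ 4 * z ^ 2 < (1 + r) ^ 2 ∧
      0 < q ∧ q ^ 2 = (1 - 2 * r) * ((1 + r) ^ 2 - 4 * z ^ 2) ∧
      l0 = c * (1 + r) ∧ l1 = c * (1 - r / 2 + z) ∧ l2 = c * (1 - r / 2 - z) ∧
      D = Real.sqrt 3 / 2 * c ^ 2 * q := by
  have hD2 : 0 < D ^ 2 := by positivity
  have hL : 0 < l0 + l1 + l2 := by
    rcases (by positivity : 0 ≤ l0 + l1 + l2).lt_or_eq with h | h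
    · exact h
    · rw [← h] at heron; nlinarith
  have a0 : 0 < l1 + l2 - l0 := by
    rcases (by linarith : 0 ≤ l1 + l2 - l0).lt_or_eq with h | h
    · exact h
    · rw [← h] at heron; nlinarith
  have a1 : 0 < l0 + l2 - l1 := by
    rcases (by linarith : 0 ≤ l0 + l2 - l1).lt_or_eq with h | h
    · exact h
    · rw [← h] at heron; nlinarith
  have a2 : 0 < l0 + l1 - l2 := by
    rcases (by linarith : 0 ≤ l0 + l1 - l2).lt_or_eq with h | h
    · exact h
    · rw [← h] at heron; nlinarith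
  have hs3 : (0 : ℝ) < Real.sqrt 3 := by positivity
  have hs3' : Real.sqrt 3 ^ 2 = 3 := Real.sq_sqrt (by norm_num)
  set c := (l0 + l1 + l2) / 3 with hc
  have hc0 : 0 < c := by positivity
  have e0 : l0 = c * (1 + (l0 / c - 1)) := by field_simp; ring
  have e1 : l1 = c * (1 - (l0 / c - 1) / 2 + (l1 - l2) / (2 * c)) := by
    field_simp; rw [hc]; ring
  have e2 : l2 = c * (1 - (l0 / c - 1) / 2 - (l1 - l2) / (2 * c)) := by
    field_simp; rw [hc]; ring
  generalize hr : l0 / c - 1 = r at e0 e1 e2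
  generalize hz : (l1 - l2) / (2 * c) = z at e1 e2
  have b0 : 0 < c * (1 - 2 * r) := by rw [e0, e1, e2] at a0; linarith
  have b1 : 0 < c * (1 + r - 2 * z) := by rw [e0, e1, e2] at a1; linarith
  have b2 : 0 < c * (1 + r + 2 * z) := by rw [e0, e1, e2] at a2; linarith
  have c0 : 0 < 1 - 2 * r := by
    by_contra hh; push Not at hh
    nlinarith
  have c1 : 0 < 1 + r - 2 * z := by
    by_contra hh; push Not at hh
    nlinarith
  have c2 : 0 < 1 + r + 2 * z := by
    by_contra hh; push Not at hh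
    nlinarith
  have d1 : z ≤ 3 / 2 * r := by
    have : c * (1 - r / 2 + z) ≤ c * (1 + r) := by rw [← e0, ← e1]; exact m1
    have := le_of_mul_le_mul_left this hc0
    linarith
  have d2 : - z ≤ 3 / 2 * r := by
    have : c * (1 - r / 2 - z) ≤ c * (1 + r) := by rw [← e0, ← e2]; exact m2
    have := le_of_mul_le_mul_left this hc0
    linarith
  have hr0 : 0 ≤ r := by linarith
  refine ⟨c, r, z, 2 * D / (Real.sqrt 3 * c ^ 2), hc0, hr0, by linarith, ?_, ?_, by positivity,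
    ?_, e0, e1, e2, ?_⟩
  · nlinarith
  · nlinarith
  · have h4 : 4 * D ^ 2 = 3 * c ^ 4 * ((1 - 2 * r) * ((1 + r) ^ 2 - 4 * z ^ 2)) := by
      rw [heron, e0, e1, e2]; ring
    rw [div_pow, mul_pow, mul_pow, hs3']
    rw [div_eq_iff (by positivity)]
    nlinarith
  · field_simp

theorem dist_tri (P Q R : ℂ) : dist P Q ≤ dist Q R + dist R P := by
  have := dist_triangle P R Q
  rw [dist_comm P R, dist_comm R Q] at this
  linarith

/-- the far case -/
theorem fin_far (hk : 1 ≤ k) {P Q R : ℂ} (h : det2 P Q R ≠ 0) {c r z q : ℝ} (hc : 0 < c)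
    (hr : 0 < r) (hr' : r < 1 / 2) (hz : z ^ 2 ≤ 9 / 4 * r ^ 2) (hz' : 4 * z ^ 2 < (1 + r) ^ 2)
    (hq : 0 < q) (hq2 : q ^ 2 = (1 - 2 * r) * ((1 + r) ^ 2 - 4 * z ^ 2))
    (e0 : dist P Q = c * (1 + r)) (e1 : dist Q R = c * (1 - r / 2 + z))
    (e2 : dist R P = c * (1 - r / 2 - z)) (hD : |det2 P Q R| = Real.sqrt 3 / 2 * c ^ 2 * q)
    (hd : 0.0441 ≤ r ^ 2 + 4 / 3 * z ^ 2) :
    sigma1 k P Q R * perim P Q R < 2 * Real.sqrt 3 * tau k := by
  have hs3 : (0 : ℝ) < Real.sqrt 3 := by positivity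
  have hs3' : Real.sqrt 3 ^ 2 = 3 := Real.sq_sqrt (by norm_num)
  have hr1 : 0 < 1 + r := by linarith
  have hL : perim P Q R = 3 * c := by unfold perim; rw [e0, e1, e2]; ring
  have hreg := regL hr hr' hz hd hz' hq hq2
  have htau := tau_ge (k := k) hk
  obtain ⟨β, hβ⟩ : ∃ β : ℝ, β = ((1 + r) ^ 2 - 2 * z * (2 - r)) / (2 * (1 + r)) := ⟨_, rfl⟩
  have hβ' : 2 * (1 + r) * β = (1 + r) ^ 2 - 2 * z * (2 - r) := by
    rw [hβ]; field_simp
  have hw : ContDiff ℝ k (fun p : ℝ × ℝ => (c * (1 + r)) * p.1 + (c * β) * p.2) := by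
    fun_prop
  have hup := sigma1_le hk h hw
  rw [X0_lin, X1_lin, X2_lin, Y0_lin, Y1_lin, Y2_lin, Z0_lin, Z1_lin, Z2_lin, hL, e0, e1, e2, hD]
    at hup
  set s := sigma1 k P Q R
  have hE : (c * (1 + r)) ^ 2 * (c * β * (c * β - c * (1 + r)) / 2) +
      (c * (1 - r / 2 + z)) ^ 2 * (c * (1 + r) * (c * β) / 2) +
      (c * (1 - r / 2 - z)) ^ 2 * (c * (1 + r) * (c * (1 + r) - c * β) / 2) =
      c ^ 4 * (3 / 8 * q ^ 2) := by
    rw [hq2, hβ]; field_simp; ring
  have hN : c * (1 + r) * ((c * (1 + r)) ^ 2 / 3) +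
      c * (1 - r / 2 + z) * (((c * (1 + r)) ^ 2 + c * (1 + r) * (c * β) + (c * β) ^ 2) / 3) +
      c * (1 - r / 2 - z) * ((c * β) ^ 2 / 3) -
      (c * (1 + r) * (c * (1 + r) / 2) + c * (1 - r / 2 + z) * ((c * (1 + r) + c * β) / 2) +
        c * (1 - r / 2 - z) * (c * β / 2)) ^ 2 / (3 * c) =
      c ^ 3 * ((1 + r) ^ 2 / 4 + z ^ 2 * (1 - 2 * r) * (5 + 2 * r) / (4 * (1 + r) ^ 2)) := by
    rw [hβ]; field_simp; ring
  rw [hE, hN] at hup
  set N := (1 + r) ^ 2 / 4 + z ^ 2 * (1 - 2 * r) * (5 + 2 * r) / (4 * (1 + r) ^ 2)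
  have hNpos : 0 < N := by nlinarith
  -- s * (√3/2 c² q) * (c³ N) ≤ 3/8 c⁴ q²
  have h1 : s * c * (Real.sqrt 3 * N) ≤ 3 / 4 * q := by
    have h2 : c ^ 4 * q * (s * c * (Real.sqrt 3 * N)) ≤ c ^ 4 * q * (3 / 4 * q) := by
      nlinarith
    exact le_of_mul_le_mul_left h2 (by positivity)
  have h3 : s * c * (Real.sqrt 3 * N) < 2.2 * N := by
    nlinarith
  have h4 : s * c * Real.sqrt 3 < 2.2 := by
    have : s * c * (Real.sqrt 3 * N) = (s * c * Real.sqrt 3) * N := by ring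
    rw [this] at h3
    exact lt_of_mul_lt_mul_right h3 hNpos.le
  have h5 : s * (3 * c) < 2.2 * Real.sqrt 3 := by
    have : s * (3 * c) = (s * c * Real.sqrt 3) * Real.sqrt 3 := by
      rw [mul_assoc, ← sq, hs3']; ring
    rw [this]
    exact mul_lt_mul_of_pos_right h4 hs3
  rw [hL]
  nlinarith

/-- the near case -/
theorem fin_near (hk : 1 ≤ k) {P Q R : ℂ} (h : det2 P Q R ≠ 0) {c r z q : ℝ} (hc : 0 < c)
    (hr : 0 < r) (hr' : r < 1 / 2) (hz : z ^ 2 ≤ 9 / 4 * r ^ 2)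
    (hq : 0 < q) (hq2 : q ^ 2 = (1 - 2 * r) * ((1 + r) ^ 2 - 4 * z ^ 2))
    (e0 : dist P Q = c * (1 + r)) (e1 : dist Q R = c * (1 - r / 2 + z))
    (e2 : dist R P = c * (1 - r / 2 - z)) (hD : |det2 P Q R| = Real.sqrt 3 / 2 * c ^ 2 * q)
    (hd : r ^ 2 + 4 / 3 * z ^ 2 ≤ 0.0441) :
    sigma1 k P Q R * perim P Q R < 2 * Real.sqrt 3 * tau k := by
  have hs3 : (0 : ℝ) < Real.sqrt 3 := by positivity
  have hs3' : Real.sqrt 3 ^ 2 = 3 := Real.sq_sqrt (by norm_num)
  have hL : perim P Q R = 3 * c := by unfold perim; rw [e0, e1, e2]; ring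
  have htau := tau_ge (k := k) hk
  have htau' := tau_le (k := k) hk
  obtain ⟨g, hg, ho, hN, hQ⟩ := exists_odd_near (k := k) hk (δ := min (r / 10) (1 / 10000))
    (by positivity)
  have hg1 : ContDiff ℝ 1 g := hg.of_le hk
  have hQ1 : QQ g ≤ tau k + r / 10 := hQ.trans (by gcongr; exact min_le_left _ _)
  have hQ2 : QQ g ≤ tau k + 1 / 10000 := hQ.trans (by gcongr; exact min_le_right _ _)
  have hQ3 := tau_le_of_odd hk hg ho
  have hS := odd_S ho hg1
  have hX2 := odd_X2 ho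
  have hY0 := odd_Y0 ho
  have hY2 := odd_Y2 ho
  have hZ2 := odd_Z2 ho hg1
  have hup := sigma1_le hk h hg
  have hX0 := X0_nonneg g
  have hX1 := X1_nonneg g
  have hY1 := Y1_sq_le hg1.continuous
  unfold NN at hN hQ3
  unfold QQ at hQ1 hQ2 hQ3 hS
  rw [hX2] at hN hQ3 hup
  rw [hZ2] at hQ1 hQ2 hQ3 hS hup
  rw [hY0, hY2, hL, e0, e1, e2, hD] at hup
  set s := sigma1 k P Q R
  generalize X0 g = x0 at *
  generalize X1 g = x1 at *
  generalize Y1 g = y at *
  generalize Z0 g = z0 at *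
  generalize Z1 g = z1 at *
  have hreg := regA (r := r) (z := z) (τ := tau k) (x0 := x0) (x1 := x1) (z0 := z0) (z1 := z1)
    (y := y) (q := q) hr hz hd (by linarith) hX0 hX1 hY1 (by linarith) htau
    (by rw [show x0 + x1 + x1 = 1 by linarith, mul_one] at hQ3; linarith)
    (by linarith [show (65 / 58 : ℝ) + 1 / 10000 ≤ 1.121 by norm_num]) (by linarith) hq hq2
  set B := (1 + r) * x0 + (2 - r) * x1 - 4 / 3 * z ^ 2 * y ^ 2
  have hBpos : 0 < B := by
    have h1 : 4 / 3 * z ^ 2 * y ^ 2 ≤ 4 / 3 * z ^ 2 * x1 := by gcongr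
    have h2 : 4 / 3 * z ^ 2 * x1 ≤ 0.0441 * x1 := by
      apply mul_le_mul_of_nonneg_right _ hX1
      nlinarith
    have h3 : 0 ≤ r * x0 := by positivity
    show 0 < (1 + r) * x0 + (2 - r) * x1 - 4 / 3 * z ^ 2 * y ^ 2
    nlinarith
  have hNN : c * (1 + r) * x0 + c * (1 - r / 2 + z) * x1 + c * (1 - r / 2 - z) * x1 -
      (c * (1 + r) * 0 + c * (1 - r / 2 + z) * y + c * (1 - r / 2 - z) * (-y)) ^ 2 / (3 * c) =
      c * B := by
    show _ = c * ((1 + r) * x0 + (2 - r) * x1 - 4 / 3 * z ^ 2 * y ^ 2)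
    field_simp; ring
  have hEE : (c * (1 + r)) ^ 2 * z0 + (c * (1 - r / 2 + z)) ^ 2 * z1 +
      (c * (1 - r / 2 - z)) ^ 2 * z1 =
      c ^ 2 * ((1 + r) ^ 2 * z0 + (2 * (1 - r / 2) ^ 2 + 2 * z ^ 2) * z1) := by ring
  rw [hNN, hEE] at hup
  have h1 : s * c * Real.sqrt 3 / 2 < tau k := by
    have h2 : (c ^ 2 * q * B) * (s * c * Real.sqrt 3 / 2) < (c ^ 2 * q * B) * tau k := by
      have h3 : c ^ 2 * ((1 + r) ^ 2 * z0 + (2 * (1 - r / 2) ^ 2 + 2 * z ^ 2) * z1) <
          c ^ 2 * (tau k * q * B) := by gcongr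
      nlinarith
    exact lt_of_mul_lt_mul_left h2 (by positivity)
  rw [hL]
  have h5 : s * (3 * c) = 2 * Real.sqrt 3 * (s * c * Real.sqrt 3 / 2) := by
    have : 2 * Real.sqrt 3 * (s * c * Real.sqrt 3 / 2) = s * c * Real.sqrt 3 ^ 2 := by ring
    rw [this, hs3']; ring
  rw [h5]
  gcongr

theorem fin_aux (hk : 1 ≤ k) {P Q R : ℂ} (h : det2 P Q R ≠ 0)
    (m1 : dist Q R ≤ dist P Q) (m2 : dist R P ≤ dist P Q)
    (hne : ¬ (dist P Q = dist Q R ∧ dist Q R = dist R P)) :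
    sigma1 k P Q R * perim P Q R < 2 * Real.sqrt 3 * tau k := by
  obtain ⟨c, r, z, q, hc, hr, hr', hz, hz', hq, hq2, e0, e1, e2, hD⟩ :=
    fin_params (l0 := dist P Q) (l1 := dist Q R) (l2 := dist R P) (D := |det2 P Q R|)
      (abs_pos.2 h) (by rw [sq_abs]; exact heron P Q R) dist_nonneg dist_nonneg dist_nonneg
      (dist_tri P Q R) (by have := dist_tri Q R P; linarith) (by have := dist_tri R P Q; linarith)
      m1 m2
  have hr0 : 0 < r := by
    rcases hr.lt_or_eq with h1 | h1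
    · exact h1
    · exfalso; apply hne
      rw [← h1] at hz
      have hz0 : z = 0 := by nlinarith
      rw [e0, e1, e2, ← h1, hz0]
      constructor <;> ring
  rcases le_total (r ^ 2 + 4 / 3 * z ^ 2) 0.0441 with hd | hd
  · exact fin_near hk h hc hr0 hr' hz hq hq2 e0 e1 e2 hD hd
  · exact fin_far hk h hc hr0 hr' hz hz' hq hq2 e0 e1 e2 hD hd

theorem det2_rot (P Q R : ℂ) : det2 Q R P = det2 P Q R := by
  unfold det2; simp only [Complex.sub_re, Complex.sub_im]; ring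

theorem perim_rot (P Q R : ℂ) : perim Q R P = perim P Q R := by
  unfold perim; ring

/-- only the equilateral triangles are maximal -/
theorem sigma1_lt (hk : 1 ≤ k) {P Q R : ℂ} (h : det2 P Q R ≠ 0)
    (hne : ¬ (dist P Q = dist Q R ∧ dist Q R = dist R P)) :
    sigma1 k P Q R * perim P Q R < 2 * Real.sqrt 3 * tau k := by
  rcases le_total (dist Q R) (dist P Q) with a | a
  · rcases le_total (dist R P) (dist P Q) with b | b
    · exact fin_aux hk h a b hne
    · -- `R P` is the longest side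
      have := fin_aux (k := k) hk (P := R) (Q := P) (R := Q) (by rw [det2_rot, det2_rot]; exact h)
        b (a.trans b) (by rintro ⟨h1, h2⟩; exact hne ⟨h2, by rw [← h2, h1]⟩)
      rw [sigma1_rot, sigma1_rot, perim_rot, perim_rot] at this
      exact this
  · rcases le_total (dist R P) (dist Q R) with b | b
    · -- `Q R` is the longest side
      have := fin_aux (k := k) hk (P := Q) (Q := R) (R := P) (by rw [det2_rot]; exact h)
        b a (by rintro ⟨h1, h2⟩; exact hne ⟨by rw [h1, h2], h1⟩)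
      rw [sigma1_rot, perim_rot] at this
      exact this
    · have := fin_aux (k := k) hk (P := R) (Q := P) (R := Q) (by rw [det2_rot, det2_rot]; exact h)
        (a.trans b) b (by rintro ⟨h1, h2⟩; exact hne ⟨h2, by rw [← h2, h1]⟩)
      rw [sigma1_rot, sigma1_rot, perim_rot, perim_rot] at this
      exact this

theorem det2_equilateral {P Q R : ℂ} (hne : P ≠ Q) (h1 : dist P Q = dist Q R)
    (h2 : dist Q R = dist R P) : |det2 P Q R| = Real.sqrt 3 / 2 * dist P Q ^ 2 := by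
  have h := heron P Q R
  rw [← h2, ← h1] at h
  have h3 : |det2 P Q R| ^ 2 = (Real.sqrt 3 / 2 * dist P Q ^ 2) ^ 2 := by
    rw [sq_abs, mul_pow, div_pow, Real.sq_sqrt (by norm_num)]
    linarith
  exact (sq_eq_sq₀ (abs_nonneg _) (by positivity)).1 h3

theorem det2_ne_of_equilateral {P Q R : ℂ} (hne : P ≠ Q) (h1 : dist P Q = dist Q R)
    (h2 : dist Q R = dist R P) : det2 P Q R ≠ 0 := by
  have h := det2_equilateral hne h1 h2
  have h3 : 0 < dist P Q := dist_pos.2 hne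
  have h4 : 0 < |det2 P Q R| := by rw [h]; positivity
  exact abs_pos.1 h4

/-- `√|T| = 3^{1/4} / 6 · L √q` -/
theorem sqrt_area_le {P Q R : ℂ} (h : det2 P Q R ≠ 0) :
    Real.sqrt (area P Q R) ≤ Real.sqrt (Real.sqrt 3) / 6 * perim P Q R := by
  have hs3 : (0 : ℝ) < Real.sqrt 3 := by positivity
  have hs3' : Real.sqrt 3 ^ 2 = 3 := Real.sq_sqrt (by norm_num)
  have hL : 0 ≤ perim P Q R := by unfold perim; positivity
  rw [area_eq h]
  have key : |det2 P Q R| / 2 ≤ Real.sqrt 3 / 36 * perim P Q R ^ 2 := by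
    have hh := heron P Q R
    have a0 : 0 ≤ dist Q R + dist R P - dist P Q := by have := dist_tri P Q R; linarith
    have a1 : 0 ≤ dist P Q + dist R P - dist Q R := by have := dist_tri Q R P; linarith
    have a2 : 0 ≤ dist P Q + dist Q R - dist R P := by have := dist_tri R P Q; linarith
    generalize hx : dist Q R + dist R P - dist P Q = x at *
    generalize hy : dist P Q + dist R P - dist Q R = y at *
    generalize hz : dist P Q + dist Q R - dist R P = z at *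
    have hS : perim P Q R = x + y + z := by unfold perim; rw [← hx, ← hy, ← hz]; ring
    have hS' : dist P Q + dist Q R + dist R P = x + y + z := hS
    rw [hS'] at hh
    rw [hS]
    have amgm : x * y * z ≤ (x + y + z) ^ 3 / 27 := by
      have h1 : 0 ≤ x + y + z := by positivity
      nlinarith [mul_nonneg a0 (sq_nonneg (y - z)), mul_nonneg a1 (sq_nonneg (x - z)),
        mul_nonneg a2 (sq_nonneg (x - y)), mul_nonneg a0 (sq_nonneg (x - y)),
        mul_nonneg a0 (sq_nonneg (x - z)), mul_nonneg a1 (sq_nonneg (x - y)),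
        mul_nonneg a1 (sq_nonneg (y - z)), mul_nonneg a2 (sq_nonneg (x - z)),
        mul_nonneg a2 (sq_nonneg (y - z))]
    have hsq : |det2 P Q R| ^ 2 ≤ (Real.sqrt 3 / 18 * (x + y + z) ^ 2) ^ 2 := by
      rw [sq_abs, mul_pow, div_pow, hs3']
      have h1 : 0 ≤ x + y + z := by positivity
      have h2 := mul_le_mul_of_nonneg_left amgm h1
      nlinarith
    have h3 := (sq_le_sq₀ (abs_nonneg _) (by positivity)).1 hsq
    linarith
  rw [show Real.sqrt (Real.sqrt 3) / 6 * perim P Q R =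
    Real.sqrt (Real.sqrt 3 / 36 * perim P Q R ^ 2) from ?_]
  · exact Real.sqrt_le_sqrt key
  · rw [Real.sqrt_mul (by positivity), Real.sqrt_sq hL, Real.sqrt_div (by positivity),
      show (36 : ℝ) = 6 ^ 2 by norm_num, Real.sqrt_sq (by norm_num)]

theorem sqrt_area_equilateral {P Q R : ℂ} (hne : P ≠ Q) (h1 : dist P Q = dist Q R)
    (h2 : dist Q R = dist R P) :
    Real.sqrt (area P Q R) = Real.sqrt (Real.sqrt 3) / 6 * perim P Q R := by
  have hL : perim P Q R = 3 * dist P Q := by unfold perim; rw [← h2, ← h1]; ring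
  rw [area_eq (det2_ne_of_equilateral hne h1 h2), det2_equilateral hne h1 h2, hL,
    show Real.sqrt 3 / 2 * dist P Q ^ 2 / 2 = Real.sqrt 3 * (dist P Q / 2) ^ 2 by ring,
    Real.sqrt_mul (by positivity), Real.sqrt_sq (by positivity)]
  ring

theorem tau_pos (hk : 1 ≤ k) : 0 < tau k := by
  have := tau_ge (k := k) hk
  linarith

theorem sigma1_le_max (hk : 1 ≤ k) {P Q R : ℂ} (h : det2 P Q R ≠ 0) :
    sigma1 k P Q R * perim P Q R ≤ 2 * Real.sqrt 3 * tau k := by
  by_cases he : dist P Q = dist Q R ∧ dist Q R = dist R P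
  · have hne : P ≠ Q := by
      rintro rfl
      apply h
      unfold det2
      simp
    rw [sigma1_equilateral hk hne he.1 he.2]
  · exact (sigma1_lt hk h he).le

theorem triangles_main (k : WithTop ℕ∞) (hk : 1 ≤ k) (A B C : ℂ) (hne : A ≠ B)
    (h1 : dist A B = dist B C) (h2 : dist B C = dist C A) :
    IsGreatest {x : ℝ | ∃ P Q R : ℂ, AffineIndependent ℝ ![P, Q, R] ∧
        x = sigma1 k P Q R * perim P Q R} (sigma1 k A B C * perim A B C) ∧
    IsGreatest {x : ℝ | ∃ P Q R : ℂ, AffineIndependent ℝ ![P, Q, R] ∧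
        x = sigma1 k P Q R * Real.sqrt (area P Q R)}
      (sigma1 k A B C * Real.sqrt (area A B C)) ∧
    (∀ P Q R : ℂ, AffineIndependent ℝ ![P, Q, R] →
      (sigma1 k P Q R * perim P Q R = sigma1 k A B C * perim A B C ↔
        dist P Q = dist Q R ∧ dist Q R = dist R P)) ∧
    (∀ P Q R : ℂ, AffineIndependent ℝ ![P, Q, R] →
      (sigma1 k P Q R * Real.sqrt (area P Q R) = sigma1 k A B C * Real.sqrt (area A B C) ↔
        dist P Q = dist Q R ∧ dist Q R = dist R P)) ∧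
    3.81 < sigma1 k A B C * perim A B C ∧ sigma1 k A B C * perim A B C < 3.883 ∧
    0.835 < sigma1 k A B C * Real.sqrt (area A B C) ∧
    sigma1 k A B C * Real.sqrt (area A B C) < 0.852 := by
  have hs3 : (0 : ℝ) < Real.sqrt 3 := by positivity
  have hs3' : Real.sqrt 3 ^ 2 = 3 := Real.sq_sqrt (by norm_num)
  have hD := det2_ne_of_equilateral hne h1 h2
  have hmax := sigma1_equilateral (k := k) hk hne h1 h2
  have hA := sqrt_area_equilateral hne h1 h2
  set κ := Real.sqrt (Real.sqrt 3) / 6 with hκ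
  have hκ0 : 0 < κ := by positivity
  have hAval : sigma1 k A B C * Real.sqrt (area A B C) = κ * (2 * Real.sqrt 3 * tau k) := by
    rw [hA, ← hmax]; ring
  have htau := tau_ge (k := k) hk
  have htau' := tau_le (k := k) hk
  -- strict inequality for the area functional
  have hlt : ∀ P Q R : ℂ, det2 P Q R ≠ 0 → ¬ (dist P Q = dist Q R ∧ dist Q R = dist R P) →
      sigma1 k P Q R * Real.sqrt (area P Q R) < κ * (2 * Real.sqrt 3 * tau k) := by
    intro P Q R h hn
    have h3 := sigma1_lt hk h hn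
    have h4 := sqrt_area_le h
    rcases le_total (sigma1 k P Q R) 0 with h5 | h5
    · have h6 : sigma1 k P Q R * Real.sqrt (area P Q R) ≤ 0 :=
        mul_nonpos_of_nonpos_of_nonneg h5 (Real.sqrt_nonneg _)
      have h7 : 0 < κ * (2 * Real.sqrt 3 * tau k) := by
        have := tau_pos (k := k) hk
        positivity
      linarith
    · calc sigma1 k P Q R * Real.sqrt (area P Q R)
          ≤ sigma1 k P Q R * (κ * perim P Q R) := mul_le_mul_of_nonneg_left h4 h5
        _ = κ * (sigma1 k P Q R * perim P Q R) := by ring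
        _ < κ * (2 * Real.sqrt 3 * tau k) := mul_lt_mul_of_pos_left h3 hκ0
  have hPne : ∀ P Q R : ℂ, det2 P Q R ≠ 0 → P ≠ Q := by
    rintro P Q R h rfl
    apply h
    unfold det2
    simp
  have b1 : (1.7320 : ℝ) < Real.sqrt 3 := by
    rw [Real.lt_sqrt (by norm_num)]; norm_num
  have b2 : Real.sqrt 3 < (1.73206 : ℝ) := by
    rw [Real.sqrt_lt' (by norm_num)]; norm_num
  have b3 : (1.316 : ℝ) < Real.sqrt (Real.sqrt 3) := by
    rw [Real.lt_sqrt (by norm_num)]; linarith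
  have b4 : Real.sqrt (Real.sqrt 3) < (1.3161 : ℝ) := by
    rw [Real.sqrt_lt' (by norm_num)]; linarith
  have v1 : 3.81 < 2 * Real.sqrt 3 * tau k := by nlinarith
  have v2 : 2 * Real.sqrt 3 * tau k < 3.883 := by
    have h0 := tau_pos (k := k) hk
    nlinarith
  refine ⟨⟨⟨A, B, C, det2_ne_iff.2 hD, rfl⟩, ?_⟩, ⟨⟨A, B, C, det2_ne_iff.2 hD, rfl⟩, ?_⟩,
    ?_, ?_, by rw [hmax]; exact v1, by rw [hmax]; exact v2, ?_, ?_⟩
  · rintro x ⟨P, Q, R, hP, rfl⟩
    rw [hmax]
    exact sigma1_le_max hk (det2_ne_iff.1 hP)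
  · rintro x ⟨P, Q, R, hP, rfl⟩
    rw [hAval]
    by_cases he : dist P Q = dist Q R ∧ dist Q R = dist R P
    · have hne' := hPne P Q R (det2_ne_iff.1 hP)
      rw [sqrt_area_equilateral hne' he.1 he.2, ← sigma1_equilateral (k := k) hk hne' he.1 he.2]
      exact le_of_eq (by ring)
    · exact (hlt P Q R (det2_ne_iff.1 hP) he).le
  · intro P Q R hP
    rw [hmax]
    constructor
    · intro h
      by_contra he
      exact absurd h (sigma1_lt hk (det2_ne_iff.1 hP) he).ne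
    · intro he
      exact sigma1_equilateral hk (hPne P Q R (det2_ne_iff.1 hP)) he.1 he.2
  · intro P Q R hP
    rw [hAval]
    constructor
    · intro h
      by_contra he
      exact absurd h (hlt P Q R (det2_ne_iff.1 hP) he).ne
    · intro he
      have hne' := hPne P Q R (det2_ne_iff.1 hP)
      rw [sqrt_area_equilateral hne' he.1 he.2, ← sigma1_equilateral (k := k) hk hne' he.1 he.2]
      ring
  · rw [hAval, hκ]
    nlinarith
  · rw [hAval, hκ]
    nlinarith

end Pool.Agent.Stk
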