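import Pool.Agent.Stk.Simp

/-!
# Half triangle and sector
-/

set_option autoImplicit false

noncomputable section

namespace Pool.Agent.Stk

open MeasureTheory

/-- an invariant function is integrated over the half triangle `s ≥ (1 - t) / 2`;
`(s, t) = ((1 + p - q) / 2, q)`, Jacobian `1 / 2`, `(p, q) ∈ Dl` -/
theorem int_half {F : ℝ × ℝ → ℝ} (hF : Continuous F) (h : ∀ p, F (ph0 p) = F p) :
    ∫ p in Dl, F p = ∫ p in Dl, F ((1 + p.1 - p.2) / 2, p.2) := by
  have hF2 : Continuous (fun p : ℝ × ℝ => F ((1 + p.1 - p.2) / 2, p.2)) := by fun_prop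
  rw [int_Dl_fst hF, int_Dl_fst hF2]
  refine intervalIntegral.integral_congr (fun t _ => ?_)
  simp only
  have hg : Continuous (fun s : ℝ => F (s, t)) := by fun_prop
  have hsym : ∀ s : ℝ, F ((1 - t) - s, t) = F (s, t) := by
    intro s
    have := h (s, t)
    simp only [ph0] at this
    rw [← this]
    congr 2
    ring
  have h1 : (∫ s in (0 : ℝ)..(1 - t) / 2, F (s, t))
      = ∫ s in (1 - t) / 2..(1 - t), F (s, t) := by
    have e := intervalIntegral.integral_comp_sub_left (a := 0) (b := (1 - t) / 2)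
      (fun s : ℝ => F (s, t)) (1 - t)
    simp only [hsym] at e
    rw [e]
    congr 1 <;> ring
  have h2 : (∫ p in (0 : ℝ)..(1 - t), F ((1 + p - t) / 2, t))
      = 2 * ∫ s in (1 - t) / 2..(1 - t), F (s, t) := by
    have e := intervalIntegral.integral_comp_div_add (a := 0) (b := 1 - t)
      (fun s : ℝ => F (s, t)) (c := 2) (by norm_num) ((1 - t) / 2)
    have e0 : (0 : ℝ) / 2 + (1 - t) / 2 = (1 - t) / 2 := by ring
    have e1 : (1 - t) / 2 + (1 - t) / 2 = 1 - t := by ring
    rw [e0, e1, smul_eq_mul] at e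
    rw [← e]
    refine intervalIntegral.integral_congr (fun p _ => ?_)
    have e2 : (1 + p - t) / 2 = p / 2 + (1 - t) / 2 := by ring
    rw [e2]
  rw [h2, ← intervalIntegral.integral_add_adjacent_intervals
    (hg.intervalIntegrable 0 ((1 - t) / 2)) (hg.intervalIntegrable ((1 - t) / 2) (1 - t)), h1]
  ring

end Pool.Agent.Stk
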