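import Pool.Agent.Stk.Bar
import Pool.Agent.Stk.Half

/-!
# Odd functions
-/

set_option autoImplicit false

noncomputable section

namespace Pool.Agent.Stk

open MeasureTheory

/-- the affine map of the half triangle -/
def oddh_phi (p : ℝ × ℝ) : ℝ × ℝ := ((1 + p.1 - p.2) / 2, p.2)

theorem oddh_contDiff_phi {k : WithTop ℕ∞} : ContDiff ℝ k oddh_phi := by
  unfold oddh_phi
  fun_prop

theorem oddh_half_eq (w : ℝ × ℝ → ℝ) : half w = w ∘ oddh_phi := rfl

theorem oddh_hasFDerivAt_phi (p : ℝ × ℝ) :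
    HasFDerivAt oddh_phi
      (((1 / 2 : ℝ) • (ContinuousLinearMap.fst ℝ ℝ ℝ - ContinuousLinearMap.snd ℝ ℝ ℝ)).prod
        (ContinuousLinearMap.snd ℝ ℝ ℝ)) p := by
  have h1 : HasFDerivAt (fun p : ℝ × ℝ => (1 / 2 : ℝ) * (p.1 - p.2) + 1 / 2)
      ((1 / 2 : ℝ) • (ContinuousLinearMap.fst ℝ ℝ ℝ - ContinuousLinearMap.snd ℝ ℝ ℝ)) p :=
    ((hasFDerivAt_fst.sub hasFDerivAt_snd).const_mul (1 / 2 : ℝ)).add_const (1 / 2 : ℝ)
  have h2 : oddh_phi = fun p : ℝ × ℝ => ((1 / 2 : ℝ) * (p.1 - p.2) + 1 / 2, p.2) := by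
    funext p
    unfold oddh_phi
    ext
    · simp only
      ring
    · rfl
  rw [h2]
  exact h1.prodMk hasFDerivAt_snd

theorem contDiff_half {k : WithTop ℕ∞} {w : ℝ × ℝ → ℝ} (hw : ContDiff ℝ k w) :
    ContDiff ℝ k (half w) := by
  rw [oddh_half_eq]
  exact hw.comp oddh_contDiff_phi

theorem oddh_fderiv_half {w : ℝ × ℝ → ℝ} (hw : ContDiff ℝ 1 w) (p v : ℝ × ℝ) :
    fderiv ℝ (half w) p v =
      (v.1 - v.2) / 2 * dS w (oddh_phi p) + v.2 * dT w (oddh_phi p) := by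
  have hd : HasFDerivAt w (fderiv ℝ w (oddh_phi p)) (oddh_phi p) :=
    (hw.differentiable (by simp)).differentiableAt.hasFDerivAt
  have h := hd.comp p (oddh_hasFDerivAt_phi p)
  rw [oddh_half_eq, h.fderiv]
  have hv : (((1 / 2 : ℝ) • (ContinuousLinearMap.fst ℝ ℝ ℝ -
      ContinuousLinearMap.snd ℝ ℝ ℝ)).prod (ContinuousLinearMap.snd ℝ ℝ ℝ)) v =
      ((v.1 - v.2) / 2) • ((1 : ℝ), (0 : ℝ)) + v.2 • ((0 : ℝ), (1 : ℝ)) := by
    ext
    · simp
      ring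
    · simp
  rw [ContinuousLinearMap.comp_apply, hv, map_add, map_smul, map_smul]
  rfl

theorem dS_half {w : ℝ × ℝ → ℝ} (hw : ContDiff ℝ 1 w) (p : ℝ × ℝ) :
    dS (half w) p = dS w ((1 + p.1 - p.2) / 2, p.2) / 2 := by
  have h := oddh_fderiv_half hw p (1, 0)
  show fderiv ℝ (half w) p (1, 0) = _
  rw [h]
  show ((1 : ℝ) - 0) / 2 * dS w ((1 + p.1 - p.2) / 2, p.2) +
    0 * dT w ((1 + p.1 - p.2) / 2, p.2) = _
  ring

theorem dT_half {w : ℝ × ℝ → ℝ} (hw : ContDiff ℝ 1 w) (p : ℝ × ℝ) :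
    dT (half w) p = dT w ((1 + p.1 - p.2) / 2, p.2) - dS w ((1 + p.1 - p.2) / 2, p.2) / 2 := by
  have h := oddh_fderiv_half hw p (0, 1)
  show fderiv ℝ (half w) p (0, 1) = _
  rw [h]
  show ((0 : ℝ) - 1) / 2 * dS w ((1 + p.1 - p.2) / 2, p.2) +
    1 * dT w ((1 + p.1 - p.2) / 2, p.2) = _
  ring

theorem odd_X2 {w : ℝ × ℝ → ℝ} (h : Odd0 w) : X2 w = X1 w := by
  unfold X2 X1
  congr 1
  funext t
  have h1 := h (1 - t, t)
  have h2 : ph0 (1 - t, t) = (0, t) := by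
    unfold ph0
    ext
    · simp
    · rfl
  rw [h2] at h1
  rw [h1]
  ring

theorem odd_Y0 {w : ℝ × ℝ → ℝ} (h : Odd0 w) : Y0 w = 0 := by
  have h1 : (∫ t in (0 : ℝ)..1, w (1 - t, 0)) = Y0 w := by
    have := intervalIntegral.integral_comp_sub_left (a := (0 : ℝ)) (b := 1)
      (fun t => w (t, 0)) 1
    rw [this]
    unfold Y0
    norm_num
  have h2 : (∫ t in (0 : ℝ)..1, w (1 - t, 0)) = - Y0 w := by
    unfold Y0
    rw [← intervalIntegral.integral_neg]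
    congr 1
    funext t
    have h3 := h (t, 0)
    have h4 : ph0 (t, 0) = (1 - t, 0) := by
      unfold ph0
      ext
      · simp
      · rfl
    rw [h4] at h3
    exact h3
  linarith

theorem odd_Y2 {w : ℝ × ℝ → ℝ} (h : Odd0 w) : Y2 w = - Y1 w := by
  unfold Y2 Y1
  rw [← intervalIntegral.integral_neg]
  congr 1
  funext t
  have h1 := h (1 - t, t)
  have h2 : ph0 (1 - t, t) = (0, t) := by
    unfold ph0
    ext
    · simp
    · rfl
  rw [h2] at h1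
  exact h1

theorem oddh_dS_neg (w : ℝ × ℝ → ℝ) (p : ℝ × ℝ) : dS (fun q => - w q) p = - dS w p := by
  unfold dS
  rw [fderiv_fun_neg]
  rfl

theorem oddh_dT_neg (w : ℝ × ℝ → ℝ) (p : ℝ × ℝ) : dT (fun q => - w q) p = - dT w p := by
  unfold dT
  rw [fderiv_fun_neg]
  rfl

theorem oddh_comp {w : ℝ × ℝ → ℝ} (h : Odd0 w) : (fun p => w (ph0 p)) = fun p => - w p :=
  funext h

theorem oddh_dS_inv {w : ℝ × ℝ → ℝ} (h : Odd0 w) (hw : ContDiff ℝ 1 w) (p : ℝ × ℝ) :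
    dS w (ph0 p) = dS w p := by
  have h1 := dS_ph0 hw p
  rw [oddh_comp h, oddh_dS_neg] at h1
  linarith

theorem oddh_dT_inv {w : ℝ × ℝ → ℝ} (h : Odd0 w) (hw : ContDiff ℝ 1 w) (p : ℝ × ℝ) :
    dT w (ph0 p) = dS w p - dT w p := by
  have h1 := dT_ph0 hw p
  rw [oddh_comp h, oddh_dT_neg, oddh_dS_inv h hw] at h1
  linarith

theorem odd_Z2 {w : ℝ × ℝ → ℝ} (h : Odd0 w) (hw : ContDiff ℝ 1 w) : Z2 w = Z1 w := by
  rw [← Z1_ph0 hw, oddh_comp h]
  unfold Z1
  congr 1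
  funext p
  rw [oddh_dS_neg, oddh_dT_neg]
  ring

theorem odd_half_zero {w : ℝ × ℝ → ℝ} (h : Odd0 w) (q : ℝ) : half w (0, q) = 0 := by
  have h1 := h ((1 - q) / 2, q)
  have h2 : ph0 ((1 - q) / 2, q) = ((1 - q) / 2, q) := by
    unfold ph0
    ext
    · simp only
      ring
    · rfl
  rw [h2] at h1
  have h3 : half w (0, q) = w ((1 - q) / 2, q) := by
    unfold half
    simp only
    rw [add_zero]
  rw [h3]
  linarith

theorem oddh_int_sq {w : ℝ × ℝ → ℝ} (h : Odd0 w) (hw : ContDiff ℝ 1 w) :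
    ∫ p in Dl, dS w p ^ 2 = 4 * ∫ p in Dl, dS (half w) p ^ 2 := by
  have hc : Continuous fun p => dS w p ^ 2 := (continuous_dS hw).pow 2
  have h1 := int_half hc (fun p => by
    show dS w (ph0 p) ^ 2 = dS w p ^ 2
    rw [oddh_dS_inv h hw])
  rw [h1, ← integral_const_mul]
  congr 1
  funext p
  rw [dS_half hw]
  ring

theorem odd_Z1_half {w : ℝ × ℝ → ℝ} (h : Odd0 w) (hw : ContDiff ℝ 1 w) :
    Z1 w = 2 * ∫ p in Dl, dS (half w) p ^ 2 := by
  have cS := continuous_dS hw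
  have cT := continuous_dT hw
  have h1 : Z1 w + Z2 w = ∫ p in Dl, dS w p ^ 2 := by
    have c1 : Continuous fun p => dS w p * dT w p := by fun_prop
    have c2 : Continuous fun p => dS w p * (dS w p - dT w p) := by fun_prop
    unfold Z1 Z2
    rw [← integral_add (integrableOn_Dl c1) (integrableOn_Dl c2)]
    congr 1
    funext p
    ring
  rw [odd_Z2 h hw, oddh_int_sq h hw] at h1
  linarith

theorem odd_Z0_half {w : ℝ × ℝ → ℝ} (h : Odd0 w) (hw : ContDiff ℝ 1 w) :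
    Z0 w = (∫ p in Dl, dT (half w) p ^ 2) - ∫ p in Dl, dS (half w) p ^ 2 := by
  have cS := continuous_dS hw
  have cT := continuous_dT hw
  have hc : Continuous fun p => (dT w p - dS w p / 2) ^ 2 := by fun_prop
  have h1 := int_half hc (fun p => by
    show (dT w (ph0 p) - dS w (ph0 p) / 2) ^ 2 = (dT w p - dS w p / 2) ^ 2
    rw [oddh_dS_inv h hw, oddh_dT_inv h hw]
    ring)
  have h2 : ∫ p in Dl, dT (half w) p ^ 2 = ∫ p in Dl, (dT w p - dS w p / 2) ^ 2 := by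
    rw [h1]
    congr 1
    funext p
    rw [dT_half hw]
  have h3 : ∫ p in Dl, dS (half w) p ^ 2 = ∫ p in Dl, (dS w p ^ 2 * (1 / 4)) := by
    rw [integral_mul_const, oddh_int_sq h hw]
    ring
  rw [h2, h3]
  have hc2 : Continuous fun p => dS w p ^ 2 * (1 / 4) := by fun_prop
  rw [← integral_sub (integrableOn_Dl hc) (integrableOn_Dl hc2)]
  unfold Z0
  congr 1
  funext p
  ring

theorem odd_X0_half {w : ℝ × ℝ → ℝ} (h : Odd0 w) (hw : Continuous w) :
    X0 w = ∫ p in (0 : ℝ)..1, half w (p, 0) ^ 2 := by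
  set f : ℝ → ℝ := fun t => w (t, 0) ^ 2 with hf
  have hfc : Continuous f := by
    rw [hf]
    fun_prop
  have hsym : ∀ t, f (1 - t) = f t := by
    intro t
    have h3 := h (t, 0)
    have h4 : ph0 (t, 0) = (1 - t, 0) := by
      unfold ph0
      ext
      · simp
      · rfl
    rw [h4] at h3
    show w (1 - t, 0) ^ 2 = w (t, 0) ^ 2
    rw [h3]
    ring
  have h1 : X0 w = (∫ t in (0 : ℝ)..(1 / 2), f t) + ∫ t in (1 / 2 : ℝ)..1, f t := by
    rw [intervalIntegral.integral_add_adjacent_intervals (hfc.intervalIntegrable _ _)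
      (hfc.intervalIntegrable _ _)]
    rfl
  have h2 : (∫ t in (0 : ℝ)..(1 / 2), f t) = ∫ t in (1 / 2 : ℝ)..1, f t := by
    have h5 := intervalIntegral.integral_comp_sub_left (a := (1 / 2 : ℝ)) (b := 1) f 1
    have h6 : (∫ t in (1 / 2 : ℝ)..1, f (1 - t)) = ∫ t in (1 / 2 : ℝ)..1, f t := by
      congr 1
      funext t
      exact hsym t
    rw [h6] at h5
    rw [h5]
    norm_num
  have h7 : (∫ p in (0 : ℝ)..1, half w (p, 0) ^ 2) = 2 * ∫ t in (1 / 2 : ℝ)..1, f t := by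
    have h8 := intervalIntegral.integral_comp_mul_add (a := (0 : ℝ)) (b := 1) f
      (c := 1 / 2) (by norm_num) (1 / 2)
    have h9 : (∫ p in (0 : ℝ)..1, half w (p, 0) ^ 2) =
        ∫ x in (0 : ℝ)..1, f (1 / 2 * x + 1 / 2) := by
      congr 1
      funext x
      show w ((1 + x - 0) / 2, 0) ^ 2 = w (1 / 2 * x + 1 / 2, 0) ^ 2
      have : (1 + x - 0) / 2 = 1 / 2 * x + 1 / 2 := by ring
      rw [this]
    rw [h9, h8]
    norm_num
  rw [h1, h2, h7]
  ring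

theorem X1_half (w : ℝ × ℝ → ℝ) :
    X1 w = ∫ q in (0 : ℝ)..1, half w (1 - q, q) ^ 2 := by
  unfold X1
  congr 1
  funext q
  show w (1 - q, q) ^ 2 = w ((1 + (1 - q) - q) / 2, q) ^ 2
  have : (1 + (1 - q) - q) / 2 = 1 - q := by ring
  rw [this]

theorem oddh_split {w : ℝ × ℝ → ℝ} (hw : ContDiff ℝ 1 w) (A : ℝ) :
    ∫ p in Dl, (A * dS (half w) p ^ 2 + dT (half w) p ^ 2) =
      A * (∫ p in Dl, dS (half w) p ^ 2) + ∫ p in Dl, dT (half w) p ^ 2 := by
  have cS := continuous_dS (contDiff_half hw)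
  have cT := continuous_dT (contDiff_half hw)
  have c1 : Continuous fun p => A * dS (half w) p ^ 2 := by fun_prop
  have c2 : Continuous fun p => dT (half w) p ^ 2 := by fun_prop
  rw [integral_add (integrableOn_Dl c1) (integrableOn_Dl c2), integral_const_mul]

/-- lower bound for the odd class -/
theorem odd_iso {w : ℝ × ℝ → ℝ} (h : Odd0 w) (hw : ContDiff ℝ 1 w) : 1.1 * NN w ≤ QQ w := by
  have hb := bar_iso (contDiff_half hw) (fun q _ _ => odd_half_zero h q)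
  rw [oddh_split hw, ← odd_X0_half h hw.continuous, ← X1_half] at hb
  have h1 := odd_Z1_half h hw
  have h0 := odd_Z0_half h hw
  have h2 := odd_Z2 h hw
  have hx := odd_X2 h
  unfold NN QQ
  rw [h2, hx, h0, h1]
  linarith

/-- the S-procedure inequality -/
theorem odd_S {w : ℝ × ℝ → ℝ} (h : Odd0 w) (hw : ContDiff ℝ 1 w) :
    1.137 * X0 w + 2.514 * X1 w ≤ QQ w + 1 / 7 * (Z1 w - Z0 w) := by
  have hb := bar_S (contDiff_half hw) (fun q _ _ => odd_half_zero h q)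
  rw [oddh_split hw, ← odd_X0_half h hw.continuous, ← X1_half] at hb
  have h1 := odd_Z1_half h hw
  have h0 := odd_Z0_half h hw
  have h2 := odd_Z2 h hw
  unfold QQ
  rw [h2, h0, h1]
  linarith

end Pool.Agent.Stk
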