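import Pool.Agent.Stk.Simp

/-!
# The sixth part of the triangle
-/

set_option autoImplicit false

noncomputable section

namespace Pool.Agent.Stk

open MeasureTheory

/-- the sector -/
private def six_U : Set (ℝ × ℝ) := {p | 0 < p.2 ∧ p.2 < 1 - p.1 - p.2 ∧ 1 - p.1 - p.2 < p.1}

/-- the sector in the half coordinates -/
private def six_V : Set (ℝ × ℝ) := {p | 0 < p.2 ∧ p.2 < (1 - p.1) / 3 ∧ 0 < p.1}

private theorem six_U_open : IsOpen six_U := by
  have h1 : IsOpen {p : ℝ × ℝ | 0 < p.2} := isOpen_lt (by fun_prop) (by fun_prop)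
  have h2 : IsOpen {p : ℝ × ℝ | p.2 < 1 - p.1 - p.2} := isOpen_lt (by fun_prop) (by fun_prop)
  have h3 : IsOpen {p : ℝ × ℝ | 1 - p.1 - p.2 < p.1} := isOpen_lt (by fun_prop) (by fun_prop)
  exact h1.inter (h2.inter h3)

private theorem six_V_open : IsOpen six_V := by
  have h1 : IsOpen {p : ℝ × ℝ | 0 < p.2} := isOpen_lt (by fun_prop) (by fun_prop)
  have h2 : IsOpen {p : ℝ × ℝ | p.2 < (1 - p.1) / 3} := isOpen_lt (by fun_prop) (by fun_prop)
  have h3 : IsOpen {p : ℝ × ℝ | 0 < p.1} := isOpen_lt (by fun_prop) (by fun_prop)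
  exact h1.inter (h2.inter h3)

private theorem six_U_sub : six_U ⊆ Dl := by
  rintro p ⟨h1, h2, h3⟩
  refine ⟨?_, ?_, ?_⟩ <;> linarith

private theorem six_V_sub : six_V ⊆ Dl := by
  rintro p ⟨h1, h2, h3⟩
  refine ⟨?_, ?_, ?_⟩ <;> linarith

private theorem six_aux (s t b c : ℝ) (hc : 0 ≤ c) :
    (if 0 < t ∧ t < b ∧ b < s then c else 0) + (if 0 < t ∧ t < s ∧ s < b then c else 0) +
    (if 0 < s ∧ s < b ∧ b < t then c else 0) + (if 0 < s ∧ s < t ∧ t < b then c else 0) +
    (if 0 < b ∧ b < s ∧ s < t then c else 0) + (if 0 < b ∧ b < t ∧ t < s then c else 0) ≤ c := by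
  simp only [ite_and]
  split_ifs <;> linarith

private theorem six_le {F : ℝ × ℝ → ℝ} (hn : ∀ p, 0 ≤ F p)
    (h0 : ∀ p, F (ph0 p) = F p) (h1 : ∀ p, F (ph1 p) = F p) (p : ℝ × ℝ) :
    six_U.indicator F p + six_U.indicator F (ph0 p) + six_U.indicator F (ph1 p) +
      six_U.indicator F (ph0 (ph1 p)) + six_U.indicator F (ph1 (ph0 p)) +
      six_U.indicator F (ph0 (ph1 (ph0 p))) ≤ F p := by
  classical
  obtain ⟨s, t⟩ := p
  obtain ⟨b, hb⟩ : ∃ b, b = 1 - s - t := ⟨_, rfl⟩
  have e0 : ph0 (s, t) = (b, t) := by simp [ph0, hb]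
  have e1 : ph1 (s, t) = (t, s) := rfl
  have e2 : ph0 (ph1 (s, t)) = (b, s) := by
    rw [e1]; simp only [ph0, hb]; congr 1; ring
  have e3 : ph1 (ph0 (s, t)) = (t, b) := by rw [e0]; rfl
  have e4 : ph0 (ph1 (ph0 (s, t))) = (s, b) := by
    rw [e3]; simp only [ph0, hb]; congr 1; ring
  have g0 : F (b, t) = F (s, t) := by rw [← e0, h0]
  have g1 : F (t, s) = F (s, t) := by rw [← e1, h1]
  have g2 : F (b, s) = F (s, t) := by rw [← e2, h0, h1]
  have g3 : F (t, b) = F (s, t) := by rw [← e3, h1, h0]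
  have g4 : F (s, b) = F (s, t) := by rw [← e4, h0, h1, h0]
  rw [e2, e4, e3, e0, e1]
  simp only [Set.indicator_apply, g0, g1, g2, g3, g4]
  have m0 : (s, t) ∈ six_U ↔ 0 < t ∧ t < b ∧ b < s := by
    rw [hb]; rfl
  have m1 : (b, t) ∈ six_U ↔ 0 < t ∧ t < s ∧ s < b := by
    have : ((b, t) : ℝ × ℝ) ∈ six_U ↔ 0 < t ∧ t < 1 - b - t ∧ 1 - b - t < b := Iff.rfl
    rw [this, show 1 - b - t = s by rw [hb]; ring]
  have m2 : (t, s) ∈ six_U ↔ 0 < s ∧ s < b ∧ b < t := by
    have : ((t, s) : ℝ × ℝ) ∈ six_U ↔ 0 < s ∧ s < 1 - t - s ∧ 1 - t - s < t := Iff.rfl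
    rw [this, show 1 - t - s = b by rw [hb]; ring]
  have m3 : (b, s) ∈ six_U ↔ 0 < s ∧ s < t ∧ t < b := by
    have : ((b, s) : ℝ × ℝ) ∈ six_U ↔ 0 < s ∧ s < 1 - b - s ∧ 1 - b - s < b := Iff.rfl
    rw [this, show 1 - b - s = t by rw [hb]; ring]
  have m4 : (t, b) ∈ six_U ↔ 0 < b ∧ b < s ∧ s < t := by
    have : ((t, b) : ℝ × ℝ) ∈ six_U ↔ 0 < b ∧ b < 1 - t - b ∧ 1 - t - b < t := Iff.rfl
    rw [this, show 1 - t - b = s by rw [hb]; ring]
  have m5 : (s, b) ∈ six_U ↔ 0 < b ∧ b < t ∧ t < s := by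
    have : ((s, b) : ℝ × ℝ) ∈ six_U ↔ 0 < b ∧ b < 1 - s - b ∧ 1 - s - b < s := Iff.rfl
    rw [this, show 1 - s - b = t by rw [hb]; ring]
  simp only [m0, m1, m2, m3, m4, m5]
  exact six_aux s t b (F (s, t)) (hn _)

/-- The sector `U = {t < 1 - s - t < s}` has six disjoint images in `Dl` under the group generated
by `ph0, ph1`; in the coordinates `(s, t) = ((1 + p - q) / 2, q)` (Jacobian `1 / 2`) the sector is
`0 < p`, `0 < q < (1 - p) / 3`. -/
theorem int_six {F : ℝ × ℝ → ℝ} (hF : Continuous F) (hn : ∀ p, 0 ≤ F p)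
    (h0 : ∀ p, F (ph0 p) = F p) (h1 : ∀ p, F (ph1 p) = F p) :
    3 * ∫ s in (0 : ℝ)..1, ∫ t in (0 : ℝ)..((1 - s) / 3), F ((1 + s - t) / 2, t) ≤
      ∫ p in Dl, F p := by
  have hFD : IntegrableOn F Dl := integrableOn_Dl hF
  have hc0 : Continuous ph0 := by unfold ph0; fun_prop
  have hc1 : Continuous ph1 := by unfold ph1; fun_prop
  -- integrability of the six terms
  have hint : ∀ g : ℝ × ℝ → ℝ × ℝ, Continuous g → (∀ p, F (g p) = F p) →
      IntegrableOn (fun p => six_U.indicator F (g p)) Dl := by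
    intro g hg hgF
    have he : (fun p => six_U.indicator F (g p)) = (g ⁻¹' six_U).indicator F := by
      funext p
      by_cases hp : g p ∈ six_U
      · rw [Set.indicator_of_mem hp, Set.indicator_of_mem (show p ∈ g ⁻¹' six_U from hp), hgF]
      · rw [Set.indicator_of_notMem hp, Set.indicator_of_notMem (show p ∉ g ⁻¹' six_U from hp)]
    rw [he]
    exact Integrable.indicator hFD (six_U_open.preimage hg).measurableSet
  have i0 := hint (fun p => p) continuous_id (fun p => rfl)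
  have i1 := hint ph0 hc0 h0
  have i2 := hint ph1 hc1 h1
  have i3 := hint (fun p => ph0 (ph1 p)) (hc0.comp hc1) (fun p => by rw [h0, h1])
  have i4 := hint (fun p => ph1 (ph0 p)) (hc1.comp hc0) (fun p => by rw [h1, h0])
  have i5 := hint (fun p => ph0 (ph1 (ph0 p))) (hc0.comp (hc1.comp hc0))
    (fun p => by rw [h0, h1, h0])
  -- the six integrals are equal
  have j1 := int_ph0 (six_U.indicator F)
  have j2 := int_ph1 (six_U.indicator F)
  have j3 := int_ph1 (fun p => six_U.indicator F (ph0 p))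
  have j4 := int_ph0 (fun p => six_U.indicator F (ph1 p))
  have j5 := int_ph0 (fun p => six_U.indicator F (ph0 (ph1 p)))
  have hsum : 6 * ∫ p in Dl, six_U.indicator F p ≤ ∫ p in Dl, F p := by
    have h2 : ∫ p in Dl, (six_U.indicator F p + six_U.indicator F (ph0 p) +
        six_U.indicator F (ph1 p) + six_U.indicator F (ph0 (ph1 p)) +
        six_U.indicator F (ph1 (ph0 p)) + six_U.indicator F (ph0 (ph1 (ph0 p)))) ≤
        ∫ p in Dl, F p := by
      refine integral_mono ?_ hFD (fun p => six_le hn h0 h1 p)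
      exact ((((i0.add i1).add i2).add i3).add i4).add i5
    have a1 : IntegrableOn (fun p => six_U.indicator F p + six_U.indicator F (ph0 p)) Dl :=
      i0.add i1
    have a2 : IntegrableOn (fun p => six_U.indicator F p + six_U.indicator F (ph0 p) +
        six_U.indicator F (ph1 p)) Dl := a1.add i2
    have a3 : IntegrableOn (fun p => six_U.indicator F p + six_U.indicator F (ph0 p) +
        six_U.indicator F (ph1 p) + six_U.indicator F (ph0 (ph1 p))) Dl := a2.add i3
    have a4 : IntegrableOn (fun p => six_U.indicator F p + six_U.indicator F (ph0 p) +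
        six_U.indicator F (ph1 p) + six_U.indicator F (ph0 (ph1 p)) +
        six_U.indicator F (ph1 (ph0 p))) Dl := a3.add i4
    rw [integral_add a4 i5, integral_add a3 i4, integral_add a2 i3, integral_add a1 i2,
      integral_add i0 i1] at h2
    linarith
  -- the integral over the sector
  have hU : ∫ p in Dl, six_U.indicator F p = ∫ p, six_U.indicator F p := by
    apply setIntegral_eq_integral_of_forall_compl_eq_zero
    intro p hp
    exact Set.indicator_of_notMem (fun h => hp (six_U_sub h)) _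
  obtain ⟨G, hG⟩ : ∃ G : ℝ × ℝ → ℝ, G = fun p => F ((1 + p.1 - p.2) / 2, p.2) := ⟨_, rfl⟩
  have hGc : Continuous G := by rw [hG]; fun_prop
  have hHi : Integrable (six_U.indicator F) (volume : Measure (ℝ × ℝ)) :=
    (integrable_indicator_iff six_U_open.measurableSet).2 (hFD.mono_set six_U_sub)
  have hHi' : Integrable (six_V.indicator G) (volume : Measure (ℝ × ℝ)) :=
    (integrable_indicator_iff six_V_open.measurableSet).2
      ((integrableOn_Dl hGc).mono_set six_V_sub)
  have hrel : ∀ x y : ℝ, six_V.indicator G (x, y) = six_U.indicator F ((1 + x - y) / 2, y) := by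
    intro x y
    have hm : (x, y) ∈ six_V ↔ ((1 + x - y) / 2, y) ∈ six_U := by
      have e1 : ((x, y) : ℝ × ℝ) ∈ six_V ↔ 0 < y ∧ y < (1 - x) / 3 ∧ 0 < x := Iff.rfl
      have e2 : (((1 + x - y) / 2, y) : ℝ × ℝ) ∈ six_U ↔ 0 < y ∧ y < 1 - (1 + x - y) / 2 - y ∧
        1 - (1 + x - y) / 2 - y < (1 + x - y) / 2 := Iff.rfl
      rw [e1, e2]
      constructor
      · rintro ⟨k1, k2, k3⟩
        refine ⟨k1, ?_, ?_⟩ <;> linarith
      · rintro ⟨k1, k2, k3⟩
        refine ⟨k1, ?_, ?_⟩ <;> linarith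
    by_cases h : (x, y) ∈ six_V
    · rw [Set.indicator_of_mem h, Set.indicator_of_mem (hm.1 h), hG]
    · rw [Set.indicator_of_notMem h, Set.indicator_of_notMem (fun h' => h (hm.2 h'))]
  have hinner : ∀ y : ℝ, ∫ x, six_V.indicator G (x, y) = 2 * ∫ x, six_U.indicator F (x, y) := by
    intro y
    have k1 : ∫ x, six_V.indicator G (x, y) =
        ∫ x, (fun z => six_U.indicator F (z + (1 - y) / 2, y)) ((1 / 2 : ℝ) * x) := by
      congr 1
      funext x
      rw [hrel]
      simp only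
      congr 2
      ring
    have k2 := Measure.integral_comp_mul_left
      (fun z => six_U.indicator F (z + (1 - y) / 2, y)) (1 / 2 : ℝ)
    have k3 := integral_add_right_eq_self (μ := (volume : Measure ℝ))
      (fun z => six_U.indicator F (z, y)) ((1 - y) / 2)
    rw [k1, k2, k3]
    norm_num
  have hchange : ∫ p, six_V.indicator G p = 2 * ∫ p, six_U.indicator F p := by
    rw [Measure.volume_eq_prod, integral_prod_symm _ hHi', integral_prod_symm _ hHi,
      ← integral_const_mul]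
    congr 1
    funext y
    exact hinner y
  have hiter : ∫ p, six_V.indicator G p =
      ∫ s in (0 : ℝ)..1, ∫ t in (0 : ℝ)..((1 - s) / 3), F ((1 + s - t) / 2, t) := by
    rw [Measure.volume_eq_prod, integral_prod _ hHi', intervalIntegral.integral_of_le zero_le_one,
      integral_Ioc_eq_integral_Ioo]
    have hz : ∀ x ∉ Set.Ioo (0 : ℝ) 1, ∫ y, six_V.indicator G (x, y) = 0 := by
      intro x hx
      have : (fun y => six_V.indicator G (x, y)) = fun _ => 0 := by
        funext y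
        refine Set.indicator_of_notMem (fun h => hx ?_) _
        have h' : 0 < y ∧ y < (1 - x) / 3 ∧ 0 < x := h
        exact ⟨h'.2.2, by linarith [h'.1, h'.2.1]⟩
      rw [this, integral_zero]
    rw [← setIntegral_eq_integral_of_forall_compl_eq_zero hz]
    refine setIntegral_congr_fun measurableSet_Ioo (fun x hx => ?_)
    have hx' : 0 ≤ (1 - x) / 3 := by linarith [hx.2]
    rw [intervalIntegral.integral_of_le hx', integral_Ioc_eq_integral_Ioo,
      ← integral_indicator measurableSet_Ioo]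
    congr 1
    funext y
    by_cases hy : y ∈ Set.Ioo (0 : ℝ) ((1 - x) / 3)
    · have hm : ((x, y) : ℝ × ℝ) ∈ six_V := ⟨hy.1, hy.2, hx.1⟩
      rw [Set.indicator_of_mem hy, Set.indicator_of_mem hm, hG]
    · have hm : ((x, y) : ℝ × ℝ) ∉ six_V := fun h => hy ⟨h.1, h.2.1⟩
      rw [Set.indicator_of_notMem hy, Set.indicator_of_notMem hm]
  rw [← hiter, hchange]
  linarith

end Pool.Agent.Stk
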