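import Pool.Agent.Stk.Sec
import Pool.Agent.Stk.Six
import Pool.Agent.Stk.OddH

/-!
# The fully symmetric class
-/

set_option autoImplicit false

noncomputable section

namespace Pool.Agent.Stk

open MeasureTheory

theorem a1_half_int {f : ℝ → ℝ} (hf : Continuous f) (h : ∀ t, f (1 - t) = f t) :
    ∫ p in (0 : ℝ)..1, f ((1 + p) / 2) = ∫ t in (0 : ℝ)..1, f t := by
  have h1 : ∫ t in (0 : ℝ)..1, f t = (∫ t in (0 : ℝ)..(1 / 2), f t) + ∫ t in (1 / 2 : ℝ)..1, f t :=
    (intervalIntegral.integral_add_adjacent_intervals (hf.intervalIntegrable _ _)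
      (hf.intervalIntegrable _ _)).symm
  have h2 : ∫ t in (0 : ℝ)..(1 / 2), f t = ∫ t in (1 / 2 : ℝ)..1, f t := by
    have e := intervalIntegral.integral_comp_sub_left (a := 0) (b := 1 / 2) f (1 : ℝ)
    have e2 : ∫ x in (0 : ℝ)..(1 / 2), f (1 - x) = ∫ x in (0 : ℝ)..(1 / 2), f x := by
      simp only [h]
    rw [← e2, e]
    norm_num
  have h3 : ∫ p in (0 : ℝ)..1, f ((1 + p) / 2) = 2 * ∫ t in (1 / 2 : ℝ)..1, f t := by
    have e := intervalIntegral.integral_comp_add_mul (a := 0) (b := 1) f (c := (1 / 2 : ℝ))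
      (by norm_num) (1 / 2 : ℝ)
    have e2 : ∀ p : ℝ, (1 + p) / 2 = 1 / 2 + 1 / 2 * p := fun p => by ring
    simp only [e2]
    rw [e]
    norm_num
  rw [h3, h1, h2]
  ring

/-- apply `int_six` to `w_s² - w_s w_t + w_t²` and `sector` to `half w` -/
theorem sym_bound {w : ℝ × ℝ → ℝ} (hw : ContDiff ℝ 1 w) (h0 : ∀ p, w (ph0 p) = w p)
    (h1 : ∀ p, w (ph1 p) = w p) (hY : YY w = 0) : 3 / 2 * NN w ≤ QQ w := by
  have e0 : (fun p => w (ph0 p)) = w := funext h0
  have e1 : (fun p => w (ph1 p)) = w := funext h1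
  have cS : Continuous (dS w) := continuous_dS hw
  have cT : Continuous (dT w) := continuous_dT hw
  have hS0 : ∀ p, dS w (ph0 p) = - dS w p := fun p => by
    have := dS_ph0 hw p
    rw [e0] at this
    linarith
  have hT0 : ∀ p, dT w (ph0 p) = dT w p - dS w p := fun p => by
    have := dT_ph0 hw p
    rw [e0] at this
    have := hS0 p
    linarith
  have hS1 : ∀ p, dS w (ph1 p) = dT w p := fun p => by
    have := dT_ph1 hw p
    rw [e1] at this
    exact this.symm
  have hT1 : ∀ p, dT w (ph1 p) = dS w p := fun p => by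
    have := dS_ph1 hw p
    rw [e1] at this
    exact this.symm
  have hQ : QQ w = ∫ p in Dl, (dS w p ^ 2 - dS w p * dT w p + dT w p ^ 2) := by
    unfold QQ Z0 Z1 Z2
    have i0 : IntegrableOn (fun p => dT w p * (dT w p - dS w p)) Dl :=
      integrableOn_Dl (by fun_prop)
    have i1 : IntegrableOn (fun p => dS w p * dT w p) Dl := integrableOn_Dl (by fun_prop)
    have i2 : IntegrableOn (fun p => dS w p * (dS w p - dT w p)) Dl :=
      integrableOn_Dl (by fun_prop)
    have i01 : IntegrableOn (fun p => dT w p * (dT w p - dS w p) + dS w p * dT w p) Dl :=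
      integrableOn_Dl (by fun_prop)
    rw [← integral_add i0 i1, ← integral_add i01 i2]
    congr 1
    funext p
    ring
  have hsix := int_six (F := fun p => dS w p ^ 2 - dS w p * dT w p + dT w p ^ 2) (by fun_prop)
    (fun p => by nlinarith [sq_nonneg (dS w p - dT w p), sq_nonneg (dS w p), sq_nonneg (dT w p)])
    (fun p => by simp only [hS0, hT0]; ring) (fun p => by simp only [hS1, hT1]; ring)
  have hG : ContDiff ℝ 1 (half w) := contDiff_half hw
  have hF : ∀ s t : ℝ, dS w ((1 + s - t) / 2, t) ^ 2 -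
      dS w ((1 + s - t) / 2, t) * dT w ((1 + s - t) / 2, t) + dT w ((1 + s - t) / 2, t) ^ 2 =
      3 * dS (half w) (s, t) ^ 2 + dT (half w) (s, t) ^ 2 := by
    intro s t
    rw [dS_half hw (s, t), dT_half hw (s, t)]
    ring
  simp only [hF] at hsix
  have hsym : ∀ t : ℝ, w (1 - t, 0) = w (t, 0) := fun t => by
    have := h0 (t, 0)
    simpa [ph0] using this
  have hwc : Continuous w := hw.continuous
  have hg : ∀ p : ℝ, half w (p, 0) = w ((1 + p) / 2, 0) := fun p => by
    simp [half]
  have hX0 : ∫ p in (0 : ℝ)..1, half w (p, 0) ^ 2 = X0 w := by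
    unfold X0
    simp only [hg]
    exact a1_half_int (f := fun t => w (t, 0) ^ 2) (by fun_prop) (fun t => by simp only [hsym])
  have hY0 : ∫ p in (0 : ℝ)..1, half w (p, 0) = Y0 w := by
    unfold Y0
    simp only [hg]
    exact a1_half_int (f := fun t => w (t, 0)) (by fun_prop) (fun t => by simp only [hsym])
  have x1 : X0 w = X2 w := by
    have := X0_ph1 w
    rwa [e1] at this
  have x2 : X1 w = X2 w := by
    have := X1_ph0 w
    rwa [e0] at this
  have y1 : Y0 w = Y2 w := by
    have := Y0_ph1 w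
    rwa [e1] at this
  have y2 : Y1 w = Y2 w := by
    have := Y1_ph0 w
    rwa [e0] at this
  have hY00 : Y0 w = 0 := by
    unfold YY at hY
    linarith
  have hsec := sector hG (by rw [hY0, hY00])
  rw [hX0] at hsec
  rw [hQ]
  unfold NN
  linarith

end Pool.Agent.Stk
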