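import Pool.Agent.Stk.Pic

/-!
# Two explicit supersolutions
-/

set_option autoImplicit false

noncomputable section

namespace Pool.Agent.Stk

open MeasureTheory

/-! ### one variable polynomial inequalities (Bernstein form on subintervals) -/

lemma bar_side_iso_0 {p : ℝ} (h0 : 0 ≤ p) (h1 : p ≤ (1/2)) :
    0 ≤ (69/1000) + (-773/5000) * p + (143/1250) * p ^ 2 + (-103/625) * p ^ 3 + (274/625) * p ^ 4 + (-176/625) * p ^ 5 := by
  have hu : 0 ≤ p - 0 := sub_nonneg.mpr h0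
  have hv : 0 ≤ (1/2) - p := sub_nonneg.mpr h1
  have e : (69/1000) + (-773/5000) * p + (143/1250) * p ^ 2 + (-103/625) * p ^ 3 + (274/625) * p ^ 4 + (-176/625) * p ^ 5 =
      (276/125) * (((1/2) - p) ^ 5) + (5354/625) * (p * ((1/2) - p) ^ 4) + (8188/625) * (p ^ 2 * ((1/2) - p) ^ 3) + (5828/625) * (p ^ 3 * ((1/2) - p) ^ 2) + (2156/625) * (p ^ 4 * ((1/2) - p)) + (366/625) * (p ^ 5) := by ring
  rw [e]
  positivity

lemma bar_side_iso_1 {p : ℝ} (h0 : (1/2) ≤ p) (h1 : p ≤ 1) :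
    0 ≤ (69/1000) + (-773/5000) * p + (143/1250) * p ^ 2 + (-103/625) * p ^ 3 + (274/625) * p ^ 4 + (-176/625) * p ^ 5 := by
  have hu : 0 ≤ p - (1/2) := sub_nonneg.mpr h0
  have hv : 0 ≤ 1 - p := sub_nonneg.mpr h1
  have e : (69/1000) + (-773/5000) * p + (143/1250) * p ^ 2 + (-103/625) * p ^ 3 + (274/625) * p ^ 4 + (-176/625) * p ^ 5 =
      (366/625) * ((1 - p) ^ 5) + (1504/625) * ((p - (1/2)) * (1 - p) ^ 4) + (644/125) * ((p - (1/2)) ^ 2 * (1 - p) ^ 3) + (4316/625) * ((p - (1/2)) ^ 3 * (1 - p) ^ 2) + (2826/625) * ((p - (1/2)) ^ 4 * (1 - p)) + (416/625) * ((p - (1/2)) ^ 5) := by ring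
  rw [e]
  positivity

lemma bar_side_iso {p : ℝ} (h0 : 0 ≤ p) (h1 : p ≤ 1) :
    0 ≤ (69/1000) + (-773/5000) * p + (143/1250) * p ^ 2 + (-103/625) * p ^ 3 + (274/625) * p ^ 4 + (-176/625) * p ^ 5 := by
  rcases le_total p (1/2) with g0 | g0
  · exact bar_side_iso_0 h0 g0
  exact bar_side_iso_1 g0 h1

lemma bar_al_iso_0 {q : ℝ} (h0 : 0 ≤ q) (h1 : q ≤ 1) :
    0 ≤ (99/100) + (-559/500) * q + (-387/1000) * q ^ 2 + (21/125) * q ^ 3 + (9/25) * q ^ 4 := by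
  have hu : 0 ≤ q - 0 := sub_nonneg.mpr h0
  have hv : 0 ≤ 1 - q := sub_nonneg.mpr h1
  have e : (99/100) + (-559/500) * q + (-387/1000) * q ^ 2 + (21/125) * q ^ 3 + (9/25) * q ^ 4 =
      (99/100) * ((1 - q) ^ 4) + (1421/500) * (q * (1 - q) ^ 3) + (2199/1000) * (q ^ 2 * (1 - q) ^ 2) + (13/1000) * (q ^ 4) := by ring
  rw [e]
  positivity

lemma bar_al_iso {q : ℝ} (h0 : 0 ≤ q) (h1 : q ≤ 1) :
    0 ≤ (99/100) + (-559/500) * q + (-387/1000) * q ^ 2 + (21/125) * q ^ 3 + (9/25) * q ^ 4 := by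
  exact bar_al_iso_0 h0 h1

lemma bar_co_iso_0 {q : ℝ} (h0 : 0 ≤ q) (h1 : q ≤ 1) :
    0 ≤ (1033/1000) + (-63/50) * q + (-59/125) * q ^ 2 + (74/125) * q ^ 3 + (3/25) * q ^ 4 := by
  have hu : 0 ≤ q - 0 := sub_nonneg.mpr h0
  have hv : 0 ≤ 1 - q := sub_nonneg.mpr h1
  have e : (1033/1000) + (-63/50) * q + (-59/125) * q ^ 2 + (74/125) * q ^ 3 + (3/25) * q ^ 4 =
      (1033/1000) * ((1 - q) ^ 4) + (359/125) * (q * (1 - q) ^ 3) + (973/500) * (q ^ 2 * (1 - q) ^ 2) + (13/1000) * (q ^ 4) := by ring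
  rw [e]
  positivity

lemma bar_co_iso {q : ℝ} (h0 : 0 ≤ q) (h1 : q ≤ 1) :
    0 ≤ (1033/1000) + (-63/50) * q + (-59/125) * q ^ 2 + (74/125) * q ^ 3 + (3/25) * q ^ 4 := by
  exact bar_co_iso_0 h0 h1

lemma bar_side_S_0 {p : ℝ} (h0 : 0 ≤ p) (h1 : p ≤ (1/2)) :
    0 ≤ (802/625) + (-7177633/1250000) * p + (23320933/2500000) * p ^ 2 + (-35255353/5000000) * p ^ 3 + (33029873/10000000) * p ^ 4 + (-2765819/2500000) * p ^ 5 := by
  have hu : 0 ≤ p - 0 := sub_nonneg.mpr h0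
  have hv : 0 ≤ (1/2) - p := sub_nonneg.mpr h1
  have e : (802/625) + (-7177633/1250000) * p + (23320933/2500000) * p ^ 2 + (-35255353/5000000) * p ^ 3 + (33029873/10000000) * p ^ 4 + (-2765819/2500000) * p ^ 5 =
      (25664/625) * (((1/2) - p) ^ 5) + (8862367/78125) * (p * ((1/2) - p) ^ 4) + (7359761/62500) * (p ^ 2 * ((1/2) - p) ^ 3) + (2752923/50000) * (p ^ 3 * ((1/2) - p) ^ 2) + (11895557/1000000) * (p ^ 4 * ((1/2) - p)) + (5555239/5000000) * (p ^ 5) := by ring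
  rw [e]
  positivity

lemma bar_side_S_1 {p : ℝ} (h0 : (1/2) ≤ p) (h1 : p ≤ (3/4)) :
    0 ≤ (802/625) + (-7177633/1250000) * p + (23320933/2500000) * p ^ 2 + (-35255353/5000000) * p ^ 3 + (33029873/10000000) * p ^ 4 + (-2765819/2500000) * p ^ 5 := by
  have hu : 0 ≤ p - (1/2) := sub_nonneg.mpr h0
  have hv : 0 ≤ (3/4) - p := sub_nonneg.mpr h1
  have e : (802/625) + (-7177633/1250000) * p + (23320933/2500000) * p ^ 2 + (-35255353/5000000) * p ^ 3 + (33029873/10000000) * p ^ 4 + (-2765819/2500000) * p ^ 5 =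
      (5555239/156250) * (((3/4) - p) ^ 5) + (238508/3125) * ((p - (1/2)) * ((3/4) - p) ^ 4) + (6153039/62500) * ((p - (1/2)) ^ 2 * ((3/4) - p) ^ 3) + (4424099/31250) * ((p - (1/2)) ^ 3 * ((3/4) - p) ^ 2) + (293669323/2500000) * ((p - (1/2)) ^ 4 * ((3/4) - p)) + (10146821/312500) * ((p - (1/2)) ^ 5) := by ring
  rw [e]
  positivity

lemma bar_side_S_2 {p : ℝ} (h0 : (3/4) ≤ p) (h1 : p ≤ 1) :
    0 ≤ (802/625) + (-7177633/1250000) * p + (23320933/2500000) * p ^ 2 + (-35255353/5000000) * p ^ 3 + (33029873/10000000) * p ^ 4 + (-2765819/2500000) * p ^ 5 := by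
  have hu : 0 ≤ p - (3/4) := sub_nonneg.mpr h0
  have hv : 0 ≤ 1 - p := sub_nonneg.mpr h1
  have e : (802/625) + (-7177633/1250000) * p + (23320933/2500000) * p ^ 2 + (-35255353/5000000) * p ^ 3 + (33029873/10000000) * p ^ 4 + (-2765819/2500000) * p ^ 5 =
      (10146821/312500) * ((1 - p) ^ 5) + (518076357/2500000) * ((p - (3/4)) * (1 - p) ^ 4) + (156444507/312500) * ((p - (3/4)) ^ 2 * (1 - p) ^ 3) + (41354614/78125) * ((p - (3/4)) ^ 3 * (1 - p) ^ 2) + (17187572/78125) * ((p - (3/4)) ^ 4 * (1 - p)) + (1204472/78125) * ((p - (3/4)) ^ 5) := by ring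
  rw [e]
  positivity

lemma bar_side_S {p : ℝ} (h0 : 0 ≤ p) (h1 : p ≤ 1) :
    0 ≤ (802/625) + (-7177633/1250000) * p + (23320933/2500000) * p ^ 2 + (-35255353/5000000) * p ^ 3 + (33029873/10000000) * p ^ 4 + (-2765819/2500000) * p ^ 5 := by
  rcases le_total p (1/2) with g0 | g0
  · exact bar_side_S_0 h0 g0
  rcases le_total p (3/4) with g1 | g1
  · exact bar_side_S_1 g0 g1
  exact bar_side_S_2 g1 h1

lemma bar_al_S_0 {q : ℝ} (h0 : 0 ≤ q) (h1 : q ≤ (1/2)) :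
    0 ≤ (9/10) + (-67/50) * q + (-111/500) * q ^ 2 + (367/2500) * q ^ 3 + (92/125) * q ^ 4 := by
  have hu : 0 ≤ q - 0 := sub_nonneg.mpr h0
  have hv : 0 ≤ (1/2) - q := sub_nonneg.mpr h1
  have e : (9/10) + (-67/50) * q + (-111/500) * q ^ 2 + (367/2500) * q ^ 3 + (92/125) * q ^ 4 =
      (72/5) * (((1/2) - q) ^ 4) + (1172/25) * (q * ((1/2) - q) ^ 3) + (6669/125) * (q ^ 2 * ((1/2) - q) ^ 2) + (29947/1250) * (q ^ 3 * ((1/2) - q)) + (4777/1250) * (q ^ 4) := by ring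
  rw [e]
  positivity

lemma bar_al_S_1 {q : ℝ} (h0 : (1/2) ≤ q) (h1 : q ≤ 1) :
    0 ≤ (9/10) + (-67/50) * q + (-111/500) * q ^ 2 + (367/2500) * q ^ 3 + (92/125) * q ^ 4 := by
  have hu : 0 ≤ q - (1/2) := sub_nonneg.mpr h0
  have hv : 0 ≤ 1 - q := sub_nonneg.mpr h1
  have e : (9/10) + (-67/50) * q + (-111/500) * q ^ 2 + (367/2500) * q ^ 3 + (92/125) * q ^ 4 =
      (4777/1250) * ((1 - q) ^ 4) + (8269/1250) * ((q - (1/2)) * (1 - q) ^ 3) + (828/625) * ((q - (1/2)) ^ 2 * (1 - q) ^ 2) + (166/125) * ((q - (1/2)) ^ 3 * (1 - q)) + (2208/625) * ((q - (1/2)) ^ 4) := by ring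
  rw [e]
  positivity

lemma bar_al_S {q : ℝ} (h0 : 0 ≤ q) (h1 : q ≤ 1) :
    0 ≤ (9/10) + (-67/50) * q + (-111/500) * q ^ 2 + (367/2500) * q ^ 3 + (92/125) * q ^ 4 := by
  rcases le_total q (1/2) with g0 | g0
  · exact bar_al_S_0 h0 g0
  exact bar_al_S_1 g0 h1

lemma bar_co_S_0 {q : ℝ} (h0 : 0 ≤ q) (h1 : q ≤ (1/2)) :
    0 ≤ (1837/2000) + (-14137/10000) * q + (-4981/10000) * q ^ 2 + (8461/10000) * q ^ 3 + (46/125) * q ^ 4 := by
  have hu : 0 ≤ q - 0 := sub_nonneg.mpr h0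
  have hv : 0 ≤ (1/2) - q := sub_nonneg.mpr h1
  have e : (1837/2000) + (-14137/10000) * q + (-4981/10000) * q ^ 2 + (8461/10000) * q ^ 3 + (46/125) * q ^ 4 =
      (1837/125) * (((1/2) - q) ^ 4) + (59343/1250) * (q * ((1/2) - q) ^ 3) + (130637/2500) * (q ^ 2 * ((1/2) - q) ^ 2) + (112813/5000) * (q ^ 3 * ((1/2) - q)) + (17271/5000) * (q ^ 4) := by ring
  rw [e]
  positivity

lemma bar_co_S_1 {q : ℝ} (h0 : (1/2) ≤ q) (h1 : q ≤ (3/4)) :
    0 ≤ (1837/2000) + (-14137/10000) * q + (-4981/10000) * q ^ 2 + (8461/10000) * q ^ 3 + (46/125) * q ^ 4 := by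
  have hu : 0 ≤ q - (1/2) := sub_nonneg.mpr h0
  have hv : 0 ≤ (3/4) - q := sub_nonneg.mpr h1
  have e : (1837/2000) + (-14137/10000) * q + (-4981/10000) * q ^ 2 + (8461/10000) * q ^ 3 + (46/125) * q ^ 4 =
      (34542/625) * (((3/4) - q) ^ 4) + (94439/625) * ((q - (1/2)) * ((3/4) - q) ^ 3) + (178591/1250) * ((q - (1/2)) ^ 2 * ((3/4) - q) ^ 2) + (149589/2500) * ((q - (1/2)) ^ 3 * ((3/4) - q)) + (6583/500) * ((q - (1/2)) ^ 4) := by ring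
  rw [e]
  positivity

lemma bar_co_S_2 {q : ℝ} (h0 : (3/4) ≤ q) (h1 : q ≤ 1) :
    0 ≤ (1837/2000) + (-14137/10000) * q + (-4981/10000) * q ^ 2 + (8461/10000) * q ^ 3 + (46/125) * q ^ 4 := by
  have hu : 0 ≤ q - (3/4) := sub_nonneg.mpr h0
  have hv : 0 ≤ 1 - q := sub_nonneg.mpr h1
  have e : (1837/2000) + (-14137/10000) * q + (-4981/10000) * q ^ 2 + (8461/10000) * q ^ 3 + (46/125) * q ^ 4 =
      (6583/500) * ((1 - q) ^ 4) + (113731/2500) * ((q - (3/4)) * (1 - q) ^ 3) + (62402/625) * ((q - (3/4)) ^ 2 * (1 - q) ^ 2) + (77296/625) * ((q - (3/4)) ^ 3 * (1 - q)) + (35328/625) * ((q - (3/4)) ^ 4) := by ring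
  rw [e]
  positivity

lemma bar_co_S {q : ℝ} (h0 : 0 ≤ q) (h1 : q ≤ 1) :
    0 ≤ (1837/2000) + (-14137/10000) * q + (-4981/10000) * q ^ 2 + (8461/10000) * q ^ 3 + (46/125) * q ^ 4 := by
  rcases le_total q (1/2) with g0 | g0
  · exact bar_co_S_0 h0 g0
  rcases le_total q (3/4) with g1 | g1
  · exact bar_co_S_1 g0 g1
  exact bar_co_S_2 g1 h1

/-! ### the family of supersolutions -/

lemma bar_d5 (a1 a3 a5 p : ℝ) : HasDerivAt (fun x : ℝ => a1 * x + a3 * x ^ 3 + a5 * x ^ 5)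
    (a1 + 3 * a3 * p ^ 2 + 5 * a5 * p ^ 4) p := by
  have h1 := (hasDerivAt_id' p).const_mul a1
  have h3 := (hasDerivAt_pow 3 p).const_mul a3
  have h5 := (hasDerivAt_pow 5 p).const_mul a5
  refine ((h1.add h3).add h5).congr_deriv ?_
  norm_num
  ring

lemma bar_d4 (b0 b1 b2 b3 b4 q : ℝ) :
    HasDerivAt (fun y : ℝ => b0 + b1 * y + b2 * y ^ 2 + b3 * y ^ 3 + b4 * y ^ 4)
    (b1 + 2 * b2 * q + 3 * b3 * q ^ 2 + 4 * b4 * q ^ 3) q := by
  have h0 := hasDerivAt_const q b0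
  have h1 := (hasDerivAt_id' q).const_mul b1
  have h2 := (hasDerivAt_pow 2 q).const_mul b2
  have h3 := (hasDerivAt_pow 3 q).const_mul b3
  have h4 := (hasDerivAt_pow 4 q).const_mul b4
  refine ((((h0.add h1).add h2).add h3).add h4).congr_deriv ?_
  norm_num
  ring

/-- the supersolution -/
def barH (g c2 c3 c4 c5 p q : ℝ) : ℝ :=
  p * (1 + c2 * q + c3 * (p ^ 2 - 3 * g * q ^ 2) + c4 * (p ^ 2 * q - g * q ^ 3) +
    c5 * (p ^ 4 - 10 * g * p ^ 2 * q ^ 2 + 5 * g ^ 2 * q ^ 4))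

/-- its first derivative in `p` -/
def barHp (g c2 c3 c4 c5 p q : ℝ) : ℝ :=
  1 + c2 * q + c3 * (3 * p ^ 2 - 3 * g * q ^ 2) + c4 * (3 * p ^ 2 * q - g * q ^ 3) +
    c5 * (5 * p ^ 4 - 30 * g * p ^ 2 * q ^ 2 + 5 * g ^ 2 * q ^ 4)

/-- its first derivative in `q` -/
def barHq (g c2 c3 c4 c5 p q : ℝ) : ℝ :=
  c2 * p - 6 * g * c3 * p * q + c4 * (p ^ 3 - 3 * g * p * q ^ 2) +
    c5 * (-(20 * g * p ^ 3 * q) + 20 * g ^ 2 * p * q ^ 3)

/-- its second derivative in `p` -/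
def barHpp (g c3 c4 c5 p q : ℝ) : ℝ :=
  6 * c3 * p + 6 * c4 * p * q + c5 * (20 * p ^ 3 - 60 * g * p * q ^ 2)

/-- its second derivative in `q` -/
def barHqq (g c3 c4 c5 p q : ℝ) : ℝ :=
  -(6 * g * c3 * p) - 6 * g * c4 * p * q + c5 * (-(20 * g * p ^ 3) + 60 * g ^ 2 * p * q ^ 2)

lemma bar_der1 (g c2 c3 c4 c5 p q : ℝ) :
    HasDerivAt (fun x => barH g c2 c3 c4 c5 x q) (barHp g c2 c3 c4 c5 p q) p := by
  have h := bar_d5 (1 + c2 * q - 3 * g * c3 * q ^ 2 - g * c4 * q ^ 3 + 5 * g ^ 2 * c5 * q ^ 4)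
    (c3 + c4 * q - 10 * g * c5 * q ^ 2) c5 p
  have e : (fun x => barH g c2 c3 c4 c5 x q) = fun x : ℝ =>
      (1 + c2 * q - 3 * g * c3 * q ^ 2 - g * c4 * q ^ 3 + 5 * g ^ 2 * c5 * q ^ 4) * x +
        (c3 + c4 * q - 10 * g * c5 * q ^ 2) * x ^ 3 + c5 * x ^ 5 := by
    funext x
    unfold barH
    ring
  rw [e]
  refine h.congr_deriv ?_
  unfold barHp
  ring

lemma bar_der2 (g c2 c3 c4 c5 p q : ℝ) :
    HasDerivAt (fun y => barH g c2 c3 c4 c5 p y) (barHq g c2 c3 c4 c5 p q) q := by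
  have h := bar_d4 (p + c3 * p ^ 3 + c5 * p ^ 5) (c2 * p + c4 * p ^ 3)
    (-(3 * g * c3 * p) - 10 * g * c5 * p ^ 3) (-(g * c4 * p)) (5 * g ^ 2 * c5 * p) q
  have e : (fun y => barH g c2 c3 c4 c5 p y) = fun y : ℝ =>
      (p + c3 * p ^ 3 + c5 * p ^ 5) + (c2 * p + c4 * p ^ 3) * y +
        (-(3 * g * c3 * p) - 10 * g * c5 * p ^ 3) * y ^ 2 + (-(g * c4 * p)) * y ^ 3 +
          (5 * g ^ 2 * c5 * p) * y ^ 4 := by
    funext y
    unfold barH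
    ring
  rw [e]
  refine h.congr_deriv ?_
  unfold barHq
  ring

lemma bar_der11 (g c2 c3 c4 c5 p q : ℝ) :
    HasDerivAt (fun x => barHp g c2 c3 c4 c5 x q) (barHpp g c3 c4 c5 p q) p := by
  have h := bar_d4 (1 + c2 * q - 3 * g * c3 * q ^ 2 - g * c4 * q ^ 3 + 5 * g ^ 2 * c5 * q ^ 4) 0
    (3 * (c3 + c4 * q - 10 * g * c5 * q ^ 2)) 0 (5 * c5) p
  have e : (fun x => barHp g c2 c3 c4 c5 x q) = fun y : ℝ =>
      (1 + c2 * q - 3 * g * c3 * q ^ 2 - g * c4 * q ^ 3 + 5 * g ^ 2 * c5 * q ^ 4) + 0 * y +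
        (3 * (c3 + c4 * q - 10 * g * c5 * q ^ 2)) * y ^ 2 + 0 * y ^ 3 + (5 * c5) * y ^ 4 := by
    funext x
    unfold barHp
    ring
  rw [e]
  refine h.congr_deriv ?_
  unfold barHpp
  ring

lemma bar_der22 (g c2 c3 c4 c5 p q : ℝ) :
    HasDerivAt (fun y => barHq g c2 c3 c4 c5 p y) (barHqq g c3 c4 c5 p q) q := by
  have h := bar_d4 (c2 * p + c4 * p ^ 3) (2 * (-(3 * g * c3 * p) - 10 * g * c5 * p ^ 3))
    (3 * (-(g * c4 * p))) (4 * (5 * g ^ 2 * c5 * p)) 0 q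
  have e : (fun y => barHq g c2 c3 c4 c5 p y) = fun y : ℝ =>
      (c2 * p + c4 * p ^ 3) + (2 * (-(3 * g * c3 * p) - 10 * g * c5 * p ^ 3)) * y +
        (3 * (-(g * c4 * p))) * y ^ 2 + (4 * (5 * g ^ 2 * c5 * p)) * y ^ 3 + 0 * y ^ 4 := by
    funext x
    unfold barHq
    ring
  rw [e]
  refine h.congr_deriv ?_
  unfold barHqq
  ring

/-- `picone` for the family -/
lemma bar_gen {g W0 W1 c c2 c3 c4 c5 : ℝ} (hg : 0 < g) (hc : 0 < c) (hW0 : 0 ≤ W0) (hW1 : 0 ≤ W1)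
    (hpos : ∀ p q, 0 ≤ p → 0 ≤ q → p + q ≤ 1 → c * p ≤ barH g c2 c3 c4 c5 p q)
    (base : ∀ p, 0 ≤ p → p ≤ 1 → W0 * barH g c2 c3 c4 c5 p 0 ≤ - barHq g c2 c3 c4 c5 p 0)
    (side : ∀ p, 0 ≤ p → p ≤ 1 → W1 * barH g c2 c3 c4 c5 p (1 - p) ≤
      g * barHp g c2 c3 c4 c5 p (1 - p) + barHq g c2 c3 c4 c5 p (1 - p))
    {G : ℝ × ℝ → ℝ} (hG : ContDiff ℝ 1 G) (hG0 : ∀ q, 0 ≤ q → q ≤ 1 → G (0, q) = 0) :
    W0 * (∫ p in (0 : ℝ)..1, G (p, 0) ^ 2) + W1 * (∫ q in (0 : ℝ)..1, G (1 - q, q) ^ 2) ≤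
      ∫ p in Dl, (g * dS G p ^ 2 + dT G p ^ 2) := by
  refine picone hg hc hW0 hW1 (h := barH g c2 c3 c4 c5) (hp := barHp g c2 c3 c4 c5)
    (hq := barHq g c2 c3 c4 c5) (hpp := barHpp g c3 c4 c5) (hqq := barHqq g c3 c4 c5)
    ?_ ?_ ?_ ?_ ?_ (bar_der1 g c2 c3 c4 c5) (bar_der2 g c2 c3 c4 c5) (bar_der11 g c2 c3 c4 c5)
    (bar_der22 g c2 c3 c4 c5) ?_ hpos base side hG hG0
  · unfold barH; fun_prop
  · unfold barHp; fun_prop
  · unfold barHq; fun_prop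
  · unfold barHpp; fun_prop
  · unfold barHqq; fun_prop
  · intro p q
    unfold barHpp barHqq
    ring

/-- the elementary two variable step: `α + β p² ≥ 0` on the triangle -/
lemma bar_quad {al be P q : ℝ} (h1 : 0 ≤ al) (h2 : 0 ≤ al + be * (1 - q) ^ 2)
    (hP : 0 ≤ P) (hP1 : P ≤ (1 - q) ^ 2) : 0 ≤ al + be * P := by
  rcases le_total 0 be with hb | hb
  · positivity
  · nlinarith [mul_le_mul_of_nonpos_left hP1 hb]

/-- `h = p (1 + c₂ q + c₃ (p² - 3γq²) + c₄ (p² q - γ q³) + c₅ (p⁴ - 10γp²q² + 5γ²q⁴))` with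
`γ = 3`, `c = (-1.118, 0.043, -0.056, 0.008)`; `h ≥ 0.01 p`. -/
theorem bar_iso {G : ℝ × ℝ → ℝ} (hG : ContDiff ℝ 1 G) (hG0 : ∀ q, 0 ≤ q → q ≤ 1 → G (0, q) = 0) :
    1.1 * (∫ p in (0 : ℝ)..1, G (p, 0) ^ 2) + 2.2 * (∫ q in (0 : ℝ)..1, G (1 - q, q) ^ 2) ≤
      ∫ p in Dl, (3 * dS G p ^ 2 + dT G p ^ 2) := by
  refine bar_gen (c := 1 / 100) (c2 := -(559 / 500)) (c3 := 43 / 1000) (c4 := -(7 / 125))
    (c5 := 1 / 125) (by norm_num) (by norm_num) (by norm_num) (by norm_num) ?_ ?_ ?_ hG hG0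
  · intro p q hp hq hpq
    have hq1 : q ≤ 1 := by linarith
    have hP1 : p ^ 2 ≤ (1 - q) ^ 2 := by nlinarith
    have k1 := bar_al_iso hq hq1
    have k2 := bar_co_iso hq hq1
    have k3 := bar_quad (al := (99/100) + (-559/500) * q + (-387/1000) * q ^ 2 + (21/125) * q ^ 3 + (9/25) * q ^ 4) (be := (43/1000) + (-7/125) * q + (-6/25) * q ^ 2) (P := p ^ 2) (q := q) (by linarith) (by
      refine le_of_le_of_eq k2 ?_
      ring) (by positivity) hP1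
    have k4 : barH 3 (-(559 / 500)) (43 / 1000) (-(7 / 125)) (1 / 125) p q - 1 / 100 * p =
        p * (((99/100) + (-559/500) * q + (-387/1000) * q ^ 2 + (21/125) * q ^ 3 + (9/25) * q ^ 4) + ((43/1000) + (-7/125) * q + (-6/25) * q ^ 2) * p ^ 2) + 1 / 125 * p ^ 5 := by
      unfold barH
      ring
    have k5 : 0 ≤ p * (((99/100) + (-559/500) * q + (-387/1000) * q ^ 2 + (21/125) * q ^ 3 + (9/25) * q ^ 4) + ((43/1000) + (-7/125) * q + (-6/25) * q ^ 2) * p ^ 2) := mul_nonneg hp k3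
    have k6 : 0 ≤ 1 / 125 * p ^ 5 := by positivity
    linarith
  · intro p hp hp1
    have k : - barHq 3 (-(559 / 500)) (43 / 1000) (-(7 / 125)) (1 / 125) p 0 -
        1.1 * barH 3 (-(559 / 500)) (43 / 1000) (-(7 / 125)) (1 / 125) p 0 =
        9 / 500 * p + 87 / 10000 * p ^ 3 - 11 / 1250 * p ^ 5 := by
      unfold barH barHq
      norm_num
      ring
    have h5 : p ^ 5 ≤ p := by
      have := pow_le_pow_of_le_one hp hp1 (show 1 ≤ 5 by norm_num)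
      simpa using this
    have h3 : 0 ≤ p ^ 3 := by positivity
    linarith
  · intro p hp hp1
    have k := bar_side_iso hp hp1
    have e : (3 * barHp 3 (-(559 / 500)) (43 / 1000) (-(7 / 125)) (1 / 125) p (1 - p) +
        barHq 3 (-(559 / 500)) (43 / 1000) (-(7 / 125)) (1 / 125) p (1 - p)) -
        2.2 * barH 3 (-(559 / 500)) (43 / 1000) (-(7 / 125)) (1 / 125) p (1 - p) =
        (69/1000) + (-773/5000) * p + (143/1250) * p ^ 2 + (-103/625) * p ^ 3 + (274/625) * p ^ 4 + (-176/625) * p ^ 5 := by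
      unfold barH barHp barHq
      norm_num
      ring
    linarith

/-- same with `γ = 4`, `c = (-1.34, 0.0185, -0.0367, 0.0092)`; `h ≥ 0.1 p`. -/
theorem bar_S {G : ℝ × ℝ → ℝ} (hG : ContDiff ℝ 1 G) (hG0 : ∀ q, 0 ≤ q → q ≤ 1 → G (0, q) = 0) :
    1.3265 * (∫ p in (0 : ℝ)..1, G (p, 0) ^ 2) + 2.933 * (∫ q in (0 : ℝ)..1, G (1 - q, q) ^ 2) ≤
      ∫ p in Dl, (4 * dS G p ^ 2 + dT G p ^ 2) := by
  refine bar_gen (c := 1 / 10) (c2 := -(67 / 50)) (c3 := 37 / 2000) (c4 := -(367 / 10000))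
    (c5 := 23 / 2500) (by norm_num) (by norm_num) (by norm_num) (by norm_num) ?_ ?_ ?_ hG hG0
  · intro p q hp hq hpq
    have hq1 : q ≤ 1 := by linarith
    have hP1 : p ^ 2 ≤ (1 - q) ^ 2 := by nlinarith
    have k1 := bar_al_S hq hq1
    have k2 := bar_co_S hq hq1
    have k3 := bar_quad (al := (9/10) + (-67/50) * q + (-111/500) * q ^ 2 + (367/2500) * q ^ 3 + (92/125) * q ^ 4) (be := (37/2000) + (-367/10000) * q + (-46/125) * q ^ 2) (P := p ^ 2) (q := q) (by linarith) (by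
      refine le_of_le_of_eq k2 ?_
      ring) (by positivity) hP1
    have k4 : barH 4 (-(67 / 50)) (37 / 2000) (-(367 / 10000)) (23 / 2500) p q - 1 / 10 * p =
        p * (((9/10) + (-67/50) * q + (-111/500) * q ^ 2 + (367/2500) * q ^ 3 + (92/125) * q ^ 4) + ((37/2000) + (-367/10000) * q + (-46/125) * q ^ 2) * p ^ 2) + 23 / 2500 * p ^ 5 := by
      unfold barH
      ring
    have k5 : 0 ≤ p * (((9/10) + (-67/50) * q + (-111/500) * q ^ 2 + (367/2500) * q ^ 3 + (92/125) * q ^ 4) + ((37/2000) + (-367/10000) * q + (-46/125) * q ^ 2) * p ^ 2) := mul_nonneg hp k3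
    have k6 : 0 ≤ 23 / 2500 * p ^ 5 := by positivity
    linarith
  · intro p hp hp1
    have k : - barHq 4 (-(67 / 50)) (37 / 2000) (-(367 / 10000)) (23 / 2500) p 0 -
        1.3265 * barH 4 (-(67 / 50)) (37 / 2000) (-(367 / 10000)) (23 / 2500) p 0 =
        (67 / 50 - 2653 / 2000) * p + (367 / 10000 - 2653 / 2000 * (37 / 2000)) * p ^ 3 -
          2653 / 2000 * (23 / 2500) * p ^ 5 := by
      unfold barH barHq
      norm_num
      ring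
    have h5 : p ^ 5 ≤ p := by
      have := pow_le_pow_of_le_one hp hp1 (show 1 ≤ 5 by norm_num)
      simpa using this
    have h3 : 0 ≤ p ^ 3 := by positivity
    linarith
  · intro p hp hp1
    have k := bar_side_S hp hp1
    have e : (4 * barHp 4 (-(67 / 50)) (37 / 2000) (-(367 / 10000)) (23 / 2500) p (1 - p) +
        barHq 4 (-(67 / 50)) (37 / 2000) (-(367 / 10000)) (23 / 2500) p (1 - p)) -
        2.933 * barH 4 (-(67 / 50)) (37 / 2000) (-(367 / 10000)) (23 / 2500) p (1 - p) =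
        (802/625) + (-7177633/1250000) * p + (23320933/2500000) * p ^ 2 + (-35255353/5000000) * p ^ 3 + (33029873/10000000) * p ^ 4 + (-2765819/2500000) * p ^ 5 := by
      unfold barH barHp barHq
      norm_num
      ring
    linarith

end Pool.Agent.Stk
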