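import Pool.Agent.Stk.Simp

/-!
# Elementary properties of the quadratic forms
-/

set_option autoImplicit false

noncomputable section

namespace Pool.Agent.Stk

open MeasureTheory

theorem contDiff_ph0 {k : WithTop ℕ∞} : ContDiff ℝ k ph0 := by
  unfold ph0
  fun_prop

theorem contDiff_ph1 {k : WithTop ℕ∞} : ContDiff ℝ k ph1 := by
  unfold ph1
  fun_prop

theorem continuous_dS {w : ℝ × ℝ → ℝ} (hw : ContDiff ℝ 1 w) : Continuous (dS w) :=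
  (hw.continuous_fderiv one_ne_zero).clm_apply continuous_const

theorem continuous_dT {w : ℝ × ℝ → ℝ} (hw : ContDiff ℝ 1 w) : Continuous (dT w) :=
  (hw.continuous_fderiv one_ne_zero).clm_apply continuous_const

/-- the linear part of `ph0` -/
def invL0 : ℝ × ℝ →L[ℝ] ℝ × ℝ :=
  (-(ContinuousLinearMap.fst ℝ ℝ ℝ) - ContinuousLinearMap.snd ℝ ℝ ℝ).prod
    (ContinuousLinearMap.snd ℝ ℝ ℝ)

/-- the linear part of `ph1` -/
def invL1 : ℝ × ℝ →L[ℝ] ℝ × ℝ :=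
  (ContinuousLinearMap.snd ℝ ℝ ℝ).prod (ContinuousLinearMap.fst ℝ ℝ ℝ)

theorem inv_hasFDerivAt_ph0 (p : ℝ × ℝ) : HasFDerivAt ph0 invL0 p := by
  have h1 : HasFDerivAt (fun p : ℝ × ℝ => 1 - p.1 - p.2)
      (-(ContinuousLinearMap.fst ℝ ℝ ℝ) - ContinuousLinearMap.snd ℝ ℝ ℝ) p := by
    have h := ((hasFDerivAt_const (1 : ℝ) p).sub hasFDerivAt_fst).sub
      (hasFDerivAt_snd (𝕜 := ℝ) (E := ℝ) (F := ℝ) (p := p))
    exact h.congr_fderiv (by simp)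
  exact h1.prodMk hasFDerivAt_snd

theorem inv_hasFDerivAt_ph1 (p : ℝ × ℝ) : HasFDerivAt ph1 invL1 p :=
  hasFDerivAt_snd.prodMk hasFDerivAt_fst

theorem inv_fderiv_ph0 {w : ℝ × ℝ → ℝ} (hw : ContDiff ℝ 1 w) (p v : ℝ × ℝ) :
    fderiv ℝ (fun p => w (ph0 p)) p v = fderiv ℝ w (ph0 p) (invL0 v) := by
  have h1 : HasFDerivAt w (fderiv ℝ w (ph0 p)) (ph0 p) :=
    (hw.differentiable one_ne_zero _).hasFDerivAt
  have h2 := h1.comp p (inv_hasFDerivAt_ph0 p)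
  have h3 : fderiv ℝ (fun p => w (ph0 p)) p = (fderiv ℝ w (ph0 p)).comp invL0 := h2.fderiv
  rw [h3]
  rfl

theorem inv_fderiv_ph1 {w : ℝ × ℝ → ℝ} (hw : ContDiff ℝ 1 w) (p v : ℝ × ℝ) :
    fderiv ℝ (fun p => w (ph1 p)) p v = fderiv ℝ w (ph1 p) (invL1 v) := by
  have h1 : HasFDerivAt w (fderiv ℝ w (ph1 p)) (ph1 p) :=
    (hw.differentiable one_ne_zero _).hasFDerivAt
  have h2 := h1.comp p (inv_hasFDerivAt_ph1 p)
  have h3 : fderiv ℝ (fun p => w (ph1 p)) p = (fderiv ℝ w (ph1 p)).comp invL1 := h2.fderiv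
  rw [h3]
  rfl

theorem dS_ph0 {w : ℝ × ℝ → ℝ} (hw : ContDiff ℝ 1 w) (p : ℝ × ℝ) :
    dS (fun p => w (ph0 p)) p = - dS w (ph0 p) := by
  unfold dS
  rw [inv_fderiv_ph0 hw, ← map_neg]
  congr 1
  simp [invL0]

theorem dT_ph0 {w : ℝ × ℝ → ℝ} (hw : ContDiff ℝ 1 w) (p : ℝ × ℝ) :
    dT (fun p => w (ph0 p)) p = dT w (ph0 p) - dS w (ph0 p) := by
  unfold dS dT
  rw [inv_fderiv_ph0 hw, ← map_sub]
  congr 1
  simp [invL0]

theorem dS_ph1 {w : ℝ × ℝ → ℝ} (hw : ContDiff ℝ 1 w) (p : ℝ × ℝ) :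
    dS (fun p => w (ph1 p)) p = dT w (ph1 p) := by
  unfold dS dT
  rw [inv_fderiv_ph1 hw]
  congr 1

theorem dT_ph1 {w : ℝ × ℝ → ℝ} (hw : ContDiff ℝ 1 w) (p : ℝ × ℝ) :
    dT (fun p => w (ph1 p)) p = dS w (ph1 p) := by
  unfold dS dT
  rw [inv_fderiv_ph1 hw]
  congr 1

/-! reflection `ph0` -/

theorem Z0_ph0 {w : ℝ × ℝ → ℝ} (hw : ContDiff ℝ 1 w) : Z0 (fun p => w (ph0 p)) = Z0 w := by
  unfold Z0
  rw [← int_ph0 (fun p => dT w p * (dT w p - dS w p))]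
  refine integral_congr_ae (Filter.Eventually.of_forall fun p => ?_)
  simp only [dS_ph0 hw, dT_ph0 hw]
  ring

theorem Z1_ph0 {w : ℝ × ℝ → ℝ} (hw : ContDiff ℝ 1 w) : Z1 (fun p => w (ph0 p)) = Z2 w := by
  unfold Z1 Z2
  rw [← int_ph0 (fun p => dS w p * (dS w p - dT w p))]
  refine integral_congr_ae (Filter.Eventually.of_forall fun p => ?_)
  simp only [dS_ph0 hw, dT_ph0 hw]
  ring

theorem Z2_ph0 {w : ℝ × ℝ → ℝ} (hw : ContDiff ℝ 1 w) : Z2 (fun p => w (ph0 p)) = Z1 w := by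
  unfold Z1 Z2
  rw [← int_ph0 (fun p => dS w p * dT w p)]
  refine integral_congr_ae (Filter.Eventually.of_forall fun p => ?_)
  simp only [dS_ph0 hw, dT_ph0 hw]
  ring

/-- the reflection `t ↦ 1 - t` of the unit interval -/
theorem inv_flip (f : ℝ → ℝ) : ∫ t in (0 : ℝ)..1, f (1 - t) = ∫ t in (0 : ℝ)..1, f t := by
  rw [intervalIntegral.integral_comp_sub_left (fun t => f t) 1]
  norm_num

theorem inv_ph0_a (t : ℝ) : ph0 (t, 0) = (1 - t, 0) := by simp [ph0]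

theorem inv_ph0_b (t : ℝ) : ph0 (1 - t, t) = (0, t) := by simp [ph0]

theorem inv_ph0_c (t : ℝ) : ph0 (0, t) = (1 - t, t) := by simp [ph0]

theorem X0_ph0 (w : ℝ × ℝ → ℝ) : X0 (fun p => w (ph0 p)) = X0 w := by
  unfold X0
  simp only [inv_ph0_a]
  exact inv_flip (fun t => w (t, 0) ^ 2)

theorem X1_ph0 (w : ℝ × ℝ → ℝ) : X1 (fun p => w (ph0 p)) = X2 w := by
  unfold X1 X2
  simp only [inv_ph0_b]

theorem X2_ph0 (w : ℝ × ℝ → ℝ) : X2 (fun p => w (ph0 p)) = X1 w := by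
  unfold X1 X2
  simp only [inv_ph0_c]

theorem Y0_ph0 (w : ℝ × ℝ → ℝ) : Y0 (fun p => w (ph0 p)) = Y0 w := by
  unfold Y0
  simp only [inv_ph0_a]
  exact inv_flip (fun t => w (t, 0))

theorem Y1_ph0 (w : ℝ × ℝ → ℝ) : Y1 (fun p => w (ph0 p)) = Y2 w := by
  unfold Y1 Y2
  simp only [inv_ph0_b]

theorem Y2_ph0 (w : ℝ × ℝ → ℝ) : Y2 (fun p => w (ph0 p)) = Y1 w := by
  unfold Y1 Y2
  simp only [inv_ph0_c]

theorem QQ_ph0 {w : ℝ × ℝ → ℝ} (hw : ContDiff ℝ 1 w) : QQ (fun p => w (ph0 p)) = QQ w := by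
  unfold QQ
  rw [Z0_ph0 hw, Z1_ph0 hw, Z2_ph0 hw]
  ring

theorem NN_ph0 (w : ℝ × ℝ → ℝ) : NN (fun p => w (ph0 p)) = NN w := by
  unfold NN
  rw [X0_ph0, X1_ph0, X2_ph0]
  ring

theorem YY_ph0 (w : ℝ × ℝ → ℝ) : YY (fun p => w (ph0 p)) = YY w := by
  unfold YY
  rw [Y0_ph0, Y1_ph0, Y2_ph0]
  ring

/-! reflection `ph1` -/

theorem inv_Z0_ph1 {w : ℝ × ℝ → ℝ} (hw : ContDiff ℝ 1 w) : Z0 (fun p => w (ph1 p)) = Z2 w := by
  unfold Z0 Z2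
  rw [← int_ph1 (fun p => dS w p * (dS w p - dT w p))]
  refine integral_congr_ae (Filter.Eventually.of_forall fun p => ?_)
  simp only [dS_ph1 hw, dT_ph1 hw]

theorem inv_Z1_ph1 {w : ℝ × ℝ → ℝ} (hw : ContDiff ℝ 1 w) : Z1 (fun p => w (ph1 p)) = Z1 w := by
  unfold Z1
  rw [← int_ph1 (fun p => dS w p * dT w p)]
  refine integral_congr_ae (Filter.Eventually.of_forall fun p => ?_)
  simp only [dS_ph1 hw, dT_ph1 hw]
  ring

theorem inv_Z2_ph1 {w : ℝ × ℝ → ℝ} (hw : ContDiff ℝ 1 w) : Z2 (fun p => w (ph1 p)) = Z0 w := by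
  unfold Z0 Z2
  rw [← int_ph1 (fun p => dT w p * (dT w p - dS w p))]
  refine integral_congr_ae (Filter.Eventually.of_forall fun p => ?_)
  simp only [dS_ph1 hw, dT_ph1 hw]

theorem QQ_ph1 {w : ℝ × ℝ → ℝ} (hw : ContDiff ℝ 1 w) : QQ (fun p => w (ph1 p)) = QQ w := by
  unfold QQ
  rw [inv_Z0_ph1 hw, inv_Z1_ph1 hw, inv_Z2_ph1 hw]
  ring

theorem X0_ph1 (w : ℝ × ℝ → ℝ) : X0 (fun p => w (ph1 p)) = X2 w := rfl

theorem Y0_ph1 (w : ℝ × ℝ → ℝ) : Y0 (fun p => w (ph1 p)) = Y2 w := rfl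

theorem inv_X1_ph1 (w : ℝ × ℝ → ℝ) : X1 (fun p => w (ph1 p)) = X1 w := by
  have h := inv_flip (fun t => w (1 - t, t) ^ 2)
  unfold X1
  rw [← h]
  simp only [ph1, sub_sub_cancel]

theorem inv_Y1_ph1 (w : ℝ × ℝ → ℝ) : Y1 (fun p => w (ph1 p)) = Y1 w := by
  have h := inv_flip (fun t => w (1 - t, t))
  unfold Y1
  rw [← h]
  simp only [ph1, sub_sub_cancel]

theorem inv_X2_ph1 (w : ℝ × ℝ → ℝ) : X2 (fun p => w (ph1 p)) = X0 w := rfl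

theorem inv_Y2_ph1 (w : ℝ × ℝ → ℝ) : Y2 (fun p => w (ph1 p)) = Y0 w := rfl

theorem NN_ph1 (w : ℝ × ℝ → ℝ) : NN (fun p => w (ph1 p)) = NN w := by
  unfold NN
  rw [X0_ph1, inv_X1_ph1, inv_X2_ph1]
  ring

theorem YY_ph1 (w : ℝ × ℝ → ℝ) : YY (fun p => w (ph1 p)) = YY w := by
  unfold YY
  rw [Y0_ph1, inv_Y1_ph1, inv_Y2_ph1]
  ring

end Pool.Agent.Stk
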