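import Pool.Agent.Stk.Inv2

/-!
# Explicit trial functions
-/

set_option autoImplicit false

noncomputable section

namespace Pool.Agent.Stk

open MeasureTheory

/-! ### integrals of quadratic polynomials -/

private lemma tri_int_inner (c0 c1 c2 c3 c4 c5 t : ℝ) :
    ∫ s in (0 : ℝ)..(1 - t), (c0 + c1 * s + c2 * t + c3 * s ^ 2 + c4 * s * t + c5 * t ^ 2)
      = c0 * (1 - t) + c1 * (1 - t) ^ 2 / 2 + c2 * t * (1 - t) + c3 * (1 - t) ^ 3 / 3
        + c4 * t * (1 - t) ^ 2 / 2 + c5 * t ^ 2 * (1 - t) := by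
  have h : ∀ x ∈ Set.uIcc (0 : ℝ) (1 - t), HasDerivAt
      (fun s : ℝ => c0 * s + c1 * s ^ 2 / 2 + c2 * t * s + c3 * s ^ 3 / 3
        + c4 * t * s ^ 2 / 2 + c5 * t ^ 2 * s)
      (c0 + c1 * x + c2 * t + c3 * x ^ 2 + c4 * x * t + c5 * t ^ 2) x := by
    intro x _
    have h1 : HasDerivAt (fun s : ℝ => s) 1 x := hasDerivAt_id x
    have h2 : HasDerivAt (fun s : ℝ => s ^ 2) (2 * x) x := by
      simpa using hasDerivAt_pow 2 x
    have h3 : HasDerivAt (fun s : ℝ => s ^ 3) (3 * x ^ 2) x := by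
      simpa using hasDerivAt_pow 3 x
    have := ((((((h1.const_mul c0).add ((h2.const_mul c1).div_const 2)).add
      (h1.const_mul (c2 * t))).add ((h3.const_mul c3).div_const 3)).add
      ((h2.const_mul (c4 * t)).div_const 2)).add (h1.const_mul (c5 * t ^ 2)))
    refine this.congr_deriv ?_
    ring
  rw [intervalIntegral.integral_eq_sub_of_hasDerivAt h
    ((by fun_prop : Continuous _).intervalIntegrable _ _)]
  ring

private lemma tri_int_outer (c0 c1 c2 c3 c4 c5 : ℝ) :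
    ∫ t in (0 : ℝ)..1, (c0 * (1 - t) + c1 * (1 - t) ^ 2 / 2 + c2 * t * (1 - t)
      + c3 * (1 - t) ^ 3 / 3 + c4 * t * (1 - t) ^ 2 / 2 + c5 * t ^ 2 * (1 - t))
      = c0 / 2 + c1 / 6 + c2 / 6 + c3 / 12 + c4 / 24 + c5 / 12 := by
  have h : ∀ x ∈ Set.uIcc (0 : ℝ) 1, HasDerivAt
      (fun t : ℝ => (c0 + c1 / 2 + c3 / 3) * t + (-c0 - c1 + c2 - c3 + c4 / 2) * (t ^ 2 / 2)
        + (c1 / 2 - c2 + c3 - c4 + c5) * (t ^ 3 / 3) + (- c3 / 3 + c4 / 2 - c5) * (t ^ 4 / 4))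
      (c0 * (1 - x) + c1 * (1 - x) ^ 2 / 2 + c2 * x * (1 - x)
      + c3 * (1 - x) ^ 3 / 3 + c4 * x * (1 - x) ^ 2 / 2 + c5 * x ^ 2 * (1 - x)) x := by
    intro x _
    have h1 : HasDerivAt (fun s : ℝ => s) 1 x := hasDerivAt_id x
    have h2 : HasDerivAt (fun s : ℝ => s ^ 2) (2 * x) x := by
      simpa using hasDerivAt_pow 2 x
    have h3 : HasDerivAt (fun s : ℝ => s ^ 3) (3 * x ^ 2) x := by
      simpa using hasDerivAt_pow 3 x
    have h4 : HasDerivAt (fun s : ℝ => s ^ 4) (4 * x ^ 3) x := by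
      simpa using hasDerivAt_pow 4 x
    have := ((((h1.const_mul (c0 + c1 / 2 + c3 / 3)).add
      ((h2.div_const 2).const_mul (-c0 - c1 + c2 - c3 + c4 / 2))).add
      ((h3.div_const 3).const_mul (c1 / 2 - c2 + c3 - c4 + c5))).add
      ((h4.div_const 4).const_mul (- c3 / 3 + c4 / 2 - c5)))
    refine this.congr_deriv ?_
    ring
  rw [intervalIntegral.integral_eq_sub_of_hasDerivAt h
    ((by fun_prop : Continuous _).intervalIntegrable _ _)]
  ring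

private lemma tri_int_Dl (c0 c1 c2 c3 c4 c5 : ℝ) :
    ∫ p in Dl, (c0 + c1 * p.1 + c2 * p.2 + c3 * p.1 ^ 2 + c4 * p.1 * p.2 + c5 * p.2 ^ 2)
      = c0 / 2 + c1 / 6 + c2 / 6 + c3 / 12 + c4 / 24 + c5 / 12 := by
  rw [int_Dl_fst (F := fun p : ℝ × ℝ =>
    c0 + c1 * p.1 + c2 * p.2 + c3 * p.1 ^ 2 + c4 * p.1 * p.2 + c5 * p.2 ^ 2) (by fun_prop)]
  simp only [tri_int_inner, tri_int_outer]

private lemma tri_int_one (c0 c1 c2 c3 c4 : ℝ) :
    ∫ t in (0 : ℝ)..1, (c0 + c1 * t + c2 * t ^ 2 + c3 * t ^ 3 + c4 * t ^ 4)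
      = c0 + c1 / 2 + c2 / 3 + c3 / 4 + c4 / 5 := by
  have h : ∀ x ∈ Set.uIcc (0 : ℝ) 1, HasDerivAt
      (fun t : ℝ => c0 * t + c1 * (t ^ 2 / 2) + c2 * (t ^ 3 / 3) + c3 * (t ^ 4 / 4)
        + c4 * (t ^ 5 / 5)) (c0 + c1 * x + c2 * x ^ 2 + c3 * x ^ 3 + c4 * x ^ 4) x := by
    intro x _
    have h1 : HasDerivAt (fun s : ℝ => s) 1 x := hasDerivAt_id x
    have h2 : HasDerivAt (fun s : ℝ => s ^ 2) (2 * x) x := by
      simpa using hasDerivAt_pow 2 x
    have h3 : HasDerivAt (fun s : ℝ => s ^ 3) (3 * x ^ 2) x := by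
      simpa using hasDerivAt_pow 3 x
    have h4 : HasDerivAt (fun s : ℝ => s ^ 4) (4 * x ^ 3) x := by
      simpa using hasDerivAt_pow 4 x
    have h5 : HasDerivAt (fun s : ℝ => s ^ 5) (5 * x ^ 4) x := by
      simpa using hasDerivAt_pow 5 x
    have := (((((h1.const_mul c0).add ((h2.div_const 2).const_mul c1)).add
      ((h3.div_const 3).const_mul c2)).add ((h4.div_const 4).const_mul c3)).add
      ((h5.div_const 5).const_mul c4))
    refine this.congr_deriv ?_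
    ring
  rw [intervalIntegral.integral_eq_sub_of_hasDerivAt h
    ((by fun_prop : Continuous _).intervalIntegrable _ _)]
  ring

/-! ### linear functions -/

private lemma tri_lin_fderiv (a b : ℝ) (p : ℝ × ℝ) :
    HasFDerivAt (fun p : ℝ × ℝ => a * p.1 + b * p.2)
      (a • ContinuousLinearMap.fst ℝ ℝ ℝ + b • ContinuousLinearMap.snd ℝ ℝ ℝ) p :=
  (hasFDerivAt_fst.const_mul a).add (hasFDerivAt_snd.const_mul b)

private lemma tri_dS_lin (a b : ℝ) (p : ℝ × ℝ) :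
    dS (fun p : ℝ × ℝ => a * p.1 + b * p.2) p = a := by
  unfold dS
  rw [(tri_lin_fderiv a b p).fderiv]
  simp

private lemma tri_dT_lin (a b : ℝ) (p : ℝ × ℝ) :
    dT (fun p : ℝ × ℝ => a * p.1 + b * p.2) p = b := by
  unfold dT
  rw [(tri_lin_fderiv a b p).fderiv]
  simp

/-! ### the trial function -/

private def triW (p : ℝ × ℝ) : ℝ := (2 * p.1 + p.2 - 1) * (1 - 6 / 5 * p.2)

private lemma triW_fderiv (p : ℝ × ℝ) :
    HasFDerivAt triW
      ((2 * p.1 + p.2 - 1) • (-((6 / 5 : ℝ) • ContinuousLinearMap.snd ℝ ℝ ℝ)) +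
        (1 - 6 / 5 * p.2) • ((2 : ℝ) • ContinuousLinearMap.fst ℝ ℝ ℝ
          + ContinuousLinearMap.snd ℝ ℝ ℝ)) p :=
  ((((hasFDerivAt_fst.const_mul 2).add hasFDerivAt_snd).sub_const 1)).mul
    ((hasFDerivAt_snd.const_mul (6 / 5)).const_sub 1)

private lemma triW_dS (p : ℝ × ℝ) : dS triW p = 2 * (1 - 6 / 5 * p.2) := by
  unfold dS
  rw [(triW_fderiv p).fderiv]
  simp
  ring

private lemma triW_dT (p : ℝ × ℝ) :
    dT triW p = (1 - 6 / 5 * p.2) - 6 / 5 * (2 * p.1 + p.2 - 1) := by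
  unfold dT
  rw [(triW_fderiv p).fderiv]
  simp
  ring

private lemma triW_contDiff {k : WithTop ℕ∞} : ContDiff ℝ k triW := by
  unfold triW
  fun_prop

private lemma triW_Z0 : Z0 triW = -1 / 10 := by
  have : Z0 triW = ∫ p in Dl, ((11 / 25 : ℝ) + (-144 / 25) * p.1
      + (-12 / 25) * p.2 + 144 / 25 * p.1 ^ 2 + 144 / 25 * p.1 * p.2 + 0 * p.2 ^ 2) := by
    unfold Z0
    congr 1
    funext p
    rw [triW_dS, triW_dT]
    ring
  rw [this, tri_int_Dl]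
  norm_num

private lemma triW_Z1 : Z1 triW = 11 / 25 := by
  have : Z1 triW = ∫ p in Dl, ((22 / 5 : ℝ) + (-24 / 5) * p.1
      + (-252 / 25) * p.2 + 0 * p.1 ^ 2 + 144 / 25 * p.1 * p.2 + 144 / 25 * p.2 ^ 2) := by
    unfold Z1
    congr 1
    funext p
    rw [triW_dS, triW_dT]
    ring
  rw [this, tri_int_Dl]
  norm_num

private lemma triW_Z2 : Z2 triW = 11 / 25 := by
  have : Z2 triW = ∫ p in Dl, ((-2 / 5 : ℝ) + (24 / 5) * p.1
      + (12 / 25) * p.2 + 0 * p.1 ^ 2 + (-144 / 25) * p.1 * p.2 + 0 * p.2 ^ 2) := by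
    unfold Z2
    congr 1
    funext p
    rw [triW_dS, triW_dT]
    ring
  rw [this, tri_int_Dl]
  norm_num

private lemma triW_X0 : X0 triW = 1 / 3 := by
  have : X0 triW = ∫ t in (0 : ℝ)..1, ((1 : ℝ) + (-4) * t + 4 * t ^ 2 + 0 * t ^ 3 + 0 * t ^ 4) := by
    unfold X0 triW
    congr 1
    funext t
    ring
  rw [this, tri_int_one]
  norm_num

private lemma triW_X1 : X1 triW = 68 / 375 := by
  have : X1 triW = ∫ t in (0 : ℝ)..1, ((1 : ℝ) + (-22 / 5) * t + 181 / 25 * t ^ 2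
      + (-132 / 25) * t ^ 3 + 36 / 25 * t ^ 4) := by
    unfold X1 triW
    congr 1
    funext t
    ring
  rw [this, tri_int_one]
  norm_num

private lemma triW_X2 : X2 triW = 68 / 375 := by
  have : X2 triW = ∫ t in (0 : ℝ)..1, ((1 : ℝ) + (-22 / 5) * t + 181 / 25 * t ^ 2
      + (-132 / 25) * t ^ 3 + 36 / 25 * t ^ 4) := by
    unfold X2 triW
    congr 1
    funext t
    ring
  rw [this, tri_int_one]
  norm_num

private lemma triW_Y0 : Y0 triW = 0 := by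
  have : Y0 triW = ∫ t in (0 : ℝ)..1, ((-1 : ℝ) + 2 * t + 0 * t ^ 2 + 0 * t ^ 3 + 0 * t ^ 4) := by
    unfold Y0 triW
    congr 1
    funext t
    ring
  rw [this, tri_int_one]
  norm_num

private lemma triW_Y1 : Y1 triW = 3 / 10 := by
  have : Y1 triW = ∫ t in (0 : ℝ)..1, ((1 : ℝ) + (-11 / 5) * t + 6 / 5 * t ^ 2
      + 0 * t ^ 3 + 0 * t ^ 4) := by
    unfold Y1 triW
    congr 1
    funext t
    ring
  rw [this, tri_int_one]
  norm_num

private lemma triW_Y2 : Y2 triW = -3 / 10 := by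
  have : Y2 triW = ∫ t in (0 : ℝ)..1, ((-1 : ℝ) + (11 / 5) * t + (-6 / 5) * t ^ 2
      + 0 * t ^ 3 + 0 * t ^ 4) := by
    unfold Y2 triW
    congr 1
    funext t
    ring
  rw [this, tri_int_one]
  norm_num

/-- trial function `(2 s + t - 1) (1 - 6/5 t)`: `YY = 0`, `NN = 0.696`, `QQ = 0.78` -/
theorem tau_le {k : WithTop ℕ∞} (hk : 1 ≤ k) : tau k ≤ 65 / 58 := by
  unfold tau
  apply csInf_le
  · refine ⟨0, ?_⟩
    rintro x ⟨w, hw, -, -, rfl⟩
    exact div_nonneg (QQ_nonneg (hw.of_le hk)) (NN_nonneg hw.continuous)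
  · refine ⟨triW, triW_contDiff, ?_, ?_, ?_⟩
    · unfold YY
      rw [triW_Y0, triW_Y1, triW_Y2]
      norm_num
    · unfold NN
      rw [triW_X0, triW_X1, triW_X2]
      norm_num
    · unfold QQ NN
      rw [triW_X0, triW_X1, triW_X2, triW_Z0, triW_Z1, triW_Z2]
      norm_num

/-! linear functions `α s + β t` -/

private lemma tri_int_Dl_const (c : ℝ) : ∫ _p in Dl, c = c / 2 := by
  have := tri_int_Dl c 0 0 0 0 0
  simpa using this

theorem Z0_lin (a b : ℝ) : Z0 (fun p => a * p.1 + b * p.2) = b * (b - a) / 2 := by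
  unfold Z0
  simp only [tri_dS_lin, tri_dT_lin]
  rw [tri_int_Dl_const]

theorem Z1_lin (a b : ℝ) : Z1 (fun p => a * p.1 + b * p.2) = a * b / 2 := by
  unfold Z1
  simp only [tri_dS_lin, tri_dT_lin]
  rw [tri_int_Dl_const]

theorem Z2_lin (a b : ℝ) : Z2 (fun p => a * p.1 + b * p.2) = a * (a - b) / 2 := by
  unfold Z2
  simp only [tri_dS_lin, tri_dT_lin]
  rw [tri_int_Dl_const]

theorem X0_lin (a b : ℝ) : X0 (fun p => a * p.1 + b * p.2) = a ^ 2 / 3 := by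
  have : X0 (fun p => a * p.1 + b * p.2) =
      ∫ t in (0 : ℝ)..1, ((0 : ℝ) + 0 * t + a ^ 2 * t ^ 2 + 0 * t ^ 3 + 0 * t ^ 4) := by
    unfold X0
    congr 1
    funext t
    ring
  rw [this, tri_int_one]
  ring

theorem X1_lin (a b : ℝ) : X1 (fun p => a * p.1 + b * p.2) = (a ^ 2 + a * b + b ^ 2) / 3 := by
  have : X1 (fun p => a * p.1 + b * p.2) =
      ∫ t in (0 : ℝ)..1, (a ^ 2 + (2 * a * (b - a)) * t + (b - a) ^ 2 * t ^ 2
        + 0 * t ^ 3 + 0 * t ^ 4) := by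
    unfold X1
    congr 1
    funext t
    ring
  rw [this, tri_int_one]
  ring

theorem X2_lin (a b : ℝ) : X2 (fun p => a * p.1 + b * p.2) = b ^ 2 / 3 := by
  have : X2 (fun p => a * p.1 + b * p.2) =
      ∫ t in (0 : ℝ)..1, ((0 : ℝ) + 0 * t + b ^ 2 * t ^ 2 + 0 * t ^ 3 + 0 * t ^ 4) := by
    unfold X2
    congr 1
    funext t
    ring
  rw [this, tri_int_one]
  ring

theorem Y0_lin (a b : ℝ) : Y0 (fun p => a * p.1 + b * p.2) = a / 2 := by
  have : Y0 (fun p => a * p.1 + b * p.2) =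
      ∫ t in (0 : ℝ)..1, ((0 : ℝ) + a * t + 0 * t ^ 2 + 0 * t ^ 3 + 0 * t ^ 4) := by
    unfold Y0
    congr 1
    funext t
    ring
  rw [this, tri_int_one]
  ring

theorem Y1_lin (a b : ℝ) : Y1 (fun p => a * p.1 + b * p.2) = (a + b) / 2 := by
  have : Y1 (fun p => a * p.1 + b * p.2) =
      ∫ t in (0 : ℝ)..1, (a + (b - a) * t + 0 * t ^ 2 + 0 * t ^ 3 + 0 * t ^ 4) := by
    unfold Y1
    congr 1
    funext t
    ring
  rw [this, tri_int_one]
  ring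

theorem Y2_lin (a b : ℝ) : Y2 (fun p => a * p.1 + b * p.2) = b / 2 := by
  have : Y2 (fun p => a * p.1 + b * p.2) =
      ∫ t in (0 : ℝ)..1, ((0 : ℝ) + b * t + 0 * t ^ 2 + 0 * t ^ 3 + 0 * t ^ 4) := by
    unfold Y2
    congr 1
    funext t
    ring
  rw [this, tri_int_one]
  ring

end Pool.Agent.Stk
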