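import Pool.Agent.Stk.A1
import Pool.Agent.Stk.Trial

/-!
# Odd near-minimisers on the equilateral triangle
-/

set_option autoImplicit false

noncomputable section

namespace Pool.Agent.Stk

open MeasureTheory

variable {k : WithTop ℕ∞}

theorem near_ph0_ph0 (p : ℝ × ℝ) : ph0 (ph0 p) = p := by
  simp only [ph0]
  ext
  · simp only
    ring
  · rfl

theorem near_ph1_ph1 (p : ℝ × ℝ) : ph1 (ph1 p) = p := by
  simp only [ph1]

theorem near_braid (p : ℝ × ℝ) : ph1 (ph0 (ph1 p)) = ph0 (ph1 (ph0 p)) := by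
  simp only [ph0, ph1]
  ext
  · simp only
    ring
  · simp only
    ring

theorem near_braid' (p : ℝ × ℝ) : ph0 (ph1 (ph0 p)) = ph1 (ph0 (ph1 p)) :=
  (near_braid p).symm

theorem near_YY_add {f g : ℝ × ℝ → ℝ} (hf : Continuous f) (hg : Continuous g) :
    YY (fun p => f p + g p) = YY f + YY g := by
  simp only [YY]
  rw [Y0_add hf hg, Y1_add hf hg, Y2_add hf hg]
  ring

theorem near_YY_smul (c : ℝ) (f : ℝ × ℝ → ℝ) :
    YY (fun p => c * f p) = c * YY f := by
  simp only [YY, Y0, Y1, Y2]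
  rw [intervalIntegral.integral_const_mul, intervalIntegral.integral_const_mul,
    intervalIntegral.integral_const_mul]
  ring

/-- first splitting -/
theorem near_QQ_split {w : ℝ × ℝ → ℝ} (hw : ContDiff ℝ 1 w) :
    QQ w = QQ (fun p => 1 / 2 * (w p + w (ph0 p))) + QQ (fun p => 1 / 2 * (w p - w (ph0 p))) := by
  have hw0 : ContDiff ℝ 1 (fun p => w (ph0 p)) := hw.comp contDiff_ph0
  have h1 := QQ_par hw hw0
  have h2 := QQ_ph0 hw
  have h3 := QQ_smul (1 / 2) (w := fun p => w p + w (ph0 p)) (hw.add hw0)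
  have h4 := QQ_smul (1 / 2) (w := fun p => w p - w (ph0 p)) (hw.sub hw0)
  rw [h3, h4]
  linarith

theorem near_NN_split {w : ℝ × ℝ → ℝ} (hw : Continuous w) :
    NN w = NN (fun p => 1 / 2 * (w p + w (ph0 p))) + NN (fun p => 1 / 2 * (w p - w (ph0 p))) := by
  have hw0 : Continuous (fun p => w (ph0 p)) :=
    hw.comp (contDiff_ph0 (k := 0)).continuous
  have h1 := NN_par hw hw0
  have h2 := NN_ph0 w
  have h3 := NN_smul (1 / 2) (fun p => w p + w (ph0 p))
  have h4 := NN_smul (1 / 2) (fun p => w p - w (ph0 p))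
  rw [h3, h4]
  linarith

/-- second splitting -/
theorem near_QQ_split2 {f : ℝ × ℝ → ℝ} (hf : ContDiff ℝ 1 f) (h0 : ∀ p, f (ph0 p) = f p) :
    QQ f = QQ (fun p => 1 / 3 * (f p + f (ph1 p) + f (ph1 (ph0 p)))) +
      4 / 3 * QQ (fun p => 1 / 2 * (f p - f (ph1 p))) := by
  have hf1 : ContDiff ℝ 1 (fun p => f (ph1 p)) := hf.comp contDiff_ph1
  have hf2 : ContDiff ℝ 1 (fun p => f (ph1 (ph0 p))) := hf1.comp contDiff_ph0
  have e3 := QQ_three hf hf1 hf2
  -- the norms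
  have q1 : QQ (fun p => f (ph1 p)) = QQ f := QQ_ph1 hf
  have q2 : QQ (fun p => f (ph1 (ph0 p))) = QQ f := by
    rw [← q1]
    exact QQ_ph0 hf1
  -- the differences
  have d1 : QQ (fun p => f p - f (ph1 (ph0 p))) = QQ (fun p => f p - f (ph1 p)) := by
    have := QQ_ph0 (w := fun p => f p - f (ph1 p)) (hf.sub hf1)
    rw [← this]
    simp only [h0]
  have d2 : QQ (fun p => f (ph1 p) - f (ph1 (ph0 p))) = QQ (fun p => f p - f (ph1 (ph0 p))) := by
    have := QQ_ph1 (w := fun p => f p - f (ph1 (ph0 p))) (hf.sub hf2)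
    rw [← this]
    simp only [near_braid, h0]
  have s1 := QQ_smul (1 / 3) (w := fun p => f p + f (ph1 p) + f (ph1 (ph0 p)))
    ((hf.add hf1).add hf2)
  have s2 := QQ_smul (1 / 2) (w := fun p => f p - f (ph1 p)) (hf.sub hf1)
  rw [s1, s2]
  rw [d2, d1, q1, q2] at e3
  linarith

theorem near_NN_split2 {f : ℝ × ℝ → ℝ} (hf : Continuous f) (h0 : ∀ p, f (ph0 p) = f p) :
    NN f = NN (fun p => 1 / 3 * (f p + f (ph1 p) + f (ph1 (ph0 p)))) +
      4 / 3 * NN (fun p => 1 / 2 * (f p - f (ph1 p))) := by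
  have hf1 : Continuous (fun p => f (ph1 p)) := hf.comp (contDiff_ph1 (k := 0)).continuous
  have hf2 : Continuous (fun p => f (ph1 (ph0 p))) :=
    hf1.comp (contDiff_ph0 (k := 0)).continuous
  have e3 := NN_three hf hf1 hf2
  have q1 : NN (fun p => f (ph1 p)) = NN f := NN_ph1 f
  have q2 : NN (fun p => f (ph1 (ph0 p))) = NN f := by
    rw [← q1]
    exact NN_ph0 (fun p => f (ph1 p))
  have d1 : NN (fun p => f p - f (ph1 (ph0 p))) = NN (fun p => f p - f (ph1 p)) := by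
    have := NN_ph0 (fun p => f p - f (ph1 p))
    rw [← this]
    simp only [h0]
  have d2 : NN (fun p => f (ph1 p) - f (ph1 (ph0 p))) = NN (fun p => f p - f (ph1 (ph0 p))) := by
    have := NN_ph1 (fun p => f p - f (ph1 (ph0 p)))
    rw [← this]
    simp only [near_braid, h0]
  have s1 := NN_smul (1 / 3) (fun p => f p + f (ph1 p) + f (ph1 (ph0 p)))
  have s2 := NN_smul (1 / 2) (fun p => f p - f (ph1 p))
  rw [s1, s2]
  rw [d2, d1, q1, q2] at e3
  linarith

/-- decomposition of a function with vanishing boundary integral: `o₁ = (w - w∘ph0)/2`,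
`f = (w + w∘ph0)/2`, `a = (f + f∘ph1 + f∘ph1∘ph0)/3`, `o₂ = ((f - f∘ph1)/2)∘ph0∘ph1` -/
theorem decomp (hk : 1 ≤ k) {w : ℝ × ℝ → ℝ} (hw : ContDiff ℝ k w) (hY : YY w = 0) :
    ∃ a o₁ o₂ : ℝ × ℝ → ℝ, ContDiff ℝ k a ∧ ContDiff ℝ k o₁ ∧ ContDiff ℝ k o₂ ∧
      Odd0 o₁ ∧ Odd0 o₂ ∧ 3 / 2 * NN a ≤ QQ a ∧
      QQ w = QQ a + QQ o₁ + 4 / 3 * QQ o₂ ∧ NN w = NN a + NN o₁ + 4 / 3 * NN o₂ := by
  have hw1 : ContDiff ℝ 1 w := hw.of_le hk
  have hw0 : ContDiff ℝ k (fun p => w (ph0 p)) := hw.comp contDiff_ph0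
  obtain ⟨f, hfdef⟩ : ∃ f : ℝ × ℝ → ℝ, f = fun p => 1 / 2 * (w p + w (ph0 p)) := ⟨_, rfl⟩
  obtain ⟨g, hgdef⟩ : ∃ g : ℝ × ℝ → ℝ, g = fun p => 1 / 2 * (f p - f (ph1 p)) := ⟨_, rfl⟩
  have hf : ContDiff ℝ k f := by
    rw [hfdef]
    exact contDiff_const.mul (hw.add hw0)
  have hf1 : ContDiff ℝ k (fun p => f (ph1 p)) := hf.comp contDiff_ph1
  have hf2 : ContDiff ℝ k (fun p => f (ph1 (ph0 p))) := hf1.comp contDiff_ph0
  have hg : ContDiff ℝ k g := by
    rw [hgdef]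
    exact contDiff_const.mul (hf.sub hf1)
  have f0 : ∀ p, f (ph0 p) = f p := by
    intro p
    rw [hfdef]
    simp only [near_ph0_ph0]
    ring
  have g1 : ∀ p, g (ph1 p) = - g p := by
    intro p
    rw [hgdef]
    simp only [near_ph1_ph1]
    ring
  have ha : ContDiff ℝ k (fun p => 1 / 3 * (f p + f (ph1 p) + f (ph1 (ph0 p)))) :=
    contDiff_const.mul ((hf.add hf1).add hf2)
  have ho2 : ContDiff ℝ k (fun p => g (ph0 (ph1 p))) :=
    (hg.comp contDiff_ph0).comp contDiff_ph1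
  have hYf : YY f = 0 := by
    rw [hfdef, near_YY_smul, near_YY_add hw.continuous hw0.continuous, YY_ph0, hY]
    ring
  refine ⟨fun p => 1 / 3 * (f p + f (ph1 p) + f (ph1 (ph0 p))),
    fun p => 1 / 2 * (w p - w (ph0 p)), fun p => g (ph0 (ph1 p)), ha,
    contDiff_const.mul (hw.sub hw0), ho2, ?_, ?_, ?_, ?_, ?_⟩
  · intro p
    simp only [near_ph0_ph0]
    ring
  · intro p
    simp only [near_braid', g1]
  · refine sym_bound (ha.of_le hk) ?_ ?_ ?_
    · intro p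
      simp only [near_ph0_ph0, f0]
      ring
    · intro p
      simp only [near_ph1_ph1, near_braid, f0]
      ring
    · rw [near_YY_smul, near_YY_add (hf.add hf1).continuous hf2.continuous,
        near_YY_add hf.continuous hf1.continuous, YY_ph1 f,
        YY_ph0 (fun p => f (ph1 p)), YY_ph1 f, hYf]
      ring
  · have h1 := near_QQ_split hw1
    have h2 := near_QQ_split2 (hf.of_le hk) f0
    rw [← hfdef] at h1
    rw [← hgdef] at h2
    have h3 : QQ (fun p => g (ph0 (ph1 p))) = QQ g := by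
      rw [← QQ_ph0 (hg.of_le hk)]
      exact QQ_ph1 (w := fun p => g (ph0 p)) ((hg.comp contDiff_ph0).of_le hk)
    rw [h3]
    linarith
  · have h1 := near_NN_split hw.continuous
    have h2 := near_NN_split2 hf.continuous f0
    rw [← hfdef] at h1
    rw [← hgdef] at h2
    have h3 : NN (fun p => g (ph0 (ph1 p))) = NN g := by
      rw [← NN_ph0 g]
      exact NN_ph1 (fun p => g (ph0 p))
    rw [h3]
    linarith

/-- the set of quotients is bounded below -/
theorem near_bdd (hk : 1 ≤ k) : BddBelow {x : ℝ | ∃ w : ℝ × ℝ → ℝ, ContDiff ℝ k w ∧ YY w = 0 ∧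
    NN w ≠ 0 ∧ x = QQ w / NN w} := by
  refine ⟨0, ?_⟩
  rintro x ⟨w, hw, -, -, rfl⟩
  exact div_nonneg (QQ_nonneg (hw.of_le hk)) (NN_nonneg hw.continuous)

/-- the linear function `2 s + t - 1` -/
theorem near_ne : {x : ℝ | ∃ w : ℝ × ℝ → ℝ, ContDiff ℝ k w ∧ YY w = 0 ∧
    NN w ≠ 0 ∧ x = QQ w / NN w}.Nonempty := by
  refine ⟨_, fun p => 2 * p.1 + 1 * p.2 - 1, ?_, ?_, ?_, rfl⟩
  · fun_prop
  · simp only [YY, Y0, Y1, Y2]
    have e0 : (∫ t in (0 : ℝ)..1, (2 * t + 1 * 0 - 1)) = 0 := by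
      have : (fun t : ℝ => 2 * t + 1 * 0 - 1) = fun t => 2 * t - 1 := by ext t; ring
      rw [this, intervalIntegral.integral_sub (by apply Continuous.intervalIntegrable; fun_prop)
        (by apply Continuous.intervalIntegrable; fun_prop), intervalIntegral.integral_const_mul,
        integral_id]
      norm_num
    have e1 : (∫ t in (0 : ℝ)..1, (2 * (1 - t) + 1 * t - 1)) = 1 / 2 := by
      have : (fun t : ℝ => 2 * (1 - t) + 1 * t - 1) = fun t => 1 - t := by ext t; ring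
      rw [this, intervalIntegral.integral_sub (by apply Continuous.intervalIntegrable; fun_prop)
        (by apply Continuous.intervalIntegrable; fun_prop), integral_id]
      norm_num
    have e2 : (∫ t in (0 : ℝ)..1, (2 * (0 : ℝ) + 1 * t - 1)) = - (1 / 2) := by
      have : (fun t : ℝ => 2 * (0 : ℝ) + 1 * t - 1) = fun t => t - 1 := by ext t; ring
      rw [this, intervalIntegral.integral_sub (by apply Continuous.intervalIntegrable; fun_prop)
        (by apply Continuous.intervalIntegrable; fun_prop), integral_id]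
      norm_num
    rw [e0, e1, e2]
    norm_num
  · have h0 : 0 < X0 (fun p : ℝ × ℝ => 2 * p.1 + 1 * p.2 - 1) := by
      simp only [X0]
      have : (fun t : ℝ => (2 * t + 1 * 0 - 1) ^ 2) = fun t => 4 * t ^ 2 - 4 * t + 1 := by
        ext t; ring
      rw [this, intervalIntegral.integral_add (by apply Continuous.intervalIntegrable; fun_prop)
        (by apply Continuous.intervalIntegrable; fun_prop),
        intervalIntegral.integral_sub (by apply Continuous.intervalIntegrable; fun_prop)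
        (by apply Continuous.intervalIntegrable; fun_prop), intervalIntegral.integral_const_mul,
        intervalIntegral.integral_const_mul, integral_id, integral_pow]
      norm_num
    have h1 : 0 ≤ X1 (fun p : ℝ × ℝ => 2 * p.1 + 1 * p.2 - 1) := X1_nonneg _
    have h2 : 0 ≤ X2 (fun p : ℝ × ℝ => 2 * p.1 + 1 * p.2 - 1) := by
      simp only [X2]
      exact intervalIntegral.integral_nonneg zero_le_one (fun t _ => sq_nonneg _)
    simp only [NN]
    intro h
    linarith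

theorem tau_ge (hk : 1 ≤ k) : 1.1 ≤ tau k := by
  refine le_csInf near_ne ?_
  rintro x ⟨w, hw, hY, hN, rfl⟩
  have hpos : 0 < NN w := lt_of_le_of_ne (NN_nonneg hw.continuous) (Ne.symm hN)
  obtain ⟨a, o₁, o₂, ha, h1, h2, ho1, ho2, hA, hQ, hNN⟩ := decomp hk hw hY
  have e1 := odd_iso ho1 (h1.of_le hk)
  have e2 := odd_iso ho2 (h2.of_le hk)
  have na := NN_nonneg ha.continuous
  rw [le_div_iff₀ hpos, hQ, hNN]
  nlinarith

theorem near_YY_odd {g : ℝ × ℝ → ℝ} (ho : Odd0 g) : YY g = 0 := by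
  simp only [YY]
  rw [odd_Y0 ho, odd_Y2 ho]
  ring

theorem tau_le_of_odd (hk : 1 ≤ k) {g : ℝ × ℝ → ℝ} (hg : ContDiff ℝ k g) (ho : Odd0 g) :
    tau k * NN g ≤ QQ g := by
  by_cases h : NN g = 0
  · rw [h, mul_zero]
    exact QQ_nonneg (hg.of_le hk)
  · have hpos : 0 < NN g := lt_of_le_of_ne (NN_nonneg hg.continuous) (Ne.symm h)
    have := csInf_le (near_bdd hk) (a := QQ g / NN g) ⟨g, hg, near_YY_odd ho, h, rfl⟩
    rw [le_div_iff₀ hpos] at this
    exact this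

/-- scaling of an odd function -/
theorem near_scale (hk : 1 ≤ k) {c : ℝ} {g : ℝ × ℝ → ℝ} (hg : ContDiff ℝ k g) (ho : Odd0 g)
    (hpos : 0 < NN g) (hle : QQ g ≤ c * NN g) :
    ∃ g : ℝ × ℝ → ℝ, ContDiff ℝ k g ∧ Odd0 g ∧ NN g = 1 ∧ QQ g ≤ c := by
  have hs : ((Real.sqrt (NN g))⁻¹) ^ 2 = (NN g)⁻¹ := by
    rw [inv_pow, Real.sq_sqrt hpos.le]
  refine ⟨fun p => (Real.sqrt (NN g))⁻¹ * g p, contDiff_const.mul hg, ?_, ?_, ?_⟩
  · intro p
    simp only [ho p]
    ring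
  · rw [NN_smul, hs, inv_mul_cancel₀ hpos.ne']
  · rw [QQ_smul _ (hg.of_le hk), hs, inv_mul_le_iff₀ hpos]
    linarith

theorem exists_odd_near (hk : 1 ≤ k) {δ : ℝ} (hδ : 0 < δ) :
    ∃ g : ℝ × ℝ → ℝ, ContDiff ℝ k g ∧ Odd0 g ∧ NN g = 1 ∧ QQ g ≤ tau k + δ := by
  -- a smaller `δ`
  obtain ⟨η, hη0, hηδ, hη⟩ : ∃ η : ℝ, 0 < η ∧ η ≤ δ ∧ tau k + η < 3 / 2 := by
    refine ⟨min δ (1 / 10), lt_min hδ (by norm_num), min_le_left _ _, ?_⟩
    have h1 := tau_le hk
    have h2 : min δ (1 / 10) ≤ 1 / 10 := min_le_right _ _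
    linarith
  suffices h : ∃ g : ℝ × ℝ → ℝ, ContDiff ℝ k g ∧ Odd0 g ∧ NN g = 1 ∧ QQ g ≤ tau k + η by
    obtain ⟨g, h1, h2, h3, h4⟩ := h
    exact ⟨g, h1, h2, h3, by linarith⟩
  obtain ⟨x, ⟨w, hw, hY, hN, rfl⟩, hlt⟩ := exists_lt_of_csInf_lt near_ne
    (show tau k < tau k + η by linarith)
  have hpos : 0 < NN w := lt_of_le_of_ne (NN_nonneg hw.continuous) (Ne.symm hN)
  rw [div_lt_iff₀ hpos] at hlt
  obtain ⟨a, o₁, o₂, ha, h1, h2, ho1, ho2, hA, hQ, hNN⟩ := decomp hk hw hY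
  have na := NN_nonneg ha.continuous
  have n1 := NN_nonneg h1.continuous
  have n2 := NN_nonneg h2.continuous
  by_cases c1 : 0 < NN o₁ ∧ QQ o₁ ≤ (tau k + η) * NN o₁
  · exact near_scale hk h1 ho1 c1.1 c1.2
  by_cases c2 : 0 < NN o₂ ∧ QQ o₂ ≤ (tau k + η) * NN o₂
  · exact near_scale hk h2 ho2 c2.1 c2.2
  exfalso
  have b1 : (tau k + η) * NN o₁ ≤ QQ o₁ := by
    by_contra hcon
    push Not at hcon
    apply c1
    refine ⟨?_, hcon.le⟩
    by_contra h0
    have h00 : NN o₁ = 0 := le_antisymm (not_lt.mp h0) n1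
    rw [h00, mul_zero] at hcon
    exact absurd (QQ_nonneg (h1.of_le hk)) (not_le.mpr hcon)
  have b2 : (tau k + η) * NN o₂ ≤ QQ o₂ := by
    by_contra hcon
    push Not at hcon
    apply c2
    refine ⟨?_, hcon.le⟩
    by_contra h0
    have h00 : NN o₂ = 0 := le_antisymm (not_lt.mp h0) n2
    rw [h00, mul_zero] at hcon
    exact absurd (QQ_nonneg (h2.of_le hk)) (not_le.mpr hcon)
  have b3 : (tau k + η) * NN a ≤ QQ a := by
    refine le_trans ?_ hA
    exact mul_le_mul_of_nonneg_right hη.le na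
  rw [hQ, hNN] at hlt
  nlinarith

end Pool.Agent.Stk
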