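import Pool.Agent.Stk.Simp
import Pool.Agent.Stk.Inv2

/-!
# Picone's inequality on the reference triangle (Barta's principle)
-/

set_option autoImplicit false

noncomputable section

namespace Pool.Agent.Stk

open MeasureTheory

/-- the regularised denominator -/
private def picD (h : ℝ → ℝ → ℝ) (e : ℝ) (x : ℝ × ℝ) : ℝ := max (h x.1 x.2) 0 + e

private lemma picD_pos (h : ℝ → ℝ → ℝ) {e : ℝ} (he : 0 < e) (x : ℝ × ℝ) : 0 < picD h e x := by
  unfold picD
  have := le_max_right (h x.1 x.2) 0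
  linarith

private lemma picD_eq {h : ℝ → ℝ → ℝ} {e : ℝ} {x : ℝ × ℝ} (hx : 0 ≤ h x.1 x.2) :
    picD h e x = h x.1 x.2 + e := by
  unfold picD
  rw [max_eq_left hx]

private lemma picD_cont {h : ℝ → ℝ → ℝ} (e : ℝ) (ch : Continuous fun x : ℝ × ℝ => h x.1 x.2) :
    Continuous (picD h e) := by
  unfold picD
  exact (ch.max continuous_const).add continuous_const

lemma pic_deriv_fst {G : ℝ × ℝ → ℝ} (hG : ContDiff ℝ 1 G) (p q : ℝ) :
    HasDerivAt (fun x => G (x, q)) (dS G (p, q)) p := by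
  have h1 : HasFDerivAt G (fderiv ℝ G (p, q)) (p, q) :=
    (hG.differentiable one_ne_zero (p, q)).hasFDerivAt
  have h2 : HasDerivAt (fun x : ℝ => (x, q)) ((1 : ℝ), (0 : ℝ)) p :=
    (hasDerivAt_id p).prodMk (hasDerivAt_const p q)
  exact h1.comp_hasDerivAt p h2

lemma pic_deriv_snd {G : ℝ × ℝ → ℝ} (hG : ContDiff ℝ 1 G) (p q : ℝ) :
    HasDerivAt (fun y => G (p, y)) (dT G (p, q)) q := by
  have h1 : HasFDerivAt G (fderiv ℝ G (p, q)) (p, q) :=
    (hG.differentiable one_ne_zero (p, q)).hasFDerivAt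
  have h2 : HasDerivAt (fun y : ℝ => (p, y)) ((0 : ℝ), (1 : ℝ)) q :=
    (hasDerivAt_const q p).prodMk (hasDerivAt_id q)
  exact h1.comp_hasDerivAt q h2

/-- pointwise: `2 a b - b² ≤ a²` in the form needed -/
private lemma pic_pt (g gp hp D : ℝ) :
    hp * (2 * g * gp / D - g ^ 2 * hp / D ^ 2) ≤ gp ^ 2 := by
  by_cases hD : D = 0
  · subst hD
    simp
    positivity
  · have h1 : gp ^ 2 - hp * (2 * g * gp / D - g ^ 2 * hp / D ^ 2) = (gp - g * hp / D) ^ 2 := by
      field_simp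
      ring
    have h2 := sq_nonneg (gp - g * hp / D)
    linarith

/-- linear bound for `G` -/
lemma pic_bound {G : ℝ × ℝ → ℝ} (hG : ContDiff ℝ 1 G)
    (hG0 : ∀ q, 0 ≤ q → q ≤ 1 → G (0, q) = 0) :
    ∃ K : ℝ, 0 ≤ K ∧ ∀ p q, 0 ≤ p → 0 ≤ q → p + q ≤ 1 → |G (p, q)| ≤ K * p := by
  obtain ⟨K, hK⟩ := isCompact_Dl.exists_bound_of_continuousOn (continuous_dS hG).continuousOn
  refine ⟨max K 0, le_max_right _ _, fun p q hp hq hpq => ?_⟩
  have hd : ∀ x ∈ Set.Icc (0 : ℝ) p, HasDerivWithinAt (fun x => G (x, q)) (dS G (x, q))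
      (Set.Icc 0 p) x := fun x _ => (pic_deriv_fst hG x q).hasDerivWithinAt
  have hb : ∀ x ∈ Set.Ico (0 : ℝ) p, ‖dS G (x, q)‖ ≤ max K 0 := by
    intro x hx
    refine (hK (x, q) ⟨hx.1, hq, ?_⟩).trans (le_max_left _ _)
    have := hx.2
    simp only
    linarith
  have h := norm_image_sub_le_of_norm_deriv_le_segment' hd hb p ⟨hp, le_rfl⟩
  rw [hG0 q hq (by linarith), sub_zero, sub_zero, Real.norm_eq_abs] at h
  exact h

private theorem pic_eps {A W0 W1 c e K : ℝ} (hA : 0 < A) (hc : 0 < c) (he : 0 < e) (hK : 0 ≤ K)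
    (hW0 : 0 ≤ W0) (hW1 : 0 ≤ W1)
    {h hp hq hpp hqq : ℝ → ℝ → ℝ}
    (ch : Continuous fun x : ℝ × ℝ => h x.1 x.2) (chp : Continuous fun x : ℝ × ℝ => hp x.1 x.2)
    (chq : Continuous fun x : ℝ × ℝ => hq x.1 x.2)
    (chpp : Continuous fun x : ℝ × ℝ => hpp x.1 x.2)
    (chqq : Continuous fun x : ℝ × ℝ => hqq x.1 x.2)
    (d1 : ∀ p q, HasDerivAt (fun x => h x q) (hp p q) p)
    (d2 : ∀ p q, HasDerivAt (fun y => h p y) (hq p q) q)
    (d11 : ∀ p q, HasDerivAt (fun x => hp x q) (hpp p q) p)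
    (d22 : ∀ p q, HasDerivAt (fun y => hq p y) (hqq p q) q)
    (harm : ∀ p q, A * hpp p q + hqq p q = 0)
    (hpos : ∀ p q, 0 ≤ p → 0 ≤ q → p + q ≤ 1 → c * p ≤ h p q)
    (base : ∀ p, 0 ≤ p → p ≤ 1 → W0 * h p 0 ≤ - hq p 0)
    (side : ∀ p, 0 ≤ p → p ≤ 1 → W1 * h p (1 - p) ≤ A * hp p (1 - p) + hq p (1 - p))
    {G : ℝ × ℝ → ℝ} (hG : ContDiff ℝ 1 G) (hG0 : ∀ q, 0 ≤ q → q ≤ 1 → G (0, q) = 0)
    (hGK : ∀ p q, 0 ≤ p → 0 ≤ q → p + q ≤ 1 → |G (p, q)| ≤ K * p) :
    W0 * ((∫ p in (0 : ℝ)..1, G (p, 0) ^ 2) - e * (K ^ 2 / c)) +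
      W1 * ((∫ q in (0 : ℝ)..1, G (1 - q, q) ^ 2) - e * (K ^ 2 / c)) ≤
      ∫ p in Dl, (A * dS G p ^ 2 + dT G p ^ 2) := by
  have hGc : Continuous G := hG.continuous
  have cD : Continuous (picD h e) := picD_cont e ch
  have hDne : ∀ x, picD h e x ≠ 0 := fun x => (picD_pos h he x).ne'
  have hDne2 : ∀ x, picD h e x ^ 2 ≠ 0 := fun x => pow_ne_zero _ (hDne x)
  have hh0 : ∀ p q, 0 ≤ p → 0 ≤ q → p + q ≤ 1 → 0 ≤ h p q := fun p q h1 h2 h3 =>
    le_trans (mul_nonneg hc.le h1) (hpos p q h1 h2 h3)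
  -- the functions
  set φ : ℝ × ℝ → ℝ := fun x => G x ^ 2 / picD h e x with hφ
  set φp : ℝ × ℝ → ℝ := fun x => 2 * G x * dS G x / picD h e x -
    G x ^ 2 * hp x.1 x.2 / picD h e x ^ 2 with hφp
  set φq : ℝ × ℝ → ℝ := fun x => 2 * G x * dT G x / picD h e x -
    G x ^ 2 * hq x.1 x.2 / picD h e x ^ 2 with hφq
  have cφ : Continuous φ := (hGc.pow 2).div cD hDne
  have cφp : Continuous φp :=
    (((continuous_const.mul hGc).mul (continuous_dS hG)).div cD hDne).sub
      (((hGc.pow 2).mul chp).div (cD.pow 2) hDne2)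
  have cφq : Continuous φq :=
    (((continuous_const.mul hGc).mul (continuous_dT hG)).div cD hDne).sub
      (((hGc.pow 2).mul chq).div (cD.pow 2) hDne2)
  set F1 : ℝ × ℝ → ℝ := fun x => A * (hpp x.1 x.2 * φ x + hp x.1 x.2 * φp x) with hF1
  set F2 : ℝ × ℝ → ℝ := fun x => hqq x.1 x.2 * φ x + hq x.1 x.2 * φq x with hF2
  have cF1 : Continuous F1 := continuous_const.mul ((chpp.mul cφ).add (chp.mul cφp))
  have cF2 : Continuous F2 := (chqq.mul cφ).add (chq.mul cφq)
  -- derivative of the flux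
  have dφp : ∀ p q, 0 ≤ h p q → HasDerivAt (fun x => G (x, q) ^ 2 / (h x q + e)) (φp (p, q)) p := by
    intro p q hn
    have hne : h p q + e ≠ 0 := by linarith
    have h1 := ((pic_deriv_fst hG p q).pow 2).div ((d1 p q).add_const e) hne
    refine h1.congr_deriv ?_
    simp only [hφp, picD_eq (x := (p, q)) hn, Pi.pow_apply]
    field_simp
    ring
  have dφq : ∀ p q, 0 ≤ h p q → HasDerivAt (fun y => G (p, y) ^ 2 / (h p y + e)) (φq (p, q)) q := by
    intro p q hn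
    have hne : h p q + e ≠ 0 := by linarith
    have h1 := ((pic_deriv_snd hG p q).pow 2).div ((d2 p q).add_const e) hne
    refine h1.congr_deriv ?_
    simp only [hφq, picD_eq (x := (p, q)) hn, Pi.pow_apply]
    field_simp
    ring
  have eφ : ∀ p q, 0 ≤ h p q → G (p, q) ^ 2 / (h p q + e) = φ (p, q) := by
    intro p q hn
    simp only [hφ, picD_eq (x := (p, q)) hn]
  -- inner integrals
  have I1 : ∀ q, 0 ≤ q → q ≤ 1 →
      ∫ s in (0 : ℝ)..(1 - q), F1 (s, q) = A * hp (1 - q) q * φ (1 - q, q) := by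
    intro q hq0 hq1
    have hle : (0 : ℝ) ≤ 1 - q := by linarith
    have hderiv : ∀ x ∈ Set.uIcc (0 : ℝ) (1 - q),
        HasDerivAt (fun x => A * hp x q * (G (x, q) ^ 2 / (h x q + e))) (F1 (x, q)) x := by
      intro x hx
      rw [Set.uIcc_of_le hle] at hx
      have hn : 0 ≤ h x q := hh0 x q hx.1 hq0 (by linarith [hx.2])
      have h1 := ((d11 x q).const_mul A).mul (dφp x q hn)
      refine h1.congr_deriv ?_
      rw [eφ x q hn]
      simp only [hF1]
      ring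
    have hint : IntervalIntegrable (fun x => F1 (x, q)) volume 0 (1 - q) :=
      (cF1.comp (continuous_id.prodMk continuous_const)).intervalIntegrable _ _
    rw [intervalIntegral.integral_eq_sub_of_hasDerivAt hderiv hint]
    rw [hG0 q hq0 hq1, eφ (1 - q) q (hh0 _ _ hle hq0 (by linarith))]
    ring
  have I2 : ∀ p, 0 ≤ p → p ≤ 1 →
      ∫ t in (0 : ℝ)..(1 - p), F2 (p, t) =
        hq p (1 - p) * φ (p, 1 - p) - hq p 0 * φ (p, 0) := by
    intro p hp0 hp1
    have hle : (0 : ℝ) ≤ 1 - p := by linarith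
    have hderiv : ∀ y ∈ Set.uIcc (0 : ℝ) (1 - p),
        HasDerivAt (fun y => hq p y * (G (p, y) ^ 2 / (h p y + e))) (F2 (p, y)) y := by
      intro y hy
      rw [Set.uIcc_of_le hle] at hy
      have hn : 0 ≤ h p y := hh0 p y hp0 hy.1 (by linarith [hy.2])
      have h1 := (d22 p y).mul (dφq p y hn)
      refine h1.congr_deriv ?_
      rw [eφ p y hn]
    have hint : IntervalIntegrable (fun y => F2 (p, y)) volume 0 (1 - p) :=
      (cF2.comp (continuous_const.prodMk continuous_id)).intervalIntegrable _ _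
    rw [intervalIntegral.integral_eq_sub_of_hasDerivAt hderiv hint]
    rw [eφ p (1 - p) (hh0 _ _ hp0 hle (by linarith)), eφ p 0 (hh0 _ _ hp0 le_rfl (by linarith))]
  -- outer integrals
  have J1 : ∫ x in Dl, F1 x = ∫ q in (0 : ℝ)..1, A * hp (1 - q) q * φ (1 - q, q) := by
    rw [int_Dl_fst cF1]
    refine intervalIntegral.integral_congr fun q hq => ?_
    rw [Set.uIcc_of_le zero_le_one] at hq
    exact I1 q hq.1 hq.2
  have J2 : ∫ x in Dl, F2 x =
      ∫ p in (0 : ℝ)..1, (hq p (1 - p) * φ (p, 1 - p) - hq p 0 * φ (p, 0)) := by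
    rw [int_Dl_snd cF2]
    refine intervalIntegral.integral_congr fun p hp => ?_
    rw [Set.uIcc_of_le zero_le_one] at hp
    exact I2 p hp.1 hp.2
  -- continuity of boundary functions
  have cb1 : Continuous fun q : ℝ => A * hp (1 - q) q * φ (1 - q, q) := by
    have c1 : Continuous fun q : ℝ => ((1 - q, q) : ℝ × ℝ) :=
      (continuous_const.sub continuous_id).prodMk continuous_id
    exact (continuous_const.mul (chp.comp c1)).mul (cφ.comp c1)
  have cb2 : Continuous fun p : ℝ => hq p (1 - p) * φ (p, 1 - p) := by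
    have c1 : Continuous fun p : ℝ => ((p, 1 - p) : ℝ × ℝ) :=
      continuous_id.prodMk (continuous_const.sub continuous_id)
    exact (chq.comp c1).mul (cφ.comp c1)
  have cb2' : Continuous fun q : ℝ => hq (1 - q) q * φ (1 - q, q) := by
    have c1 : Continuous fun q : ℝ => ((1 - q, q) : ℝ × ℝ) :=
      (continuous_const.sub continuous_id).prodMk continuous_id
    exact (chq.comp c1).mul (cφ.comp c1)
  have cb3 : Continuous fun p : ℝ => hq p 0 * φ (p, 0) := by
    have c1 : Continuous fun p : ℝ => ((p, 0) : ℝ × ℝ) := continuous_id.prodMk continuous_const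
    exact (chq.comp c1).mul (cφ.comp c1)
  have J3 : ∫ p in (0 : ℝ)..1, hq p (1 - p) * φ (p, 1 - p) =
      ∫ q in (0 : ℝ)..1, hq (1 - q) q * φ (1 - q, q) := by
    have := intervalIntegral.integral_comp_sub_left
      (f := fun p : ℝ => hq p (1 - p) * φ (p, 1 - p)) (a := 0) (b := 1) 1
    simp only [sub_zero, sub_self, sub_sub_cancel] at this
    exact this.symm
  -- the total flux
  have T1 : ∫ x in Dl, (A * (hp x.1 x.2 * φp x) + hq x.1 x.2 * φq x) =
      (∫ q in (0 : ℝ)..1, (A * hp (1 - q) q + hq (1 - q) q) * φ (1 - q, q)) +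
        ∫ p in (0 : ℝ)..1, (- hq p 0) * φ (p, 0) := by
    have e1 : ∫ x in Dl, (A * (hp x.1 x.2 * φp x) + hq x.1 x.2 * φq x) =
        ∫ x in Dl, (F1 x + F2 x) := by
      congr 1
      ext x
      have := harm x.1 x.2
      have h2 : hqq x.1 x.2 = - (A * hpp x.1 x.2) := by linarith
      simp only [hF1, hF2, h2]
      ring
    rw [e1, integral_add (integrableOn_Dl cF1) (integrableOn_Dl cF2), J1, J2,
      intervalIntegral.integral_sub (cb2.intervalIntegrable _ _) (cb3.intervalIntegrable _ _), J3]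
    have e2 : ∫ q in (0 : ℝ)..1, (A * hp (1 - q) q + hq (1 - q) q) * φ (1 - q, q) =
        (∫ q in (0 : ℝ)..1, A * hp (1 - q) q * φ (1 - q, q)) +
          ∫ q in (0 : ℝ)..1, hq (1 - q) q * φ (1 - q, q) := by
      rw [← intervalIntegral.integral_add (cb1.intervalIntegrable _ _)
        (cb2'.intervalIntegrable _ _)]
      congr 1
      ext q
      ring
    have e3 : ∫ p in (0 : ℝ)..1, (- hq p 0) * φ (p, 0) =
        - ∫ p in (0 : ℝ)..1, hq p 0 * φ (p, 0) := by
      rw [← intervalIntegral.integral_neg]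
      congr 1
      ext p
      ring
    rw [e2, e3]
    ring
  -- upper bound
  have T2 : ∫ x in Dl, (A * (hp x.1 x.2 * φp x) + hq x.1 x.2 * φq x) ≤
      ∫ x in Dl, (A * dS G x ^ 2 + dT G x ^ 2) := by
    refine setIntegral_mono ?_ ?_ ?_
    · exact integrableOn_Dl ((continuous_const.mul (chp.mul cφp)).add (chq.mul cφq))
    · exact integrableOn_Dl ((continuous_const.mul ((continuous_dS hG).pow 2)).add
        ((continuous_dT hG).pow 2))
    · intro x
      have h1 := pic_pt (G x) (dS G x) (hp x.1 x.2) (picD h e x)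
      have h2 := pic_pt (G x) (dT G x) (hq x.1 x.2) (picD h e x)
      have h3 := mul_le_mul_of_nonneg_left h1 hA.le
      simp only [hφp, hφq]
      linarith
  -- lower bounds on the boundary
  have key : ∀ p q, 0 ≤ p → 0 ≤ q → p + q ≤ 1 →
      G (p, q) ^ 2 - e * (K ^ 2 / c) ≤ h p q * φ (p, q) := by
    intro p q hp0 hq0 hpq
    have hn := hh0 p q hp0 hq0 hpq
    rw [← eφ p q hn]
    have hpos' : 0 < h p q + e := by linarith
    have h1 : h p q * (G (p, q) ^ 2 / (h p q + e)) =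
        G (p, q) ^ 2 - e * (G (p, q) ^ 2 / (h p q + e)) := by
      field_simp
      ring
    have h2 : G (p, q) ^ 2 / (h p q + e) ≤ K ^ 2 / c := by
      rw [div_le_div_iff₀ hpos' hc]
      have h3 : G (p, q) ^ 2 ≤ K ^ 2 * p ^ 2 := by
        have h4 := hGK p q hp0 hq0 hpq
        have h5 : |G (p, q)| ^ 2 ≤ (K * p) ^ 2 := pow_le_pow_left₀ (abs_nonneg _) h4 2
        rw [sq_abs] at h5
        linarith [h5, mul_pow K p 2]
      have h6 := hpos p q hp0 hq0 hpq
      have hp1 : p ≤ 1 := by linarith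
      have h7 : p ^ 2 ≤ p := by nlinarith
      calc G (p, q) ^ 2 * c ≤ (K ^ 2 * p ^ 2) * c := mul_le_mul_of_nonneg_right h3 hc.le
        _ = K ^ 2 * (c * p ^ 2) := by ring
        _ ≤ K ^ 2 * (c * p) := by
          refine mul_le_mul_of_nonneg_left ?_ (sq_nonneg K)
          exact mul_le_mul_of_nonneg_left h7 hc.le
        _ ≤ K ^ 2 * (h p q + e) := by
          refine mul_le_mul_of_nonneg_left ?_ (sq_nonneg K)
          linarith
    have h8 := mul_le_mul_of_nonneg_left h2 he.le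
    rw [h1]
    linarith
  have φnn : ∀ p q, 0 ≤ φ (p, q) := fun p q => by
    simp only [hφ]
    exact div_nonneg (sq_nonneg _) (picD_pos h he _).le
  have L0 : W0 * ((∫ p in (0 : ℝ)..1, G (p, 0) ^ 2) - e * (K ^ 2 / c)) ≤
      ∫ p in (0 : ℝ)..1, (- hq p 0) * φ (p, 0) := by
    have e1 : W0 * ((∫ p in (0 : ℝ)..1, G (p, 0) ^ 2) - e * (K ^ 2 / c)) =
        ∫ p in (0 : ℝ)..1, W0 * (G (p, 0) ^ 2 - e * (K ^ 2 / c)) := by
      have cg : Continuous fun p : ℝ => G (p, 0) ^ 2 :=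
        (hGc.comp (continuous_id.prodMk continuous_const)).pow 2
      rw [intervalIntegral.integral_const_mul, intervalIntegral.integral_sub
        (cg.intervalIntegrable _ _) (continuous_const.intervalIntegrable _ _)]
      simp
    rw [e1]
    have c1 : Continuous fun p : ℝ => ((p, 0) : ℝ × ℝ) := continuous_id.prodMk continuous_const
    refine intervalIntegral.integral_mono_on zero_le_one ?_ ?_ ?_
    · exact (continuous_const.mul (((hGc.comp c1).pow 2).sub continuous_const)).intervalIntegrable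
        _ _
    · exact ((chq.comp c1).neg.mul (cφ.comp c1)).intervalIntegrable _ _
    · intro p hp'
      have h1 := key p 0 hp'.1 le_rfl (by linarith [hp'.2])
      have h2 := base p hp'.1 hp'.2
      calc W0 * (G (p, 0) ^ 2 - e * (K ^ 2 / c)) ≤ W0 * (h p 0 * φ (p, 0)) :=
            mul_le_mul_of_nonneg_left h1 hW0
        _ = (W0 * h p 0) * φ (p, 0) := by ring
        _ ≤ (- hq p 0) * φ (p, 0) := mul_le_mul_of_nonneg_right h2 (φnn _ _)
  have L1 : W1 * ((∫ q in (0 : ℝ)..1, G (1 - q, q) ^ 2) - e * (K ^ 2 / c)) ≤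
      ∫ q in (0 : ℝ)..1, (A * hp (1 - q) q + hq (1 - q) q) * φ (1 - q, q) := by
    have c1 : Continuous fun q : ℝ => ((1 - q, q) : ℝ × ℝ) :=
      (continuous_const.sub continuous_id).prodMk continuous_id
    have e1 : W1 * ((∫ q in (0 : ℝ)..1, G (1 - q, q) ^ 2) - e * (K ^ 2 / c)) =
        ∫ q in (0 : ℝ)..1, W1 * (G (1 - q, q) ^ 2 - e * (K ^ 2 / c)) := by
      have cg : Continuous fun q : ℝ => G (1 - q, q) ^ 2 := (hGc.comp c1).pow 2
      rw [intervalIntegral.integral_const_mul, intervalIntegral.integral_sub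
        (cg.intervalIntegrable _ _) (continuous_const.intervalIntegrable _ _)]
      simp
    rw [e1]
    refine intervalIntegral.integral_mono_on zero_le_one ?_ ?_ ?_
    · exact (continuous_const.mul (((hGc.comp c1).pow 2).sub continuous_const)).intervalIntegrable
        _ _
    · exact (((continuous_const.mul (chp.comp c1)).add (chq.comp c1)).mul
        (cφ.comp c1)).intervalIntegrable _ _
    · intro q hq'
      have h1 := key (1 - q) q (by linarith [hq'.2]) hq'.1 (by linarith)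
      have h2 := side (1 - q) (by linarith [hq'.2]) (by linarith [hq'.1])
      rw [sub_sub_cancel] at h2
      calc W1 * (G (1 - q, q) ^ 2 - e * (K ^ 2 / c)) ≤ W1 * (h (1 - q) q * φ (1 - q, q)) :=
            mul_le_mul_of_nonneg_left h1 hW1
        _ = (W1 * h (1 - q) q) * φ (1 - q, q) := by ring
        _ ≤ (A * hp (1 - q) q + hq (1 - q) q) * φ (1 - q, q) :=
            mul_le_mul_of_nonneg_right h2 (φnn _ _)
  linarith [T1, T2, L0, L1]

/-- Proof: for `ε > 0` put `φ = G² / (h + ε)`.  Pointwise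
`A G_p² + G_q² ≥ A h_p φ_p + h_q φ_q = ∂_p (A h_p φ) + ∂_q (h_q φ)` (harmonicity), integrate with
`int_Dl_fst` / `int_Dl_snd` and the fundamental theorem, use `G (0, q) = 0`, `base`, `side`, and
`h φ = G² - ε G² / (h + ε) ≥ G² - ε K² / c`, where `|G (p, q)| ≤ K p` on `Dl`; let `ε → 0`. -/
theorem picone {A W0 W1 c : ℝ} (hA : 0 < A) (hc : 0 < c) (hW0 : 0 ≤ W0) (hW1 : 0 ≤ W1)
    {h hp hq hpp hqq : ℝ → ℝ → ℝ}
    (ch : Continuous fun x : ℝ × ℝ => h x.1 x.2) (chp : Continuous fun x : ℝ × ℝ => hp x.1 x.2)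
    (chq : Continuous fun x : ℝ × ℝ => hq x.1 x.2)
    (chpp : Continuous fun x : ℝ × ℝ => hpp x.1 x.2)
    (chqq : Continuous fun x : ℝ × ℝ => hqq x.1 x.2)
    (d1 : ∀ p q, HasDerivAt (fun x => h x q) (hp p q) p)
    (d2 : ∀ p q, HasDerivAt (fun y => h p y) (hq p q) q)
    (d11 : ∀ p q, HasDerivAt (fun x => hp x q) (hpp p q) p)
    (d22 : ∀ p q, HasDerivAt (fun y => hq p y) (hqq p q) q)
    (harm : ∀ p q, A * hpp p q + hqq p q = 0)
    (hpos : ∀ p q, 0 ≤ p → 0 ≤ q → p + q ≤ 1 → c * p ≤ h p q)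
    (base : ∀ p, 0 ≤ p → p ≤ 1 → W0 * h p 0 ≤ - hq p 0)
    (side : ∀ p, 0 ≤ p → p ≤ 1 → W1 * h p (1 - p) ≤ A * hp p (1 - p) + hq p (1 - p))
    {G : ℝ × ℝ → ℝ} (hG : ContDiff ℝ 1 G) (hG0 : ∀ q, 0 ≤ q → q ≤ 1 → G (0, q) = 0) :
    W0 * (∫ p in (0 : ℝ)..1, G (p, 0) ^ 2) + W1 * (∫ q in (0 : ℝ)..1, G (1 - q, q) ^ 2) ≤
      ∫ p in Dl, (A * dS G p ^ 2 + dT G p ^ 2) := by
  obtain ⟨K, hK, hGK⟩ := pic_bound hG hG0
  have hM : 0 ≤ (W0 + W1) * (K ^ 2 / c) := by positivity
  refine le_of_forall_pos_le_add fun δ hδ => ?_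
  have he : 0 < δ / ((W0 + W1) * (K ^ 2 / c) + 1) := by positivity
  have h1 := pic_eps hA hc he hK hW0 hW1 ch chp chq chpp chqq d1 d2 d11 d22 harm hpos base side
    hG hG0 hGK
  have h2 : δ / ((W0 + W1) * (K ^ 2 / c) + 1) * ((W0 + W1) * (K ^ 2 / c)) ≤ δ := by
    rw [div_mul_eq_mul_div, div_le_iff₀ (by positivity)]
    nlinarith
  nlinarith [h1, h2]

end Pool.Agent.Stk
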