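import Pool.Agent.Stk.Tri

/-!
# The Steklov quotient on the reference triangle
-/

set_option autoImplicit false

noncomputable section

namespace Pool.Agent.Stk

open MeasureTheory

/-- the affine parametrisation of the plane -/
private def pull_a (P Q R : ℂ) (p : ℝ × ℝ) : ℂ :=
  P + (p.1 : ℂ) * (Q - P) + (p.2 : ℂ) * (R - P)

/-- its linear part -/
private def pull_L (P Q R : ℂ) : ℝ × ℝ →L[ℝ] ℂ :=
  (ContinuousLinearMap.fst ℝ ℝ ℝ).smulRight (Q - P) +
    (ContinuousLinearMap.snd ℝ ℝ ℝ).smulRight (R - P)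

private theorem pull_a_eq (P Q R : ℂ) (p : ℝ × ℝ) : pull_a P Q R p = P + pull_L P Q R p := by
  have h : pull_L P Q R p = p.1 • (Q - P) + p.2 • (R - P) := rfl
  rw [h, Complex.real_smul, Complex.real_smul]
  unfold pull_a
  ring

private theorem pull_a_contDiff {k : WithTop ℕ∞} (P Q R : ℂ) : ContDiff ℝ k (pull_a P Q R) := by
  have h : pull_a P Q R = fun p => P + pull_L P Q R p := funext (pull_a_eq P Q R)
  rw [h]
  exact contDiff_const.add (pull_L P Q R).contDiff

private theorem pull_a_hasFDerivAt (P Q R : ℂ) (p : ℝ × ℝ) :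
    HasFDerivAt (pull_a P Q R) (pull_L P Q R) p := by
  have h : pull_a P Q R = fun p => P + pull_L P Q R p := funext (pull_a_eq P Q R)
  rw [h]
  exact (pull_L P Q R).hasFDerivAt.const_add P

theorem contDiff_pull {k : WithTop ℕ∞} {P Q R : ℂ} {u : ℂ → ℝ} (hu : ContDiff ℝ k u) :
    ContDiff ℝ k (pull P Q R u) :=
  hu.comp (pull_a_contDiff P Q R)

/-- the inverse parametrisation -/
private def pull_i (P Q R : ℂ) (z : ℂ) : ℝ × ℝ :=
  (((z.re - P.re) * (R - P).im - (z.im - P.im) * (R - P).re) / det2 P Q R,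
    ((z.im - P.im) * (Q - P).re - (z.re - P.re) * (Q - P).im) / det2 P Q R)

private theorem pull_i_contDiff {k : WithTop ℕ∞} (P Q R : ℂ) : ContDiff ℝ k (pull_i P Q R) := by
  have hre : ContDiff ℝ k (fun z : ℂ => z.re) := Complex.reCLM.contDiff
  have him : ContDiff ℝ k (fun z : ℂ => z.im) := Complex.imCLM.contDiff
  have h1 : ContDiff ℝ k (fun z : ℂ => z.re - P.re) := hre.sub contDiff_const
  have h2 : ContDiff ℝ k (fun z : ℂ => z.im - P.im) := him.sub contDiff_const
  exact (((h1.mul contDiff_const).sub (h2.mul contDiff_const)).div_const _).prodMk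
    (((h2.mul contDiff_const).sub (h1.mul contDiff_const)).div_const _)

private theorem pull_i_a {P Q R : ℂ} (h : det2 P Q R ≠ 0) (p : ℝ × ℝ) :
    pull_i P Q R (pull_a P Q R p) = p := by
  have e1 : (pull_a P Q R p).re - P.re = (Q - P).re * p.1 + (R - P).re * p.2 := by
    simp [pull_a]; ring
  have e2 : (pull_a P Q R p).im - P.im = (Q - P).im * p.1 + (R - P).im * p.2 := by
    simp [pull_a]; ring
  unfold pull_i
  rw [e1, e2]
  ext
  · simp only
    rw [div_eq_iff h]
    unfold det2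
    ring
  · simp only
    rw [div_eq_iff h]
    unfold det2
    ring

theorem exists_push {k : WithTop ℕ∞} {P Q R : ℂ} (h : det2 P Q R ≠ 0) {w : ℝ × ℝ → ℝ}
    (hw : ContDiff ℝ k w) : ∃ u : ℂ → ℝ, ContDiff ℝ k u ∧ pull P Q R u = w := by
  refine ⟨fun z => w (pull_i P Q R z), hw.comp (pull_i_contDiff P Q R), ?_⟩
  funext p
  exact congrArg w (pull_i_a h p)

private theorem pull_seg0 (P Q R : ℂ) (u : ℂ → ℝ) (t : ℝ) :
    u (P + (t : ℂ) * (Q - P)) = pull P Q R u (t, 0) := by
  unfold pull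
  congr 1
  push_cast
  ring

private theorem pull_seg1 (P Q R : ℂ) (u : ℂ → ℝ) (t : ℝ) :
    u (Q + (t : ℂ) * (R - Q)) = pull P Q R u (1 - t, t) := by
  unfold pull
  congr 1
  push_cast
  ring

private theorem pull_seg2 (P Q R : ℂ) (u : ℂ → ℝ) (t : ℝ) :
    u (R + (t : ℂ) * (P - R)) = pull P Q R u (0, 1 - t) := by
  unfold pull
  congr 1
  push_cast
  ring

private theorem pull_flip (f : ℝ → ℝ) :
    ∫ t in (0 : ℝ)..1, f (1 - t) = ∫ t in (0 : ℝ)..1, f t := by
  rw [intervalIntegral.integral_comp_sub_left (fun x => f x) (1 : ℝ)]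
  simp

theorem bdInt_pull (P Q R : ℂ) (u : ℂ → ℝ) : bdInt P Q R u =
    dist P Q * Y0 (pull P Q R u) + dist Q R * Y1 (pull P Q R u) +
      dist R P * Y2 (pull P Q R u) := by
  unfold bdInt segInt Y0 Y1 Y2
  simp only [pull_seg0 P Q R u, pull_seg1 P Q R u, pull_seg2 P Q R u]
  rw [pull_flip (fun t => pull P Q R u (0, t))]

theorem bdInt_sq_pull (P Q R : ℂ) (u : ℂ → ℝ) : bdInt P Q R (fun z => u z ^ 2) =
    dist P Q * X0 (pull P Q R u) + dist Q R * X1 (pull P Q R u) +
      dist R P * X2 (pull P Q R u) := by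
  unfold bdInt segInt X0 X1 X2
  simp only [pull_seg0 P Q R u, pull_seg1 P Q R u, pull_seg2 P Q R u]
  rw [pull_flip (fun t => pull P Q R u (0, t) ^ 2)]

private theorem pull_isCompact : IsCompact Dl := by
  have hsub : Dl ⊆ Set.Icc ((0 : ℝ), (0 : ℝ)) ((1 : ℝ), (1 : ℝ)) := by
    rintro ⟨s, t⟩ ⟨h1, h2, h3⟩
    simp only at h1 h2 h3
    exact ⟨⟨h1, h2⟩, ⟨by simp only; linarith, by simp only; linarith⟩⟩
  refine IsCompact.of_isClosed_subset isCompact_Icc ?_ hsub
  have e : Dl = {p : ℝ × ℝ | 0 ≤ p.1} ∩ ({p | 0 ≤ p.2} ∩ {p | p.1 + p.2 ≤ 1}) := by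
    ext p
    simp [Dl]
  rw [e]
  exact (isClosed_le continuous_const continuous_fst).inter
    ((isClosed_le continuous_const continuous_snd).inter
      (isClosed_le (continuous_fst.add continuous_snd) continuous_const))

private theorem pull_fderiv {P Q R : ℂ} {u : ℂ → ℝ} (hu : ContDiff ℝ 1 u) (p v : ℝ × ℝ) :
    fderiv ℝ (pull P Q R u) p v = fderiv ℝ u (pull_a P Q R p) (pull_L P Q R v) := by
  have h1 : HasFDerivAt u (fderiv ℝ u (pull_a P Q R p)) (pull_a P Q R p) :=
    (hu.differentiable one_ne_zero _).hasFDerivAt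
  have h2 := h1.comp p (pull_a_hasFDerivAt P Q R p)
  have h3 : fderiv ℝ (pull P Q R u) p =
      (fderiv ℝ u (pull_a P Q R p)).comp (pull_L P Q R) := h2.fderiv
  rw [h3]
  rfl

private theorem pull_lin (f : ℂ →L[ℝ] ℝ) (z : ℂ) : f z = z.re * f 1 + z.im * f Complex.I := by
  have hz : z = z.re • (1 : ℂ) + z.im • Complex.I := by
    simp only [Complex.real_smul, mul_one]
    exact (Complex.re_add_im z).symm
  conv_lhs => rw [hz]
  rw [map_add, map_smul, map_smul, smul_eq_mul, smul_eq_mul]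

private theorem pull_dS {P Q R : ℂ} {u : ℂ → ℝ} (hu : ContDiff ℝ 1 u) (p : ℝ × ℝ) :
    dS (pull P Q R u) p = (Q - P).re * fderiv ℝ u (pull_a P Q R p) 1 +
      (Q - P).im * fderiv ℝ u (pull_a P Q R p) Complex.I := by
  unfold dS
  rw [pull_fderiv hu, ← pull_lin]
  congr 1
  simp [pull_L]

private theorem pull_dT {P Q R : ℂ} {u : ℂ → ℝ} (hu : ContDiff ℝ 1 u) (p : ℝ × ℝ) :
    dT (pull P Q R u) p = (R - P).re * fderiv ℝ u (pull_a P Q R p) 1 +
      (R - P).im * fderiv ℝ u (pull_a P Q R p) Complex.I := by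
  unfold dT
  rw [pull_fderiv hu, ← pull_lin]
  congr 1
  simp [pull_L]

private theorem pull_dist (P Q : ℂ) : dist P Q ^ 2 = (Q - P).re ^ 2 + (Q - P).im ^ 2 := by
  rw [dist_comm, Complex.dist_eq, Complex.sq_norm, Complex.normSq_apply]
  ring

/-- `∇u = M^{-T} ∇w` -/
theorem dirichlet_pull {P Q R : ℂ} (h : det2 P Q R ≠ 0) {u : ℂ → ℝ} (hu : ContDiff ℝ 1 u) :
    |det2 P Q R| * dirichlet P Q R u = dist P Q ^ 2 * Z0 (pull P Q R u) +
      dist Q R ^ 2 * Z1 (pull P Q R u) + dist R P ^ 2 * Z2 (pull P Q R u) := by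
  unfold dirichlet
  rw [int_tri h, ← mul_assoc, abs_mul_abs_self]
  have hw : ContDiff ℝ 1 (pull P Q R u) := contDiff_pull hu
  have cS : Continuous (dS (pull P Q R u)) :=
    (hw.continuous_fderiv one_ne_zero).clm_apply continuous_const
  have cT : Continuous (dT (pull P Q R u)) :=
    (hw.continuous_fderiv one_ne_zero).clm_apply continuous_const
  have i0 : IntegrableOn (fun p => dT (pull P Q R u) p *
      (dT (pull P Q R u) p - dS (pull P Q R u) p)) Dl :=
    (cT.mul (cT.sub cS)).continuousOn.integrableOn_compact pull_isCompact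
  have i1 : IntegrableOn (fun p => dS (pull P Q R u) p * dT (pull P Q R u) p) Dl :=
    (cS.mul cT).continuousOn.integrableOn_compact pull_isCompact
  have i2 : IntegrableOn (fun p => dS (pull P Q R u) p *
      (dS (pull P Q R u) p - dT (pull P Q R u) p)) Dl :=
    (cS.mul (cS.sub cT)).continuousOn.integrableOn_compact pull_isCompact
  have i01 : IntegrableOn (fun p => dist P Q ^ 2 * (dT (pull P Q R u) p *
      (dT (pull P Q R u) p - dS (pull P Q R u) p)) +
      dist Q R ^ 2 * (dS (pull P Q R u) p * dT (pull P Q R u) p)) Dl :=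
    (i0.const_mul _).add (i1.const_mul _)
  unfold Z0 Z1 Z2
  rw [← integral_const_mul, ← integral_const_mul, ← integral_const_mul, ← integral_const_mul,
    ← integral_add (i0.const_mul _) (i1.const_mul _),
    ← integral_add i01 (i2.const_mul _)]
  congr 1
  funext p
  have eS := pull_dS (P := P) (Q := Q) (R := R) hu p
  have eT := pull_dT (P := P) (Q := Q) (R := R) hu p
  rw [eS, eT]
  have hd0 := pull_dist P Q
  have hd2 : dist R P ^ 2 = (R - P).re ^ 2 + (R - P).im ^ 2 := by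
    rw [dist_comm]; exact pull_dist P R
  have hd1 : dist Q R ^ 2 = ((R - P).re - (Q - P).re) ^ 2 + ((R - P).im - (Q - P).im) ^ 2 := by
    rw [pull_dist Q R]
    simp only [Complex.sub_re, Complex.sub_im]
    ring
  rw [hd0, hd1, hd2]
  unfold det2
  have ea : P + (p.1 : ℂ) * (Q - P) + (p.2 : ℂ) * (R - P) = pull_a P Q R p := rfl
  rw [ea]
  ring

end Pool.Agent.Stk
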