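import Pool.Agent.Stk.Simp
import Pool.Agent.Stk.Inv2

/-!
# The stream function estimate on the sixth part of the triangle
-/

set_option autoImplicit false

noncomputable section

namespace Pool.Agent.Stk

open MeasureTheory

private theorem sec_cs {g : ℝ → ℝ} (hg : Continuous g) {a b : ℝ} (hab : a ≤ b) :
    (∫ x in a..b, g x) ^ 2 ≤ (b - a) * ∫ x in a..b, g x ^ 2 := by
  rcases eq_or_lt_of_le hab with rfl | h
  · simp
  · set m : ℝ := ∫ x in a..b, g x with hm
    have h1 : 0 ≤ ∫ x in a..b, ((b - a) * g x - m) ^ 2 :=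
      intervalIntegral.integral_nonneg hab (fun x _ => sq_nonneg _)
    have i1 : IntervalIntegrable (fun x => (b - a) ^ 2 * g x ^ 2) volume a b :=
      (by fun_prop : Continuous fun x => (b - a) ^ 2 * g x ^ 2).intervalIntegrable _ _
    have i2 : IntervalIntegrable (fun x => 2 * (b - a) * m * g x) volume a b :=
      (by fun_prop : Continuous fun x => 2 * (b - a) * m * g x).intervalIntegrable _ _
    have i3 : IntervalIntegrable (fun _ : ℝ => m ^ 2) volume a b :=
      (by fun_prop : Continuous fun _ : ℝ => m ^ 2).intervalIntegrable _ _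
    have h2 : ∫ x in a..b, ((b - a) * g x - m) ^ 2 =
        (b - a) ^ 2 * (∫ x in a..b, g x ^ 2) - 2 * (b - a) * m * m + m ^ 2 * (b - a) := by
      have e : (fun x => ((b - a) * g x - m) ^ 2) =
          fun x => ((b - a) ^ 2 * g x ^ 2 - 2 * (b - a) * m * g x) + m ^ 2 := by
        funext x; ring
      rw [e, intervalIntegral.integral_add (i1.sub i2) i3, intervalIntegral.integral_sub i1 i2,
        intervalIntegral.integral_const_mul, intervalIntegral.integral_const_mul,
        intervalIntegral.integral_const, ← hm, smul_eq_mul]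
      ring
    rw [h2] at h1
    have h3 : 0 ≤ (b - a) * ((b - a) * (∫ x in a..b, g x ^ 2) - m ^ 2) := by
      nlinarith [h1]
    have h4 := nonneg_of_mul_nonneg_right h3 (by linarith)
    linarith

private theorem sec_V {g : ℝ → ℝ} (hg : Continuous g) (h0 : ∫ x in (0 : ℝ)..1, g x = 0)
    {p : ℝ} (hp0 : 0 ≤ p) (hp1 : p ≤ 1) :
    (∫ x in (0 : ℝ)..p, g x) ^ 2 ≤ p * (1 - p) * ∫ x in (0 : ℝ)..1, g x ^ 2 := by
  have a1 := sec_cs hg hp0
  have a2 := sec_cs hg hp1
  have ig : ∀ a b, IntervalIntegrable g volume a b := fun a b => hg.intervalIntegrable _ _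
  have ig2 : ∀ a b, IntervalIntegrable (fun x => g x ^ 2) volume a b := fun a b =>
    (by fun_prop : Continuous fun x => g x ^ 2).intervalIntegrable _ _
  have b1 := intervalIntegral.integral_add_adjacent_intervals (ig 0 p) (ig p 1)
  have b2 := intervalIntegral.integral_add_adjacent_intervals (ig2 0 p) (ig2 p 1)
  rw [← b2]
  have e : (∫ x in p..1, g x) = - ∫ x in (0 : ℝ)..p, g x := by linarith
  rw [e] at a2
  set V := ∫ x in (0 : ℝ)..p, g x
  set A := ∫ x in (0 : ℝ)..p, g x ^ 2
  set B := ∫ x in p..1, g x ^ 2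
  have c1 : V ^ 2 * (1 - p) ≤ (p - 0) * A * (1 - p) :=
    mul_le_mul_of_nonneg_right a1 (by linarith)
  have c2 : (-V) ^ 2 * p ≤ (1 - p) * B * p := mul_le_mul_of_nonneg_right a2 hp0
  nlinarith [c1, c2]

private theorem sec_pt {p H V v J a b η : ℝ} (hH : H = (1 - p) / 3) (hp0 : 0 ≤ p) (hp1 : p ≤ 1)
    (hJ : 0 ≤ J) (hV : V ^ 2 ≤ p * (1 - p) * J) :
    -((a - η / 3 * b) * V + H * b * v * (1 - η)) ≤
      H * (a ^ 2 + b ^ 2 / 3) + ((1 / 4 + η ^ 2 / 12) * (3 * p * J) -
        1 / 2 * (η * (1 - η)) * (V * v) + 3 / 4 * (1 - η) ^ 2 * (H * v ^ 2)) := by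
  rcases eq_or_lt_of_le hp1 with rfl | h
  · have hV0 : V = 0 := by
      have : V ^ 2 ≤ 0 := by simpa using hV
      nlinarith [sq_nonneg V]
    have hH0 : H = 0 := by rw [hH]; norm_num
    rw [hV0, hH0]
    have : 0 ≤ (1 / 4 + η ^ 2 / 12) * (3 * 1 * J) := by positivity
    nlinarith [this]
  · have hHp : 0 < H := by rw [hH]; linarith
    have hp3 : p * (1 - p) * J = 3 * p * J * H := by rw [hH]; ring
    rw [hp3] at hV
    have key : 0 ≤ H * ((H * (a ^ 2 + b ^ 2 / 3) + ((1 / 4 + η ^ 2 / 12) * (3 * p * J) -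
        1 / 2 * (η * (1 - η)) * (V * v) + 3 / 4 * (1 - η) ^ 2 * (H * v ^ 2))) -
          -((a - η / 3 * b) * V + H * b * v * (1 - η))) := by
      have e : H * ((H * (a ^ 2 + b ^ 2 / 3) + ((1 / 4 + η ^ 2 / 12) * (3 * p * J) -
        1 / 2 * (η * (1 - η)) * (V * v) + 3 / 4 * (1 - η) ^ 2 * (H * v ^ 2))) -
          -((a - η / 3 * b) * V + H * b * v * (1 - η))) =
          (2 * H * a + V) ^ 2 / 4 +
            (2 * H * b + 3 * (-η / 3 * V + (1 - η) * H * v)) ^ 2 / 12 +
            (1 / 4 + η ^ 2 / 12) * (3 * p * J * H - V ^ 2) := by ring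
      rw [e]
      have : 0 ≤ (1 / 4 + η ^ 2 / 12) * (3 * p * J * H - V ^ 2) :=
        mul_nonneg (by positivity) (by linarith)
      positivity
    have := nonneg_of_mul_nonneg_right key hHp
    linarith

private theorem sec_poly (a b c : ℝ) :
    ∫ η in (0 : ℝ)..1, (a + b * η + c * η ^ 2) = a + b / 2 + c / 3 := by
  have i1 : IntervalIntegrable (fun _ : ℝ => a) volume 0 1 :=
    continuous_const.intervalIntegrable _ _
  have i2 : IntervalIntegrable (fun x : ℝ => b * x) volume 0 1 :=
    (by fun_prop : Continuous fun x : ℝ => b * x).intervalIntegrable _ _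
  have i3 : IntervalIntegrable (fun x : ℝ => c * x ^ 2) volume 0 1 :=
    (by fun_prop : Continuous fun x : ℝ => c * x ^ 2).intervalIntegrable _ _
  rw [intervalIntegral.integral_add (i1.add i2) i3, intervalIntegral.integral_add i1 i2,
    intervalIntegral.integral_const_mul, intervalIntegral.integral_const_mul,
    intervalIntegral.integral_const, integral_id, integral_pow]
  norm_num
  ring

private theorem sec_swap {F : ℝ → ℝ → ℝ} (hF : Continuous F.uncurry) :
    ∫ x in (0 : ℝ)..1, ∫ y in (0 : ℝ)..1, F x y = ∫ y in (0 : ℝ)..1, ∫ x in (0 : ℝ)..1, F x y := by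
  apply MeasureTheory.intervalIntegral_intervalIntegral_swap
  refine IntegrableOn.mono_set (t := Set.Icc (0 : ℝ) 1 ×ˢ Set.Icc (0 : ℝ) 1) ?_ ?_
  · exact hF.continuousOn.integrableOn_compact (isCompact_Icc.prod isCompact_Icc)
  · rw [Set.uIoc_of_le zero_le_one]
    exact Set.prod_mono Set.Ioc_subset_Icc_self Set.Ioc_subset_Icc_self

/-- see the blueprint -/
theorem sector {G : ℝ × ℝ → ℝ} (hG : ContDiff ℝ 1 G) (h0 : ∫ p in (0 : ℝ)..1, G (p, 0) = 0) :
    3 / 2 * ∫ p in (0 : ℝ)..1, G (p, 0) ^ 2 ≤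
      ∫ p in (0 : ℝ)..1, ∫ q in (0 : ℝ)..((1 - p) / 3),
        (3 * dS G (p, q) ^ 2 + dT G (p, q) ^ 2) := by
  have cG : Continuous G := hG.continuous
  have cS : Continuous (dS G) := continuous_dS hG
  have cT : Continuous (dT G) := continuous_dT hG
  set v : ℝ → ℝ := fun p => G (p, 0) with hv
  have cv : Continuous v := by rw [hv]; fun_prop
  set V : ℝ → ℝ := fun p => ∫ x in (0 : ℝ)..p, v x with hVdef
  have dV : ∀ p, HasDerivAt V (v p) p := fun p =>
    intervalIntegral.integral_hasDerivAt_right (cv.intervalIntegrable _ _)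
      (cv.stronglyMeasurableAtFilter _ _) cv.continuousAt
  have cV : Continuous V := continuous_iff_continuousAt.2 fun p => (dV p).continuousAt
  have V0 : V 0 = 0 := by simp [hVdef]
  have V1 : V 1 = 0 := h0
  set J : ℝ := ∫ p in (0 : ℝ)..1, v p ^ 2 with hJ
  have J0 : 0 ≤ J := intervalIntegral.integral_nonneg zero_le_one (fun x _ => sq_nonneg _)
  -- the point, and the functions
  set z : ℝ → ℝ → ℝ × ℝ := fun p η => (p, η * ((1 - p) / 3)) with hz
  have cz : Continuous z.uncurry := by
    show Continuous (fun x : ℝ × ℝ => ((x.1, x.2 * ((1 - x.1) / 3)) : ℝ × ℝ))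
    fun_prop
  have cGz : Continuous (fun x : ℝ × ℝ => G (z x.1 x.2)) := cG.comp cz
  have cSz : Continuous (fun x : ℝ × ℝ => dS G (z x.1 x.2)) := cS.comp cz
  have cTz : Continuous (fun x : ℝ × ℝ => dT G (z x.1 x.2)) := cT.comp cz
  -- derivatives
  have dG : ∀ x, HasFDerivAt G (fderiv ℝ G x) x := fun x =>
    (hG.differentiable (by norm_num)).differentiableAt.hasFDerivAt
  have lin : ∀ x : ℝ × ℝ, ∀ a b : ℝ, fderiv ℝ G x (a, b) = a * dS G x + b * dT G x := by
    intro x a b
    have : ((a, b) : ℝ × ℝ) = a • (1, 0) + b • (0, 1) := by simp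
    rw [this, map_add, map_smul, map_smul]; rfl
  have d1 : ∀ η p, HasDerivAt (fun p => G (z p η)) (dS G (z p η) - η / 3 * dT G (z p η)) p := by
    intro η p
    have hh : HasDerivAt (fun p : ℝ => z p η) ((1, -(η / 3)) : ℝ × ℝ) p := by
      refine HasDerivAt.prodMk (hasDerivAt_id p) ?_
      have := (((hasDerivAt_id p).const_sub 1).div_const 3).const_mul η
      exact this.congr_deriv (by ring)
    have := (dG (z p η)).comp_hasDerivAt p hh
    rw [lin] at this
    exact this.congr_deriv (by ring)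
  have d2 : ∀ p η, HasDerivAt (fun η => G (z p η)) ((1 - p) / 3 * dT G (z p η)) η := by
    intro p η
    have hh : HasDerivAt (fun η : ℝ => z p η) ((0, (1 - p) / 3) : ℝ × ℝ) η := by
      refine HasDerivAt.prodMk (hasDerivAt_const η p) ?_
      have := (hasDerivAt_id η).mul_const ((1 - p) / 3)
      exact this.congr_deriv (by ring)
    have := (dG (z p η)).comp_hasDerivAt η hh
    rw [lin] at this
    exact this.congr_deriv (by ring)
  -- the right hand side
  set D : ℝ := ∫ p in (0 : ℝ)..1, ∫ q in (0 : ℝ)..((1 - p) / 3),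
        (3 * dS G (p, q) ^ 2 + dT G (p, q) ^ 2) with hD
  have hD2 : D = 3 * ∫ p in (0 : ℝ)..1, ∫ η in (0 : ℝ)..1,
      ((1 - p) / 3 * (dS G (z p η) ^ 2 + dT G (z p η) ^ 2 / 3)) := by
    rw [hD, ← intervalIntegral.integral_const_mul]
    congr 1
    funext p
    have e := intervalIntegral.smul_integral_comp_mul_right (a := 0) (b := 1)
      (fun q => 3 * dS G (p, q) ^ 2 + dT G (p, q) ^ 2) ((1 - p) / 3)
    rw [zero_mul, one_mul] at e
    rw [← e, smul_eq_mul, ← intervalIntegral.integral_const_mul,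
      ← intervalIntegral.integral_const_mul]
    congr 1
    funext η
    simp only [hz]
    ring
  -- the identity for J
  set S3 : ℝ := ∫ p in (0 : ℝ)..1, ∫ η in (0 : ℝ)..1, G (z p η) * v p with hS3
  have id1 : ∫ p in (0 : ℝ)..1, ∫ η in (0 : ℝ)..1,
      ((dS G (z p η) - η / 3 * dT G (z p η)) * V p) = - S3 := by
    rw [sec_swap (F := fun p η => (dS G (z p η) - η / 3 * dT G (z p η)) * V p)
      (by show Continuous (fun x : ℝ × ℝ => (dS G (z x.1 x.2) - x.2 / 3 * dT G (z x.1 x.2)) * V x.1)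
          fun_prop), hS3,
      sec_swap (F := fun p η => G (z p η) * v p)
      (by show Continuous (fun x : ℝ × ℝ => G (z x.1 x.2) * v x.1)
          fun_prop), ← intervalIntegral.integral_neg]
    congr 1
    funext η
    have := intervalIntegral.integral_mul_deriv_eq_deriv_mul (a := 0) (b := 1)
      (u := fun p => G (z p η)) (v := V) (u' := fun p => dS G (z p η) - η / 3 * dT G (z p η))
      (v' := v) (fun p _ => d1 η p) (fun p _ => dV p)
      ((cSz.comp (Continuous.prodMk_left η)).sub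
        (((cTz.comp (Continuous.prodMk_left η))).const_mul _) |>.intervalIntegrable _ _)
      (cv.intervalIntegrable _ _)
    rw [V0, V1] at this
    linarith
  have id2 : ∫ p in (0 : ℝ)..1, ∫ η in (0 : ℝ)..1,
      ((1 - p) / 3 * dT G (z p η) * v p * (1 - η)) = - J + S3 := by
    have c1 : Continuous (fun p => ∫ η in (0 : ℝ)..1, G (z p η) * v p) := by
      apply intervalIntegral.continuous_parametric_intervalIntegral_of_continuous'
      show Continuous (fun x : ℝ × ℝ => G (z x.1 x.2) * v x.1)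
      fun_prop
    rw [hJ, hS3, ← intervalIntegral.integral_neg, ← intervalIntegral.integral_add
      ((by fun_prop : Continuous fun p => -v p ^ 2).intervalIntegrable _ _)
      (c1.intervalIntegrable _ _)]
    congr 1
    funext p
    have := intervalIntegral.integral_mul_deriv_eq_deriv_mul (a := 0) (b := 1)
      (u := fun η : ℝ => (1 - η) * v p) (v := fun η => G (z p η)) (u' := fun _ => - v p)
      (v' := fun η => (1 - p) / 3 * dT G (z p η))
      (fun η _ => by
        have := ((hasDerivAt_id η).const_sub 1).mul_const (v p)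
        exact this.congr_deriv (by ring))
      (fun η _ => d2 p η)
      (continuous_const.intervalIntegrable _ _)
      ((by
        have : Continuous fun η => dT G (z p η) := cTz.comp (Continuous.prodMk_right p)
        fun_prop : Continuous fun η => (1 - p) / 3 * dT G (z p η)).intervalIntegrable _ _)
    have e1 : ∀ η, (1 - p) / 3 * dT G (z p η) * v p * (1 - η) =
        (1 - η) * v p * ((1 - p) / 3 * dT G (z p η)) := fun η => by ring
    have e2 : G (z p 0) = v p := by simp [hz, hv]
    simp only [e1]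
    rw [this, e2]
    have e3 : ∀ η, - v p * G (z p η) = - (G (z p η) * v p) := fun η => by ring
    simp only [e3, intervalIntegral.integral_neg]
    ring
  -- the inequality
  have cI1 : Continuous (fun x : ℝ × ℝ =>
      (dS G (z x.1 x.2) - x.2 / 3 * dT G (z x.1 x.2)) * V x.1) := by fun_prop
  have cI2 : Continuous (fun x : ℝ × ℝ =>
      (1 - x.1) / 3 * dT G (z x.1 x.2) * v x.1 * (1 - x.2)) := by fun_prop
  have cI3 : Continuous (fun x : ℝ × ℝ =>
      (1 - x.1) / 3 * (dS G (z x.1 x.2) ^ 2 + dT G (z x.1 x.2) ^ 2 / 3)) := by fun_prop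
  have par : ∀ {F : ℝ × ℝ → ℝ}, Continuous F →
      Continuous (fun p => ∫ η in (0 : ℝ)..1, F (p, η)) := by
    intro F hF
    exact intervalIntegral.continuous_parametric_intervalIntegral_of_continuous'
      (f := fun p η => F (p, η)) (by exact hF) _ _
  have slice : ∀ {F : ℝ × ℝ → ℝ}, Continuous F → ∀ p,
      IntervalIntegrable (fun η => F (p, η)) volume 0 1 := by
    intro F hF p
    exact (hF.comp (Continuous.prodMk_right p)).intervalIntegrable _ _
  have step1 : ∀ p ∈ Set.Icc (0 : ℝ) 1,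
      -((∫ η in (0 : ℝ)..1, ((dS G (z p η) - η / 3 * dT G (z p η)) * V p)) +
        ∫ η in (0 : ℝ)..1, ((1 - p) / 3 * dT G (z p η) * v p * (1 - η))) ≤
      (∫ η in (0 : ℝ)..1, ((1 - p) / 3 * (dS G (z p η) ^ 2 + dT G (z p η) ^ 2 / 3))) +
        (5 / 6 * J * p - 1 / 12 * (V p * v p) + 1 / 4 * ((1 - p) / 3 * v p ^ 2)) := by
    intro p hp
    have iP : IntervalIntegrable (fun η : ℝ =>
        ((3 / 4 * p * J + 3 / 4 * ((1 - p) / 3) * v p ^ 2) +
        (-(1 / 2) * (V p * v p) - 3 / 2 * ((1 - p) / 3) * v p ^ 2) * η +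
        (p * J / 4 + 1 / 2 * (V p * v p) + 3 / 4 * ((1 - p) / 3) * v p ^ 2) * η ^ 2)) volume 0 1 :=
      (by fun_prop : Continuous (fun η : ℝ =>
        ((3 / 4 * p * J + 3 / 4 * ((1 - p) / 3) * v p ^ 2) +
        (-(1 / 2) * (V p * v p) - 3 / 2 * ((1 - p) / 3) * v p ^ 2) * η +
        (p * J / 4 + 1 / 2 * (V p * v p) +
          3 / 4 * ((1 - p) / 3) * v p ^ 2) * η ^ 2))).intervalIntegrable _ _
    have eP := sec_poly (3 / 4 * p * J + 3 / 4 * ((1 - p) / 3) * v p ^ 2)
      (-(1 / 2) * (V p * v p) - 3 / 2 * ((1 - p) / 3) * v p ^ 2)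
      (p * J / 4 + 1 / 2 * (V p * v p) + 3 / 4 * ((1 - p) / 3) * v p ^ 2)
    have eq1 : (5 / 6 * J * p - 1 / 12 * (V p * v p) + 1 / 4 * ((1 - p) / 3 * v p ^ 2)) =
        (3 / 4 * p * J + 3 / 4 * ((1 - p) / 3) * v p ^ 2) +
      (-(1 / 2) * (V p * v p) - 3 / 2 * ((1 - p) / 3) * v p ^ 2) / 2 +
      (p * J / 4 + 1 / 2 * (V p * v p) + 3 / 4 * ((1 - p) / 3) * v p ^ 2) / 3 := by ring
    rw [eq1, ← eP, ← intervalIntegral.integral_add (slice cI3 p) iP,
      ← intervalIntegral.integral_add (slice cI1 p) (slice cI2 p),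
      ← intervalIntegral.integral_neg]
    apply intervalIntegral.integral_mono_on zero_le_one
    · exact ((slice cI1 p).add (slice cI2 p)).neg
    · exact (slice cI3 p).add iP
    · intro η _
      have := sec_pt (p := p) (H := (1 - p) / 3) (V := V p) (v := v p) (J := J)
        (a := dS G (z p η)) (b := dT G (z p η)) (η := η) rfl hp.1 hp.2 J0
        (sec_V cv h0 hp.1 hp.2)
      refine this.trans (le_of_eq ?_)
      ring
  have iV : IntervalIntegrable (fun p => 1 / 12 * (V p * v p)) volume 0 1 :=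
    (by fun_prop : Continuous fun p => 1 / 12 * (V p * v p)).intervalIntegrable _ _
  have iH : IntervalIntegrable (fun p : ℝ => 1 / 4 * ((1 - p) / 3 * v p ^ 2)) volume 0 1 :=
    (by fun_prop : Continuous fun p : ℝ => 1 / 4 * ((1 - p) / 3 * v p ^ 2)).intervalIntegrable _ _
  have iJ : IntervalIntegrable (fun p : ℝ => 5 / 6 * J * p) volume 0 1 :=
    (by fun_prop : Continuous fun p : ℝ => 5 / 6 * J * p).intervalIntegrable _ _
  have step2 : ∫ p in (0 : ℝ)..1,
      -((∫ η in (0 : ℝ)..1, ((dS G (z p η) - η / 3 * dT G (z p η)) * V p)) +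
        ∫ η in (0 : ℝ)..1, ((1 - p) / 3 * dT G (z p η) * v p * (1 - η))) ≤
      ∫ p in (0 : ℝ)..1,
      ((∫ η in (0 : ℝ)..1, ((1 - p) / 3 * (dS G (z p η) ^ 2 + dT G (z p η) ^ 2 / 3))) +
        (5 / 6 * J * p - 1 / 12 * (V p * v p) + 1 / 4 * ((1 - p) / 3 * v p ^ 2))) :=
    intervalIntegral.integral_mono_on zero_le_one
    ((((par cI1).intervalIntegrable 0 1).add ((par cI2).intervalIntegrable 0 1)).neg)
    (((par cI3).intervalIntegrable 0 1).add ((iJ.sub iV).add iH)) step1
  rw [intervalIntegral.integral_neg, intervalIntegral.integral_add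
      ((par cI1).intervalIntegrable 0 1) ((par cI2).intervalIntegrable 0 1),
    intervalIntegral.integral_add ((par cI3).intervalIntegrable 0 1) ((iJ.sub iV).add iH),
    intervalIntegral.integral_add (iJ.sub iV) iH, intervalIntegral.integral_sub iJ iV,
    intervalIntegral.integral_const_mul, intervalIntegral.integral_const_mul,
    intervalIntegral.integral_const_mul] at step2
  rw [id1, id2, integral_id] at step2
  have hVv : ∫ p in (0 : ℝ)..1, V p * v p = 0 := by
    have := intervalIntegral.integral_mul_deriv_eq_deriv_mul (a := 0) (b := 1)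
      (u := V) (v := V) (u' := v) (v' := v) (fun p _ => dV p) (fun p _ => dV p)
      (cv.intervalIntegrable _ _) (cv.intervalIntegrable _ _)
    rw [V0, V1] at this
    have e : ∫ p in (0 : ℝ)..1, v p * V p = ∫ p in (0 : ℝ)..1, V p * v p := by
      congr 1; funext p; ring
    rw [e] at this
    linarith
  have hHv : ∫ p in (0 : ℝ)..1, (1 - p) / 3 * v p ^ 2 ≤ 1 / 3 * J := by
    rw [hJ, ← intervalIntegral.integral_const_mul]
    apply intervalIntegral.integral_mono_on zero_le_one
    · exact (by fun_prop : Continuous fun p : ℝ => (1 - p) / 3 * v p ^ 2).intervalIntegrable _ _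
    · exact (by fun_prop : Continuous fun p : ℝ => 1 / 3 * v p ^ 2).intervalIntegrable _ _
    · intro p hp
      apply mul_le_mul_of_nonneg_right _ (sq_nonneg _)
      linarith [hp.1]
  rw [hVv] at step2
  have : ∫ p in (0 : ℝ)..1, ∫ η in (0 : ℝ)..1,
      ((1 - p) / 3 * (dS G (z p η) ^ 2 + dT G (z p η) ^ 2 / 3)) = D / 3 := by linarith
  rw [this] at step2
  linarith

end Pool.Agent.Stk
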