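import Pool.Agent.Stk.Defs

/-!
# Integrals over the reference triangle
-/

set_option autoImplicit false

noncomputable section

namespace Pool.Agent.Stk

open MeasureTheory

theorem isCompact_Dl : IsCompact Dl := by
  have hsub : Dl ⊆ Set.Icc ((0 : ℝ), (0 : ℝ)) ((1 : ℝ), (1 : ℝ)) := by
    rintro ⟨s, t⟩ ⟨h1, h2, h3⟩
    simp only at h1 h2 h3
    exact ⟨⟨h1, h2⟩, ⟨by simp only; linarith, by simp only; linarith⟩⟩
  refine IsCompact.of_isClosed_subset isCompact_Icc ?_ hsub
  have e : Dl = {p : ℝ × ℝ | 0 ≤ p.1} ∩ ({p | 0 ≤ p.2} ∩ {p | p.1 + p.2 ≤ 1}) := by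
    ext p
    simp [Dl]
  rw [e]
  exact (isClosed_le continuous_const continuous_fst).inter
    ((isClosed_le continuous_const continuous_snd).inter
      (isClosed_le (continuous_fst.add continuous_snd) continuous_const))

theorem measurableSet_Dl : MeasurableSet Dl := isCompact_Dl.measurableSet

theorem integrableOn_Dl {F : ℝ × ℝ → ℝ} (hF : Continuous F) : IntegrableOn F Dl :=
  hF.continuousOn.integrableOn_compact isCompact_Dl

theorem int_Dl_fst {F : ℝ × ℝ → ℝ} (hF : Continuous F) :
    ∫ p in Dl, F p = ∫ t in (0 : ℝ)..1, ∫ s in (0 : ℝ)..(1 - t), F (s, t) := by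
  have hint : Integrable (Dl.indicator F) (volume : Measure (ℝ × ℝ)) :=
    (integrable_indicator_iff measurableSet_Dl).2 (integrableOn_Dl hF)
  rw [← integral_indicator measurableSet_Dl, Measure.volume_eq_prod, integral_prod_symm]
  · rw [intervalIntegral.integral_of_le zero_le_one, ← integral_Icc_eq_integral_Ioc,
      ← integral_indicator measurableSet_Icc]
    congr 1
    funext t
    by_cases ht : t ∈ Set.Icc (0 : ℝ) 1
    · rw [Set.indicator_of_mem ht, intervalIntegral.integral_of_le (by linarith [ht.2]),
        ← integral_Icc_eq_integral_Ioc, ← integral_indicator measurableSet_Icc]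
      congr 1
      funext s
      by_cases hs : s ∈ Set.Icc (0 : ℝ) (1 - t)
      · rw [Set.indicator_of_mem hs, Set.indicator_of_mem]
        exact ⟨hs.1, ht.1, by simp only; linarith [hs.2]⟩
      · rw [Set.indicator_of_notMem hs, Set.indicator_of_notMem]
        rintro ⟨h1, h2, h3⟩
        simp only at h1 h2 h3
        exact hs ⟨h1, by linarith⟩
    · rw [Set.indicator_of_notMem ht]
      have : (fun s : ℝ => Dl.indicator F (s, t)) = fun _ => 0 := by
        funext s
        rw [Set.indicator_of_notMem]
        rintro ⟨h1, h2, h3⟩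
        simp only at h1 h2 h3
        exact ht ⟨h2, by linarith⟩
      rw [this, integral_zero]
  · rw [Measure.volume_eq_prod] at hint
    exact hint

theorem int_Dl_snd {F : ℝ × ℝ → ℝ} (hF : Continuous F) :
    ∫ p in Dl, F p = ∫ s in (0 : ℝ)..1, ∫ t in (0 : ℝ)..(1 - s), F (s, t) := by
  have hint : Integrable (Dl.indicator F) (volume : Measure (ℝ × ℝ)) :=
    (integrable_indicator_iff measurableSet_Dl).2 (integrableOn_Dl hF)
  rw [← integral_indicator measurableSet_Dl, Measure.volume_eq_prod, integral_prod]
  · rw [intervalIntegral.integral_of_le zero_le_one, ← integral_Icc_eq_integral_Ioc,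
      ← integral_indicator measurableSet_Icc]
    congr 1
    funext s
    by_cases ht : s ∈ Set.Icc (0 : ℝ) 1
    · rw [Set.indicator_of_mem ht, intervalIntegral.integral_of_le (by linarith [ht.2]),
        ← integral_Icc_eq_integral_Ioc, ← integral_indicator measurableSet_Icc]
      congr 1
      funext t
      by_cases hs : t ∈ Set.Icc (0 : ℝ) (1 - s)
      · rw [Set.indicator_of_mem hs, Set.indicator_of_mem]
        exact ⟨ht.1, hs.1, by simp only; linarith [hs.2]⟩
      · rw [Set.indicator_of_notMem hs, Set.indicator_of_notMem]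
        rintro ⟨h1, h2, h3⟩
        simp only at h1 h2 h3
        exact hs ⟨h2, by linarith⟩
    · rw [Set.indicator_of_notMem ht]
      have : (fun t : ℝ => Dl.indicator F (s, t)) = fun _ => 0 := by
        funext t
        rw [Set.indicator_of_notMem]
        rintro ⟨h1, h2, h3⟩
        simp only at h1 h2 h3
        exact ht ⟨h1, by linarith⟩
      rw [this, integral_zero]
  · rw [Measure.volume_eq_prod] at hint
    exact hint

/-- `ph0` as a measurable equivalence -/
def simpE0 : (ℝ × ℝ) ≃ᵐ (ℝ × ℝ) where
  toFun := ph0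
  invFun := ph0
  left_inv := by
    rintro ⟨s, t⟩
    simp only [ph0, Prod.mk.injEq, and_true]
    ring
  right_inv := by
    rintro ⟨s, t⟩
    simp only [ph0, Prod.mk.injEq, and_true]
    ring
  measurable_toFun := by
    change Measurable ph0
    unfold ph0
    fun_prop
  measurable_invFun := by
    change Measurable ph0
    unfold ph0
    fun_prop

/-- `ph1` as a measurable equivalence -/
def simpE1 : (ℝ × ℝ) ≃ᵐ (ℝ × ℝ) where
  toFun := ph1
  invFun := ph1
  left_inv := by
    rintro ⟨s, t⟩
    simp [ph1]
  right_inv := by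
    rintro ⟨s, t⟩
    simp [ph1]
  measurable_toFun := by
    change Measurable ph1
    unfold ph1
    fun_prop
  measurable_invFun := by
    change Measurable ph1
    unfold ph1
    fun_prop

theorem simp_vol1 : MeasurePreserving ph1 (volume : Measure (ℝ × ℝ)) volume := by
  have : ph1 = Prod.swap := by
    funext p
    rfl
  rw [this, Measure.volume_eq_prod]
  exact Measure.measurePreserving_swap

theorem simp_vol0 : MeasurePreserving ph0 (volume : Measure (ℝ × ℝ)) volume := by
  have h1 : MeasurePreserving (fun p : ℝ × ℝ => (p.1, 1 - p.1 - p.2))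
      (volume : Measure (ℝ × ℝ)) volume := by
    rw [Measure.volume_eq_prod]
    refine MeasurePreserving.skew_product (f := fun x : ℝ => x)
      (g := fun x y : ℝ => 1 - x - y) (MeasurePreserving.id _) ?_ ?_
    · unfold Function.uncurry
      fun_prop
    · refine Filter.Eventually.of_forall fun x => ?_
      exact (Measure.measurePreserving_sub_left volume (1 - x)).map_eq
  have h2 : ph0 = ph1 ∘ (fun p : ℝ × ℝ => (p.1, 1 - p.1 - p.2)) ∘ ph1 := by
    funext p
    simp only [ph0, ph1, Function.comp]
    congr 1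
    ring
  rw [h2]
  exact simp_vol1.comp (h1.comp simp_vol1)

theorem mp_ph0 : MeasurePreserving ph0 (volume.restrict Dl) (volume.restrict Dl) := by
  have h := simp_vol0.restrict_preimage measurableSet_Dl
  have e : ph0 ⁻¹' Dl = Dl := by
    ext ⟨s, t⟩
    simp only [Set.mem_preimage, Dl, ph0, Set.mem_ofPred_eq]
    constructor <;> rintro ⟨h1, h2, h3⟩ <;> refine ⟨?_, ?_, ?_⟩ <;> linarith
  rwa [e] at h

theorem mp_ph1 : MeasurePreserving ph1 (volume.restrict Dl) (volume.restrict Dl) := by
  have h := simp_vol1.restrict_preimage measurableSet_Dl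
  have e : ph1 ⁻¹' Dl = Dl := by
    ext ⟨s, t⟩
    simp only [Set.mem_preimage, Dl, ph1, Set.mem_ofPred_eq]
    constructor <;> rintro ⟨h1, h2, h3⟩ <;> refine ⟨?_, ?_, ?_⟩ <;> linarith
  rwa [e] at h

/-- holds for every `F` (`ph0` is a measurable equivalence) -/
theorem int_ph0 (F : ℝ × ℝ → ℝ) : ∫ p in Dl, F (ph0 p) = ∫ p in Dl, F p := by
  have h : MeasurePreserving simpE0 (volume.restrict Dl) (volume.restrict Dl) := mp_ph0
  exact h.integral_comp' F

theorem int_ph1 (F : ℝ × ℝ → ℝ) : ∫ p in Dl, F (ph1 p) = ∫ p in Dl, F p := by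
  have h : MeasurePreserving simpE1 (volume.restrict Dl) (volume.restrict Dl) := mp_ph1
  exact h.integral_comp' F

end Pool.Agent.Stk
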